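import Pool.Agent.MP_4948b4_mp.Defs
import Mathlib

-- part MP_4948b4_mp.Deriv
section

/-!
The derivative of the vector field and of the angular momentum.
-/

namespace Pool.Agent.MP_4948b4_mp

open Complex Finset ComplexConjugate

theorem deriv_kernel {d : ℂ} (hd : d ≠ 0) :
    ∃ L : ℂ →L[ℝ] ℂ, HasFDerivAt (fun x : ℂ => x / (‖x‖ : ℂ) ^ 3) L d ∧
      ∀ v, L v = -(1 / 2) * v / (‖d‖ : ℂ) ^ 3 - 3 / 2 * (d / ‖d‖) ^ 2 * conj v / (‖d‖ : ℂ) ^ 3 := by
  have hr : 0 < ‖d‖ := norm_pos_iff.2 hd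
  have h1 := hasFDerivAt_norm_rpow d (p := 3) (by norm_num)
  have h2 := (hasDerivAt_inv (Real.rpow_pos_of_pos hr 3).ne').comp_hasFDerivAt d h1
  have h3 := h2.smul (hasFDerivAt_id d)
  refine ⟨_, h3.congr_of_eventuallyEq (Filter.Eventually.of_forall fun x => ?_), fun v => ?_⟩
  · simp [div_eq_inv_mul]
  · have hr' : (‖d‖ : ℂ) ≠ 0 := by exact_mod_cast hr.ne'
    have e : d * conj d = (‖d‖ : ℂ) ^ 2 := mul_conj' d
    have e2 : (v.re * d.re + v.im * d.im : ℂ) = (v * conj d + conj v * d) / 2 := by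
      apply Complex.ext
      · simp
      · simp
        ring
    simp only [_root_.add_apply, _root_.smul_apply,
      ContinuousLinearMap.id_apply, ContinuousLinearMap.smulRight_apply, innerSL_apply_apply,
      Complex.inner, Function.comp, id, real_smul, smul_eq_mul]
    norm_num
    rw [e2]
    field_simp
    linear_combination (-3 * v) * e

variable {n : ℕ}

theorem fderiv_rotField (m : Fin n → ℝ) (ω : ℝ) {q : Fin n → ℂ} (hq : Function.Injective q)
    (v : (Fin n → ℂ) × (Fin n → ℂ)) :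
    fderiv ℝ (rotField m ω) (q, 0) v = (v.2, fun i => (ω : ℂ) ^ 2 * v.1 i - 2 * ω * I * v.2 i +
      ∑ j ∈ univ.erase i, (m j : ℂ) * (-(1 / 2) * (v.1 j - v.1 i) / (‖q j - q i‖ : ℂ) ^ 3 -
        3 / 2 * ((q j - q i) / ‖q j - q i‖) ^ 2 * conj (v.1 j - v.1 i) / (‖q j - q i‖ : ℂ) ^ 3)) := by
  let p1 : Fin n → ((Fin n → ℂ) × (Fin n → ℂ)) →L[ℝ] ℂ := fun i =>
    (ContinuousLinearMap.proj i).comp (ContinuousLinearMap.fst ℝ _ _)
  let p2 : Fin n → ((Fin n → ℂ) × (Fin n → ℂ)) →L[ℝ] ℂ := fun i =>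
    (ContinuousLinearMap.proj i).comp (ContinuousLinearMap.snd ℝ _ _)
  have key : ∀ i j : Fin n, ∃ L : ((Fin n → ℂ) × (Fin n → ℂ)) →L[ℝ] ℂ, j ≠ i →
      HasFDerivAt (fun x : (Fin n → ℂ) × (Fin n → ℂ) =>
        (m j : ℂ) * ((x.1 j - x.1 i) / (‖x.1 j - x.1 i‖ : ℂ) ^ 3)) L (q, 0) ∧
      L v = (m j : ℂ) * (-(1 / 2) * (v.1 j - v.1 i) / (‖q j - q i‖ : ℂ) ^ 3 -
        3 / 2 * ((q j - q i) / ‖q j - q i‖) ^ 2 * conj (v.1 j - v.1 i) / (‖q j - q i‖ : ℂ) ^ 3) := by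
    intro i j
    by_cases h : j = i
    · exact ⟨0, fun h' => absurd h h'⟩
    obtain ⟨L, hL, hL'⟩ := deriv_kernel (sub_ne_zero.2 (hq.ne h))
    have := (HasFDerivAt.comp (q, (0 : Fin n → ℂ)) (f := fun x => (p1 j - p1 i) x) hL
      (p1 j - p1 i).hasFDerivAt).const_mul (m j : ℂ)
    exact ⟨_, fun _ => ⟨this, by simp [hL', p1]; left; ring⟩⟩
  choose L hL using key
  have H : HasFDerivAt (rotField m ω) ((ContinuousLinearMap.snd ℝ _ _).prod
      (ContinuousLinearMap.pi fun i => ((ω : ℂ) ^ 2) • p1 i - (2 * ω * I) • p2 i +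
        ∑ j ∈ univ.erase i, L i j)) (q, 0) := by
    refine hasFDerivAt_snd.prodMk (hasFDerivAt_pi.2 fun i => ?_)
    refine (((p1 i).hasFDerivAt.const_mul _).sub ((p2 i).hasFDerivAt.const_mul _)).add ?_
    exact HasFDerivAt.fun_sum fun j hj => (hL i j (mem_erase.1 hj).1).1
  rw [H.fderiv]
  refine Prod.ext rfl (funext fun i => ?_)
  simp only [ContinuousLinearMap.prod_apply, ContinuousLinearMap.pi_apply,
    _root_.add_apply, _root_.sub_apply, _root_.smul_apply,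
    _root_.sum_apply, smul_eq_mul]
  congr 1
  exact sum_congr rfl fun j hj => (hL i j (mem_erase.1 hj).1).2

theorem fderiv_angMom (m : Fin n → ℝ) (ω : ℝ) (q : Fin n → ℂ) (v : (Fin n → ℂ) × (Fin n → ℂ)) :
    fderiv ℝ (angMom m ω) (q, 0) v =
      ∑ i, m i * (2 * ω * (conj (q i) * v.1 i).re + (conj (q i) * v.2 i).im) := by
  let p1 : Fin n → ((Fin n → ℂ) × (Fin n → ℂ)) →L[ℝ] ℂ := fun i =>
    (ContinuousLinearMap.proj i).comp (ContinuousLinearMap.fst ℝ _ _)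
  let p2 : Fin n → ((Fin n → ℂ) × (Fin n → ℂ)) →L[ℝ] ℂ := fun i =>
    (ContinuousLinearMap.proj i).comp (ContinuousLinearMap.snd ℝ _ _)
  have key : ∀ i : Fin n, ∃ L : ((Fin n → ℂ) × (Fin n → ℂ)) →L[ℝ] ℝ,
      HasFDerivAt (fun x : (Fin n → ℂ) × (Fin n → ℂ) =>
        m i * (conj (x.1 i) * (x.2 i + ω * I * x.1 i)).im) L (q, 0) ∧
      L v = m i * (2 * ω * (conj (q i) * v.1 i).re + (conj (q i) * v.2 i).im) := by
    intro i
    have h1 := ((conjCLE : ℂ →L[ℝ] ℂ).comp (p1 i)).hasFDerivAt (x := (q, 0))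
    have h2 := ((p2 i).hasFDerivAt (x := (q, 0))).add ((p1 i).hasFDerivAt.const_mul (ω * I))
    have h3 := (imCLM.hasFDerivAt.comp _ (h1.mul h2)).const_mul (m i)
    refine ⟨_, h3, ?_⟩
    simp [p1, p2]
    ring
  choose L hL using key
  have H : HasFDerivAt (angMom m ω) (∑ i, L i) (q, 0) := HasFDerivAt.fun_sum fun i _ => (hL i).1
  rw [H.fderiv, _root_.sum_apply]
  exact sum_congr rfl fun i _ => (hL i).2

end Pool.Agent.MP_4948b4_mp

end

-- part MP_4948b4_mp.Spec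
section

/-!
Trace inequalities for a matrix all of whose eigenvalues lie in a closed half plane.
-/

namespace Pool.Agent.MP_4948b4_mp

open Matrix Complex

section general
variable {κ σ : Type} [Fintype κ] [DecidableEq κ] [Fintype σ] [DecidableEq σ]

theorem mem_spec_iff (A : Matrix κ κ ℂ) (μ : ℂ) :
    μ ∈ spectrum ℂ A ↔ ∃ x, x ≠ 0 ∧ A *ᵥ x = μ • x := by
  rw [mem_spectrum_iff_isRoot_charpoly, Polynomial.IsRoot, eval_charpoly,
    ← exists_mulVec_eq_zero_iff]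
  refine exists_congr fun x => and_congr_right fun _ => ?_
  rw [sub_mulVec, sub_eq_zero, scalar_apply, eq_comm]
  have : diagonal (fun _ : κ => μ) *ᵥ x = μ • x := by
    ext i; simp [mulVec_diagonal]
  rw [this]

variable {A : Matrix κ κ ℂ} {As : Matrix σ σ ℂ} {E : Matrix κ σ ℂ} {F : Matrix σ κ ℂ}

theorem spec_sub (hFE : F * E = 1) (hAE : A * E = E * As) {μ : ℂ} (hμ : μ ≠ 0)
    (h : μ ∈ spectrum ℂ ((1 - E * F) * A)) : μ ∈ spectrum ℂ A := by
  by_contra hc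
  rw [mem_spec_iff] at h hc
  push Not at hc
  have hc' : ∀ x, A *ᵥ x = μ • x → x = 0 := fun x hx => by
    by_contra h0; exact hc x h0 hx
  obtain ⟨x, hx0, hx⟩ := h
  have inj : Function.Injective (As - μ • (1 : Matrix σ σ ℂ)).mulVec := by
    intro y y' hy
    have h1 : (As - μ • (1 : Matrix σ σ ℂ)) *ᵥ (y - y') = 0 := by rw [mulVec_sub, hy, sub_self]
    rw [sub_mulVec, sub_eq_zero, smul_mulVec, one_mulVec] at h1
    have h2 := hc' (E *ᵥ (y - y')) (by rw [mulVec_mulVec, hAE, ← mulVec_mulVec, h1, mulVec_smul])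
    have h3 : F *ᵥ (E *ᵥ (y - y')) = y - y' := by rw [mulVec_mulVec, hFE, one_mulVec]
    rw [h2, mulVec_zero] at h3
    exact sub_eq_zero.1 h3.symm
  have sur : Function.Surjective (As - μ • (1 : Matrix σ σ ℂ)).mulVec :=
    mulVec_surjective_iff_isUnit.2 (mulVec_injective_iff_isUnit.1 inj)
  obtain ⟨y, hy⟩ := sur (F *ᵥ (A *ᵥ x))
  rw [sub_mulVec, smul_mulVec, one_mulVec] at hy
  have h1 : A *ᵥ x - E *ᵥ (F *ᵥ (A *ᵥ x)) = μ • x := by
    rw [← hx, ← mulVec_mulVec, sub_mulVec, one_mulVec, mulVec_mulVec (M := E)]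
  have h2 : A *ᵥ (E *ᵥ y) = E *ᵥ (As *ᵥ y) := by rw [mulVec_mulVec, hAE, ← mulVec_mulVec]
  have h3 := hc' (x - E *ᵥ y) (by
    rw [mulVec_sub, h2, smul_sub, ← h1, ← hy, mulVec_sub, mulVec_smul]; abel)
  have h4 : x = E *ᵥ y := sub_eq_zero.1 h3
  rw [h4, h2, mulVec_mulVec (M := F), hFE, one_mulVec, sub_self, ← h4] at h1
  exact hx0 ((smul_eq_zero.1 h1.symm).resolve_left hμ)

theorem pow_mul_E (hAE : A * E = E * As) : ∀ k : ℕ, A ^ k * E = E * As ^ k
  | 0 => by simp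
  | k + 1 => by
    rw [pow_succ, Matrix.mul_assoc, hAE, ← Matrix.mul_assoc, pow_mul_E hAE k, Matrix.mul_assoc,
      pow_succ]

theorem proj_pow (hFE : F * E = 1) (hAE : A * E = E * As) :
    ∀ k : ℕ, ((1 - E * F) * A) ^ (k + 1) = (1 - E * F) * A ^ (k + 1)
  | 0 => by simp
  | k + 1 => by
    have h0 : (1 - E * F) * E = 0 := by
      rw [Matrix.sub_mul, Matrix.mul_assoc, hFE]; simp
    have h1 : (1 - E * F) * A ^ (k + 1) * (E * F) = 0 := by
      rw [Matrix.mul_assoc, ← Matrix.mul_assoc (A ^ (k + 1)), pow_mul_E hAE, Matrix.mul_assoc E,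
        ← Matrix.mul_assoc (1 - E * F), h0, Matrix.zero_mul]
    rw [pow_succ, proj_pow hFE hAE k, ← Matrix.mul_assoc, Matrix.mul_sub (_ * _), h1, pow_succ A (k + 1)]
    simp [Matrix.mul_assoc]

theorem trace_proj_pow (hFE : F * E = 1) (hAE : A * E = E * As) (k : ℕ) :
    trace (((1 - E * F) * A) ^ (k + 1)) = trace (A ^ (k + 1)) - trace (As ^ (k + 1)) := by
  rw [proj_pow hFE hAE, Matrix.sub_mul, trace_sub, Matrix.one_mul, Matrix.mul_assoc,
    trace_mul_comm E, Matrix.mul_assoc, pow_mul_E hAE, ← Matrix.mul_assoc, hFE, Matrix.one_mul]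

theorem mem_spec_of_root {M : Matrix κ κ ℂ} {μ : ℂ} (h : μ ∈ M.charpoly.roots) :
    μ ∈ spectrum ℂ M :=
  mem_spectrum_iff_isRoot_charpoly.2 (Polynomial.isRoot_of_mem_roots h)

theorem re_trace (M : Matrix κ κ ℂ) (c : ℝ) :
    c * (trace M).re = (M.charpoly.roots.map (fun μ => c * μ.re)).sum := by
  rw [trace_eq_sum_roots_charpoly, Multiset.sum_map_mul_left]
  congr 1
  exact map_multiset_sum reAddGroupHom _

theorem trace_sign (hFE : F * E = 1) (hAE : A * E = E * As) (ht : trace A = trace As) {s : ℝ}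
    (hs : s ≠ 0) (h : ∀ (μ : ℂ) x, x ≠ 0 → A *ᵥ x = μ • x → s * μ.re ≤ 0) (k : ℕ) :
    0 ≤ (-1) ^ (k + 1) * (trace (A ^ (2 * k + 2)) - trace (As ^ (2 * k + 2))).re := by
  have h1 : ∀ μ ∈ spectrum ℂ ((1 - E * F) * A), 0 ≤ -s * μ.re := fun μ hμ => by
    by_cases h0 : μ = 0
    · simp [h0]
    · obtain ⟨x, hx0, hx⟩ := (mem_spec_iff _ _).1 (spec_sub hFE hAE h0 hμ)
      have := h μ x hx0 hx
      linarith
  have h2 : trace ((1 - E * F) * A) = 0 := by
    have := trace_proj_pow hFE hAE 0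
    simpa [ht] using this
  have h3 := re_trace ((1 - E * F) * A) (-s)
  rw [h2, zero_re, mul_zero] at h3
  have h4 := Multiset.all_zero_of_le_zero_le_of_sum_eq_zero (fun x hx => by
    obtain ⟨μ, hμ, rfl⟩ := Multiset.mem_map.1 hx
    exact h1 μ (mem_spec_of_root hμ)) h3.symm
  have h5 : ∀ μ ∈ spectrum ℂ ((1 - E * F) * A), μ.re = 0 := fun μ hμ => by
    have hr : μ ∈ ((1 - E * F) * A).charpoly.roots :=
      (Polynomial.mem_roots (charpoly_monic _).ne_zero).2 (mem_spectrum_iff_isRoot_charpoly.1 hμ)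
    have := h4 _ (Multiset.mem_map.2 ⟨μ, hr, rfl⟩)
    exact (mul_eq_zero.1 this).resolve_left (neg_ne_zero.2 hs)
  rw [show 2 * k + 2 = (2 * k + 1) + 1 by ring, ← trace_proj_pow hFE hAE, re_trace]
  refine Multiset.sum_nonneg fun x hx => ?_
  obtain ⟨μ, hμ, rfl⟩ := Multiset.mem_map.1 hx
  have := mem_spec_of_root hμ
  rw [spectrum.map_pow_of_pos _ (Nat.succ_pos _)] at this
  obtain ⟨l, hl, rfl⟩ := this
  have e : l = (l.im : ℂ) * I := by
    apply Complex.ext <;> simp [h5 l hl]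
  have e2 : l ^ (2 * k + 1 + 1) = (((-1) ^ (k + 1) * l.im ^ (2 * k + 2) : ℝ) : ℂ) := by
    rw [show 2 * k + 1 + 1 = 2 * (k + 1) by ring]
    conv_lhs => rw [e, mul_pow, pow_mul I, I_sq]
    push_cast; ring
  simp only
  rw [e2, ofReal_re, ← mul_assoc, ← mul_pow]
  simp only [mul_neg, mul_one, neg_neg, one_pow, one_mul]
  rw [show 2 * k + 2 = 2 * (k + 1) by ring, pow_mul]
  positivity

omit [DecidableEq κ] [DecidableEq σ] in
theorem trace_blocks (P : Matrix κ κ ℂ) (Q : Matrix κ σ ℂ) (R : Matrix σ κ ℂ) (S : Matrix σ σ ℂ) :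
    trace (fromBlocks P Q R S) = trace P + trace S := by
  simp [trace, Fintype.sum_sum_type]

theorem second_order (K G : Matrix κ κ ℂ) (hG : G * G = (-4 : ℂ) • 1) :
    trace (fromBlocks 0 1 K G) = trace G ∧
    trace (fromBlocks 0 1 K G ^ 2) = 2 * trace K - 4 * Fintype.card κ ∧
    trace (fromBlocks 0 1 K G ^ 4) = 2 * trace (K * K) - 16 * trace K + 16 * Fintype.card κ ∧
    trace (fromBlocks 0 1 K G ^ 6) = 2 * trace (K * K * K) - 24 * trace (K * K) +
      3 * trace (K * (G * K * G)) + 96 * trace K - 64 * Fintype.card κ := by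
  have hG' : ∀ X : Matrix κ κ ℂ, G * (G * X) = (-4 : ℂ) • X := fun X => by
    rw [← Matrix.mul_assoc, hG]; simp
  have c1 : ∀ X : Matrix κ κ ℂ, trace (G * (X * G)) = -4 * trace X := fun X => by
    rw [trace_mul_comm, Matrix.mul_assoc, hG]; simp
  have a2 : fromBlocks 0 1 K G ^ 2 = fromBlocks K G (G * K) (K + (-4 : ℂ) • 1) := by
    rw [pow_two, fromBlocks_multiply, hG]; simp
  have a4 : fromBlocks 0 1 K G ^ 4 = fromBlocks (K * K + (-4 : ℂ) • K)
      (K * G + G * K + (-4 : ℂ) • G) (G * (K * K) + K * (G * K) + (-4 : ℂ) • (G * K))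
      (G * (K * G) + K * K + (-8 : ℂ) • K + (16 : ℂ) • 1) := by
    rw [show 4 = 2 + 2 from rfl, pow_add, a2, fromBlocks_multiply]
    congr 1
    · rw [hG']
    · simp only [Matrix.mul_add, Matrix.mul_smul, Matrix.mul_one, add_assoc]
    · simp only [Matrix.add_mul, Matrix.smul_mul, Matrix.one_mul, Matrix.mul_assoc, add_assoc]
    · simp only [Matrix.add_mul, Matrix.mul_add, Matrix.smul_mul, Matrix.mul_smul, Matrix.one_mul,
        Matrix.mul_one, Matrix.mul_assoc]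
      module
  refine ⟨by simp [trace_blocks], ?_, ?_, ?_⟩
  · rw [a2, trace_blocks]; simp; ring
  · rw [a4, trace_blocks]; simp [c1]; ring
  · rw [show 6 = 4 + 2 from rfl, pow_add, a4, a2, fromBlocks_multiply, trace_blocks]
    have c2 : trace (G * (K * (G * K))) = trace (K * (G * (K * G))) := by
      rw [trace_mul_comm]; simp only [Matrix.mul_assoc]
    have c3 : trace (G * (K * (K * G))) = -4 * trace (K * K) := by
      rw [← c1 (K * K)]; simp only [Matrix.mul_assoc]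
    simp only [Matrix.add_mul, Matrix.mul_add, Matrix.smul_mul, Matrix.mul_smul, Matrix.one_mul,
      Matrix.mul_one, Matrix.mul_assoc, hG', trace_add, trace_smul, c1, c2, c3, smul_eq_mul,
      trace_one]
    ring

end general

variable {ι : Type} [Fintype ι] [DecidableEq ι]

/-- the gyroscopic block -/
noncomputable def gy (ι : Type) [DecidableEq ι] : Matrix (ι ⊕ ι) (ι ⊕ ι) ℂ :=
  fromBlocks ((-2 * I) • 1) 0 0 ((2 * I) • 1)

/-- the complexified linearisation -/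
noncomputable def lin (P Q Q' : Matrix ι ι ℂ) :
    Matrix ((ι ⊕ ι) ⊕ (ι ⊕ ι)) ((ι ⊕ ι) ⊕ (ι ⊕ ι)) ℂ :=
  fromBlocks 0 1 (fromBlocks P Q Q' P) (gy ι)

theorem lin_traces (P Q Q' : Matrix ι ι ℂ) :
    trace (lin P Q Q') = 0 ∧
    trace (lin P Q Q' ^ 2) = 4 * trace P - 8 * Fintype.card ι ∧
    trace (lin P Q Q' ^ 4) = 4 * trace (P * P) + 4 * trace (Q * Q') - 32 * trace P +
      32 * Fintype.card ι ∧
    trace (lin P Q Q' ^ 6) = 4 * trace (P * P * P) + 6 * trace (P * Q * Q') + 6 * trace (P * Q' * Q)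
      - 72 * trace (P * P) - 24 * trace (Q * Q') + 192 * trace P - 128 * Fintype.card ι := by
  have i1 : (-2 * I) * (-2 * I) = -4 := by linear_combination 4 * I_mul_I
  have i2 : (2 * I) * (2 * I) = -4 := by linear_combination 4 * I_mul_I
  have i3 : (2 * I) * (-2 * I) = 4 := by linear_combination -4 * I_mul_I
  have i4 : (-2 * I) * (2 * I) = 4 := by linear_combination -4 * I_mul_I
  have hG : gy ι * gy ι = (-4 : ℂ) • 1 := by
    rw [gy, fromBlocks_multiply, ← fromBlocks_one, fromBlocks_smul]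
    simp only [Matrix.mul_smul, Matrix.mul_one, smul_smul, i1, i2, Matrix.mul_zero,
      add_zero, zero_add, smul_zero]
  have hK : gy ι * fromBlocks P Q Q' P * gy ι =
      fromBlocks ((-4 : ℂ) • P) ((4 : ℂ) • Q) ((4 : ℂ) • Q') ((-4 : ℂ) • P) := by
    rw [gy, fromBlocks_multiply, fromBlocks_multiply]
    simp only [Matrix.smul_mul, Matrix.mul_smul, Matrix.mul_one, Matrix.one_mul, smul_smul, i1, i2,
      i3, i4, Matrix.mul_zero, Matrix.zero_mul, add_zero, zero_add]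
  obtain ⟨h1, h2, h4, h6⟩ := second_order (fromBlocks P Q Q' P) (gy ι) hG
  have c1 : trace (Q' * Q) = trace (Q * Q') := trace_mul_comm _ _
  have c2 : trace (Q * (Q' * P)) = trace (P * (Q * Q')) := by
    rw [← Matrix.mul_assoc, trace_mul_comm]
  have c3 : trace (Q' * (Q * P)) = trace (P * (Q' * Q)) := by
    rw [← Matrix.mul_assoc, trace_mul_comm]
  have c4 : trace (Q * (P * Q')) = trace (P * (Q' * Q)) := by
    rw [trace_mul_comm, Matrix.mul_assoc]
  have c5 : trace (Q' * (P * Q)) = trace (P * (Q * Q')) := by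
    rw [trace_mul_comm, Matrix.mul_assoc]
  unfold lin
  rw [h1, h2, h4, h6, hK]
  simp only [fromBlocks_multiply, trace_blocks, gy, Matrix.add_mul, Matrix.mul_smul, trace_add,
    trace_smul, Matrix.mul_assoc, c1, c2, c3, c4, c5, smul_eq_mul, trace_one, Fintype.card_sum,
    Nat.cast_add]
  refine ⟨by ring, by ring, by ring, by ring⟩

noncomputable def Ps : Matrix (Fin 2) (Fin 2) ℂ := !![1, 0; 0, 3 / 2]
noncomputable def Qs : Matrix (Fin 2) (Fin 2) ℂ := !![0, 0; 0, 3 / 2]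

theorem lin_sign {P Q Q' : Matrix ι ι ℂ} {Ea Eb : Matrix ι (Fin 2) ℂ} {Fa Fb : Matrix (Fin 2) ι ℂ}
    (ha : Fa * Ea = 1) (hb : Fb * Eb = 1) (h1 : P * Ea = Ea * Ps)
    (h2 : P * Eb = Eb * Ps) (h3 : Q * Eb = Ea * Qs)
    (h4 : Q' * Ea = Eb * Qs) {s : ℝ} (hs : s ≠ 0)
    (h : ∀ (μ : ℂ) x, x ≠ 0 → lin P Q Q' *ᵥ x = μ • x → s * μ.re ≤ 0) :
    (trace (lin P Q Q' ^ 2)).re ≤ -6 ∧ 6 ≤ (trace (lin P Q Q' ^ 4)).re ∧
      (trace (lin P Q Q' ^ 6)).re ≤ -6 := by
  have hFE : fromBlocks (fromBlocks Fa 0 0 Fb) 0 0 (fromBlocks Fa 0 0 Fb) *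
      fromBlocks (fromBlocks Ea 0 0 Eb) 0 0 (fromBlocks Ea 0 0 Eb) = 1 := by
    simp [fromBlocks_multiply, ha, hb]
  have hAE : lin P Q Q' * fromBlocks (fromBlocks Ea 0 0 Eb) 0 0 (fromBlocks Ea 0 0 Eb) =
      fromBlocks (fromBlocks Ea 0 0 Eb) 0 0 (fromBlocks Ea 0 0 Eb) *
        lin Ps Qs Qs := by
    simp [lin, gy, fromBlocks_multiply, h1, h2, h3, h4]
  obtain ⟨t1, t2, t4, t6⟩ :=
    lin_traces Ps Qs Qs
  have H := trace_sign hFE hAE ((lin_traces P Q Q').1.trans t1.symm) hs h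
  have a := H 0
  have b := H 1
  have c := H 2
  have u1 : trace Ps = 5 / 2 := by norm_num [Ps, trace_fin_two]
  have u2 : trace (Ps * Ps) = 13 / 4 := by norm_num [Ps, trace_fin_two]
  have u3 : trace (Ps * Ps * Ps) = 35 / 8 := by norm_num [Ps, trace_fin_two]
  have u4 : trace (Qs * Qs) = 9 / 4 := by norm_num [Qs, trace_fin_two]
  have u5 : trace (Ps * Qs * Qs) = 27 / 8 := by norm_num [Ps, Qs, trace_fin_two]
  simp only [u1, u2, u3, u4, u5] at t2 t4 t6
  norm_num at t2 t4 t6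
  norm_num [t2, t4, t6] at a b c
  exact ⟨by linarith, by linarith, by linarith⟩

end Pool.Agent.MP_4948b4_mp

end
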