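import Mathlib
import Pool.Agent.MP_4948b4_mp.Mg.Spec

-- part MP_4948b4_mp.LogHolder
section

/-!
Hölder's inequality for the trace of a product of `2 ^ (m + 1)` matrices, and a perturbation bound
for traces of powers.
-/

namespace Pool.Agent.MP_4948b4_mp

open Matrix Complex Finset

variable {κ : Type} [Fintype κ] [DecidableEq κ]

/-- `x.2` bounds the Schatten norm of exponent `2 ^ (m + 1)` of `x.1`. -/
def Bd (m : ℕ) (x : Matrix κ κ ℂ × ℝ) : Prop :=
  0 ≤ x.2 ∧ (trace ((x.1 * x.1ᴴ) ^ 2 ^ m)).re ≤ x.2 ^ 2 ^ (m + 1)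

theorem log_pair {M : Type} [Monoid M] : ∀ (k : ℕ) (l : List M), l.length = 2 * k →
    ∃ l' : List M, l'.length = k ∧ l'.prod = l.prod ∧ ∀ z ∈ l', ∃ x ∈ l, ∃ y ∈ l, z = x * y
  | 0, l, h => ⟨[], rfl, by rw [List.length_eq_zero_iff.1 h], by simp⟩
  | k + 1, [], h => by simp at h
  | k + 1, [_], h => by simp at h; omega
  | k + 1, x :: y :: t, h => by
    obtain ⟨l', h1, h2, h3⟩ := log_pair k t (by simp at h; omega)
    refine ⟨x * y :: l', by simp [h1], by simp [h2, mul_assoc], fun z hz => ?_⟩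
    rcases List.mem_cons.1 hz with rfl | hz
    · exact ⟨x, by simp, y, by simp, rfl⟩
    · obtain ⟨a, ha, b, hb, rfl⟩ := h3 z hz
      exact ⟨a, by simp [ha], b, by simp [hb], rfl⟩

theorem log_alt {M : Type} [Monoid M] (p q : M) : ∀ k : ℕ,
    ∃ l : List M, l.length = 2 * k ∧ l.prod = (p * q) ^ k ∧ ∀ x ∈ l, x = p ∨ x = q
  | 0 => ⟨[], rfl, by simp, by simp⟩
  | k + 1 => by
    obtain ⟨l, h1, h2, h3⟩ := log_alt p q k
    refine ⟨p :: q :: l, by simp [h1]; omega, by simp [h2, pow_succ', mul_assoc], fun x hx => ?_⟩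
    simp only [List.mem_cons] at hx
    rcases hx with h | h | h
    · exact Or.inl h
    · exact Or.inr h
    · exact h3 x h

theorem trace_pow_comm (X Y : Matrix κ κ ℂ) (k : ℕ) :
    trace ((X * Y) ^ (k + 1)) = trace ((Y * X) ^ (k + 1)) := by
  have h : ∀ k : ℕ, (X * Y) ^ k * X = X * (Y * X) ^ k := fun k => by
    induction k with
    | zero => simp
    | succ k ih =>
      rw [pow_succ', Matrix.mul_assoc, ih, pow_succ']
      simp only [Matrix.mul_assoc]
  rw [pow_succ, ← Matrix.mul_assoc, h, trace_mul_comm, pow_succ', Matrix.mul_assoc]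

theorem trace_pow_comm' (X Y : Matrix κ κ ℂ) (m : ℕ) :
    trace ((X * Y) ^ 2 ^ m) = trace ((Y * X) ^ 2 ^ m) := by
  obtain ⟨k, hk⟩ : ∃ k, 2 ^ m = k + 1 := ⟨2 ^ m - 1, by have := Nat.one_le_two_pow (n := m); omega⟩
  rw [hk, trace_pow_comm]

omit [DecidableEq κ] in
theorem trace_self (X : Matrix κ κ ℂ) :
    (trace (X * Xᴴ)).re = ∑ p : κ × κ, ‖X p.1 p.2‖ ^ 2 := by
  simp only [trace, diag_apply, mul_apply, conjTranspose_apply, re_sum, Fintype.sum_prod_type]
  refine sum_congr rfl fun i _ => sum_congr rfl fun j _ => ?_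
  rw [star_def, mul_conj, ofReal_re, normSq_eq_norm_sq]

theorem holder_zero {x y : Matrix κ κ ℂ × ℝ} (hx : Bd 0 x) (hy : Bd 0 y) :
    ‖trace (x.1 * y.1)‖ ≤ x.2 * y.2 := by
  obtain ⟨hx0, hx⟩ := hx
  obtain ⟨hy0, hy⟩ := hy
  simp only [pow_zero, pow_one, zero_add, trace_self] at hx hy
  have h1 : ‖trace (x.1 * y.1)‖ ≤ ∑ p : κ × κ, ‖x.1 p.1 p.2‖ * ‖y.1 p.2 p.1‖ := by
    simp only [trace, diag_apply, mul_apply, Fintype.sum_prod_type]
    refine (norm_sum_le _ _).trans (sum_le_sum fun i _ => (norm_sum_le _ _).trans ?_)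
    exact sum_le_sum fun j _ => (norm_mul _ _).le
  have h2 := sum_mul_sq_le_sq_mul_sq univ (fun p : κ × κ => ‖x.1 p.1 p.2‖)
    (fun p : κ × κ => ‖y.1 p.2 p.1‖)
  have h3 : ∑ p : κ × κ, ‖y.1 p.2 p.1‖ ^ 2 = ∑ p : κ × κ, ‖y.1 p.1 p.2‖ ^ 2 :=
    (Equiv.prodComm κ κ).sum_comp (fun p : κ × κ => ‖y.1 p.1 p.2‖ ^ 2)
  rw [h3] at h2
  refine h1.trans (le_of_sq_le_sq (h2.trans ?_) (mul_nonneg hx0 hy0))
  rw [mul_pow]
  exact mul_le_mul hx hy (sum_nonneg fun _ _ => sq_nonneg _) (sq_nonneg _)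

theorem holder : ∀ (m : ℕ) (l : List (Matrix κ κ ℂ × ℝ)), l.length = 2 ^ (m + 1) →
    (∀ x ∈ l, Bd m x) → ‖trace l.prod.1‖ ≤ l.prod.2
  | 0, l, h, hl => by
    obtain ⟨x, y, rfl⟩ := List.length_eq_two.1 h
    simpa using holder_zero (hl x (by simp)) (hl y (by simp))
  | m + 1, l, h, hl => by
    obtain ⟨l', h1, h2, h3⟩ := log_pair (2 ^ (m + 1)) l (by rw [h]; ring)
    rw [← h2]
    refine holder m l' h1 fun z hz => ?_
    obtain ⟨x, hx, y, hy, rfl⟩ := h3 z hz
    obtain ⟨hx0, hx⟩ := hl x hx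
    obtain ⟨hy0, hy⟩ := hl y hy
    refine ⟨mul_nonneg hx0 hy0, ?_⟩
    obtain ⟨l2, g1, g2, g3⟩ := log_alt ((x.1ᴴ * x.1, x.2 ^ 2) : Matrix κ κ ℂ × ℝ)
      (y.1 * y.1ᴴ, y.2 ^ 2) (2 ^ m)
    have key := holder m l2 (by rw [g1]; ring) fun w hw => by
      rcases g3 w hw with rfl | rfl
      · refine ⟨sq_nonneg _, ?_⟩
        simp only [conjTranspose_mul, conjTranspose_conjTranspose]
        rw [← sq, ← pow_mul, ← pow_succ', trace_pow_comm', ← pow_mul, ← pow_succ']
        exact hx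
      · refine ⟨sq_nonneg _, ?_⟩
        simp only [conjTranspose_mul, conjTranspose_conjTranspose]
        rw [← sq, ← pow_mul, ← pow_succ', ← pow_mul, ← pow_succ']
        exact hy
    rw [g2] at key
    simp only [Prod.pow_fst, Prod.pow_snd, Prod.fst_mul, Prod.snd_mul] at key ⊢
    rw [← mul_pow, ← pow_mul, ← pow_succ'] at key
    refine le_trans ?_ key
    rw [conjTranspose_mul, Matrix.mul_assoc, trace_pow_comm']
    refine le_trans (le_of_eq ?_) (re_le_norm _)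
    rw [trace_pow_comm' (x.1ᴴ * x.1)]
    simp only [Matrix.mul_assoc]

theorem holder_add {m : ℕ} {Z B : Matrix κ κ ℂ} {a b : ℝ} (hZ : Bd m (Z, a)) (hB : Bd m (B, b)) :
    ∀ (k : ℕ) (l : List (Matrix κ κ ℂ × ℝ)), l.length + k = 2 ^ (m + 1) → (∀ x ∈ l, Bd m x) →
      ‖trace (l.prod.1 * (Z + B) ^ k)‖ ≤ l.prod.2 * (a + b) ^ k ∧
      ‖trace (l.prod.1 * (Z + B) ^ k) - trace (l.prod.1 * Z ^ k)‖ ≤
        l.prod.2 * ((a + b) ^ k - a ^ k)
  | 0, l, h, hl => by simpa using holder m l h hl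
  | k + 1, l, h, hl => by
    have mem : ∀ {w}, Bd m w → ∀ x ∈ l ++ [w], Bd m x := fun hw x hx => by
      rcases List.mem_append.1 hx with hx | hx
      · exact hl x hx
      · rw [List.mem_singleton.1 hx]; exact hw
    obtain ⟨a1, a2⟩ := holder_add hZ hB k (l ++ [(Z, a)]) (by simp; omega) (mem hZ)
    obtain ⟨b1, -⟩ := holder_add hZ hB k (l ++ [(B, b)]) (by simp; omega) (mem hB)
    simp only [List.prod_append, List.prod_cons, List.prod_nil, mul_one, Prod.fst_mul,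
      Prod.snd_mul] at a1 a2 b1
    have e : trace (l.prod.1 * (Z + B) ^ (k + 1)) =
        trace (l.prod.1 * Z * (Z + B) ^ k) + trace (l.prod.1 * B * (Z + B) ^ k) := by
      rw [pow_succ', ← trace_add]
      simp only [Matrix.add_mul, Matrix.mul_add, Matrix.mul_assoc]
    constructor
    · rw [e]
      refine (norm_add_le _ _).trans ((add_le_add a1 b1).trans (le_of_eq ?_))
      ring
    · rw [e, pow_succ' Z, ← Matrix.mul_assoc, add_sub_right_comm]
      refine (norm_add_le _ _).trans ((add_le_add a2 b1).trans (le_of_eq ?_))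
      ring

theorem trace_pow_add {m : ℕ} {Z B : Matrix κ κ ℂ} {a b : ℝ} (hZ : Bd m (Z, a))
    (hB : Bd m (B, b)) :
    ‖trace ((Z + B) ^ 2 ^ (m + 1)) - trace (Z ^ 2 ^ (m + 1))‖ ≤
      (a + b) ^ 2 ^ (m + 1) - a ^ 2 ^ (m + 1) := by
  simpa using (holder_add hZ hB (2 ^ (m + 1)) [] (by simp) (by simp)).2

end Pool.Agent.MP_4948b4_mp

end

-- part MP_4948b4_mp.LogSpec
section

/-!
A gyroscopic pencil `l ^ 2 - T - l G` without roots in the right half plane: the top eigenvalue of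
`T` is at most of order `‖G‖ ^ 2 (log dim) ^ 2`.
-/

namespace Pool.Agent.MP_4948b4_mp

open Matrix Complex Finset ComplexConjugate

variable {κ : Type} [Fintype κ] [DecidableEq κ]

theorem herm_diag {T : Matrix κ κ ℂ} (hT : T.IsHermitian) : ∃ (U : Matrix κ κ ℂ) (t : κ → ℝ),
    U * Uᴴ = 1 ∧ Uᴴ * U = 1 ∧ T = U * diagonal (fun i => (t i : ℂ)) * Uᴴ := by
  refine ⟨hT.eigenvectorUnitary, hT.eigenvalues, ?_, ?_, ?_⟩
  · exact Unitary.coe_mul_star_self hT.eigenvectorUnitary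
  · exact Unitary.coe_star_mul_self hT.eigenvectorUnitary
  · conv_lhs => rw [hT.spectral_theorem, Unitary.conjStarAlgAut_apply]
    rfl

theorem norm_trace_pow_le (Z : Matrix κ κ ℂ) {k : ℕ} (hk : 0 < k) {Q : ℝ}
    (h : ∀ μ ∈ spectrum ℂ Z, ‖μ‖ ^ 2 ≤ Q) : ‖trace (Z ^ (2 * k))‖ ≤ Fintype.card κ * Q ^ k := by
  rw [trace_eq_sum_roots_charpoly]
  refine (norm_multiset_sum_le _).trans ?_
  have := Multiset.sum_le_card_nsmul ((Z ^ (2 * k)).charpoly.roots.map fun x => ‖x‖) (Q ^ k)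
    fun x hx => by
      obtain ⟨μ, hμ, rfl⟩ := Multiset.mem_map.1 hx
      have := mem_spec_of_root hμ
      rw [spectrum.map_pow_of_pos _ (by omega)] at this
      obtain ⟨l, hl, rfl⟩ := this
      simp only [norm_pow, pow_mul]
      exact pow_le_pow_left₀ (sq_nonneg _) (h l hl) _
  rwa [Multiset.card_map, IsAlgClosed.card_roots_eq_natDegree, charpoly_natDegree_eq_dim,
    nsmul_eq_mul] at this

theorem pow_pert {a b K : ℝ} {N : ℕ} (hK : 0 < K) (hb : 0 ≤ b) (ha : 10 * K ≤ a)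
    (h : 3 * N * b ≤ 5 * K) : (a + 2 * b) ^ N - a ^ N ≤ a ^ N / 2 := by
  have ha0 : 0 < a := by linarith
  have h1 : a + 2 * b ≤ a * Real.exp (b / (5 * K)) := by
    have h2 := Real.add_one_le_exp (b / (5 * K))
    have h3 : 2 * b ≤ a * (b / (5 * K)) := by
      rw [← mul_div_assoc, le_div_iff₀ (by positivity)]
      nlinarith
    nlinarith
  have h4 : Real.exp (b / (5 * K)) ^ N ≤ 3 / 2 := by
    rw [← Real.exp_nat_mul]
    have h5 : N * (b / (5 * K)) ≤ 1 / 3 := by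
      rw [← mul_div_assoc, div_le_iff₀ (by positivity)]
      linarith
    refine (Real.exp_le_exp.2 h5).trans ?_
    have := Real.exp_bound_div_one_sub_of_interval (x := 1 / 3) (by norm_num) (by norm_num)
    norm_num at this ⊢
    exact this
  have h6 := pow_le_pow_left₀ (by positivity) h1 N
  rw [mul_pow] at h6
  have h7 := mul_le_mul_of_nonneg_left h4 (pow_pos ha0 N).le
  linarith

theorem bd_gyro {G : Matrix κ κ ℂ} {b : ℝ} (hb : 0 ≤ b) (hG : G * Gᴴ = ((b : ℂ) ^ 2) • 1) {m : ℕ}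
    (hc : Fintype.card κ ≤ 2 ^ 2 ^ (m + 1)) :
    Bd m (((1 / 2 : ℂ) • fromBlocks G G G G, 2 * b) : Matrix (κ ⊕ κ) (κ ⊕ κ) ℂ × ℝ) := by
  refine ⟨by positivity, ?_⟩
  set P : Matrix (κ ⊕ κ) (κ ⊕ κ) ℂ := (1 / 2 : ℂ) • fromBlocks 1 1 1 1 with hP
  have h1 : IsIdempotentElem P := by
    rw [IsIdempotentElem, hP, Matrix.smul_mul, Matrix.mul_smul, fromBlocks_multiply]
    ext (i | i) (j | j) <;> simp <;> ring
  have h2 : ((1 / 2 : ℂ) • fromBlocks G G G G) * ((1 / 2 : ℂ) • fromBlocks G G G G)ᴴ =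
      ((b : ℂ) ^ 2) • P := by
    rw [conjTranspose_smul, fromBlocks_conjTranspose, Matrix.smul_mul, Matrix.mul_smul,
      fromBlocks_multiply, hG, hP]
    ext (i | i) (j | j) <;> simp <;> ring
  have h3 : trace P = Fintype.card κ := by
    rw [hP, trace_smul, trace_blocks, trace_one, smul_eq_mul]; ring
  simp only
  rw [h2, smul_pow, h1.pow_eq (by positivity), trace_smul, h3, smul_eq_mul, ← pow_mul, ← pow_succ',
    mul_pow, mul_comm]
  have h4 : ((Fintype.card κ : ℂ) * (b : ℂ) ^ 2 ^ (m + 1)).re =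
      Fintype.card κ * b ^ 2 ^ (m + 1) := by
    rw [← ofReal_pow, ← ofReal_natCast, ← ofReal_mul, ofReal_re]
  rw [h4]
  exact mul_le_mul_of_nonneg_right (by exact_mod_cast hc) (by positivity)

theorem diag_core (t : κ → ℝ) {G : Matrix κ κ ℂ} {b K : ℝ} (hb : 0 ≤ b) (hK : 0 < K)
    (hG : G * Gᴴ = ((b : ℂ) ^ 2) • 1) (h1 : ∀ i, -(9 * K ^ 2) ≤ t i) (h3 : ∃ i, K ^ 2 ≤ t i)
    (h2 : ∀ (l : ℂ) (y : κ → ℂ), y ≠ 0 → (∀ i, t i * y i + l * (G *ᵥ y) i = l ^ 2 * y i) →
      l.re ≤ 0 ∧ ‖l‖ ≤ 3 * K)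
    {m : ℕ} (hc : Fintype.card κ ≤ 2 ^ 2 ^ (m + 1)) (hN : 3 * (2 ^ (m + 1) : ℕ) * b ≤ 5 * K) :
    (10 / 9 : ℝ) ^ 2 ^ m ≤ 12 * Fintype.card κ := by
  set k : ℕ := 2 ^ m with hk
  have hk0 : 0 < k := by positivity
  have hN2 : 2 ^ (m + 1) = 2 * k := by rw [hk, pow_succ']
  let s : κ → ℂ := fun i => if 0 ≤ t i then (√(t i) : ℝ) else I * (√(-t i) : ℝ)
  have hs : ∀ i, s i ^ 2 = t i := fun i => by
    simp only [s]
    split_ifs with h
    · rw [← ofReal_pow, Real.sq_sqrt h]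
    · rw [mul_pow, I_sq, ← ofReal_pow, Real.sq_sqrt (by linarith)]
      simp
  let z : κ ⊕ κ → ℂ := Sum.elim (fun i => ((9 * K : ℝ) : ℂ) + s i) (fun i => ((9 * K : ℝ) : ℂ) - s i)
  set Q : ℝ := 90 * K ^ 2 with hQ
  have hQ0 : 0 ≤ Q ^ k := by positivity
  have hz : ∀ j, ‖z j‖ ^ (2 * k) ≤ (z j ^ (2 * k)).re + 2 * Q ^ k := fun j => by
    have real : ∀ x : ℝ, ‖(x : ℂ)‖ ^ (2 * k) ≤ ((x : ℂ) ^ (2 * k)).re + 2 * Q ^ k := fun x => by
      rw [← ofReal_pow, ofReal_re, norm_real, Real.norm_eq_abs, pow_mul, sq_abs, ← pow_mul]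
      linarith
    have small : ∀ w : ℂ, ‖w‖ ^ 2 ≤ Q → ‖w‖ ^ (2 * k) ≤ (w ^ (2 * k)).re + 2 * Q ^ k :=
      fun w hw => by
        have e1 : ‖w‖ ^ (2 * k) ≤ Q ^ k := by
          rw [pow_mul]; exact pow_le_pow_left₀ (sq_nonneg _) hw _
        have e2 := (abs_le.1 (abs_re_le_norm (w ^ (2 * k)))).1
        rw [norm_pow] at e2
        linarith
    rcases j with i | i
    · by_cases h : 0 ≤ t i
      · have := real (9 * K + √(t i))
        simpa [z, s, h] using this
      · refine small _ ?_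
        have := Real.sq_sqrt (show 0 ≤ -t i by linarith)
        simp only [z, s, h, Sum.elim_inl, if_false, ← normSq_eq_norm_sq, normSq_apply]
        simp
        nlinarith [h1 i]
    · by_cases h : 0 ≤ t i
      · have := real (9 * K - √(t i))
        simpa [z, s, h] using this
      · refine small _ ?_
        have := Real.sq_sqrt (show 0 ≤ -t i by linarith)
        simp only [z, s, h, Sum.elim_inr, if_false, ← normSq_eq_norm_sq, normSq_apply]
        simp
        nlinarith [h1 i]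
  set W : ℝ := ∑ j, ‖z j‖ ^ (2 * k) with hW
  have hW1 : (10 * K) ^ (2 * k) ≤ W := by
    obtain ⟨i, hi⟩ := h3
    have h0 : 0 ≤ t i := le_trans (sq_nonneg _) hi
    refine le_trans ?_ (single_le_sum (f := fun j => ‖z j‖ ^ (2 * k))
      (fun _ _ => by positivity) (mem_univ (Sum.inl i)))
    refine pow_le_pow_left₀ (by positivity) ?_ _
    have e : z (Sum.inl i) = ((9 * K + √(t i) : ℝ) : ℂ) := by simp [z, s, h0]
    have := Real.le_sqrt_of_sq_le hi
    rw [e, norm_real, Real.norm_of_nonneg (by positivity)]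
    linarith
  have hW0 : 0 < W := lt_of_lt_of_le (by positivity) hW1
  obtain ⟨a, ha0, ha⟩ : ∃ a : ℝ, 0 ≤ a ∧ a ^ (2 * k) = W :=
    ⟨W ^ ((2 * k : ℕ) : ℝ)⁻¹, by positivity, Real.rpow_inv_natCast_pow hW0.le (by omega)⟩
  have ha1 : 10 * K ≤ a := by
    rw [← pow_le_pow_iff_left₀ (by positivity) ha0 (show 2 * k ≠ 0 by omega), ha]
    exact hW1
  have bZ : Bd m ((diagonal z, a) : Matrix (κ ⊕ κ) (κ ⊕ κ) ℂ × ℝ) := by
    refine ⟨ha0, le_of_eq ?_⟩
    simp only
    rw [hN2, ha, diagonal_conjTranspose, diagonal_mul_diagonal, diagonal_pow, trace_diagonal, re_sum]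
    refine sum_congr rfl fun j _ => ?_
    rw [Pi.pow_apply, Pi.star_apply, star_def, mul_conj, ← ofReal_pow, ofReal_re,
      normSq_eq_norm_sq, pow_mul]
  have e1 := trace_pow_add bZ (bd_gyro hb hG hc)
  have e2 := pow_pert hK hb ha1 hN
  rw [hN2] at e1 e2
  rw [ha] at e1 e2
  have e3 : W ≤ (trace (diagonal z ^ (2 * k))).re + 2 * Fintype.card (κ ⊕ κ) * Q ^ k := by
    rw [diagonal_pow, trace_diagonal, re_sum]
    refine (sum_le_sum fun j _ => hz j).trans (le_of_eq ?_)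
    rw [sum_add_distrib, sum_const, card_univ, nsmul_eq_mul]
    simp only [Pi.pow_apply]
    ring
  have e4 := norm_trace_pow_le (diagonal z + (1 / 2 : ℂ) • fromBlocks G G G G) hk0 (Q := Q)
    fun μ hμ => by
      obtain ⟨x, hx0, hx⟩ := (mem_spec_iff _ _).1 hμ
      obtain ⟨l, rfl⟩ : ∃ l, μ = ((9 * K : ℝ) : ℂ) + l := ⟨μ - ((9 * K : ℝ) : ℂ), by ring⟩
      set y : κ → ℂ := (1 / 2 : ℂ) • (x ∘ Sum.inl + x ∘ Sum.inr) with hy
      have g : ∀ i, (G *ᵥ y) i =
          1 / 2 * ((G *ᵥ (x ∘ Sum.inl)) i + (G *ᵥ (x ∘ Sum.inr)) i) := fun i => by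
        rw [hy, mulVec_smul, mulVec_add]; simp
      have p1 : ∀ i, s i * x (Sum.inl i) + (G *ᵥ y) i = l * x (Sum.inl i) := fun i => by
        have := congrFun hx (Sum.inl i)
        simp only [add_mulVec, smul_mulVec, fromBlocks_mulVec, Pi.add_apply, Pi.smul_apply,
          mulVec_diagonal, Sum.elim_inl, smul_eq_mul, z] at this
        rw [g]
        linear_combination this
      have p2 : ∀ i, -s i * x (Sum.inr i) + (G *ᵥ y) i = l * x (Sum.inr i) := fun i => by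
        have := congrFun hx (Sum.inr i)
        simp only [add_mulVec, smul_mulVec, fromBlocks_mulVec, Pi.add_apply, Pi.smul_apply,
          mulVec_diagonal, Sum.elim_inr, smul_eq_mul, z] at this
        rw [g]
        linear_combination this
      have yi : ∀ i, y i = 1 / 2 * (x (Sum.inl i) + x (Sum.inr i)) := fun i => rfl
      have hl : l.re ≤ 0 ∧ ‖l‖ ≤ 3 * K := by
        by_cases h0 : y = 0
        · have : l = 0 := by
            by_contra hl
            refine hx0 (funext fun j => ?_)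
            have key : ∀ i, x (Sum.inl i) = 0 ∧ x (Sum.inr i) = 0 := fun i => by
              have a1 := p1 i
              have a2 := p2 i
              have a3 := yi i
              rw [h0] at a1 a2 a3
              simp only [mulVec_zero, Pi.zero_apply, add_zero] at a1 a2 a3
              have a4 : x (Sum.inr i) = -x (Sum.inl i) := by linear_combination -2 * a3
              have a5 : x (Sum.inl i) = 0 := by
                apply mul_left_cancel₀ hl
                rw [a4] at a2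
                linear_combination (a2 - a1) / 2
              exact ⟨a5, by rw [a4, a5, neg_zero]⟩
            rcases j with i | i
            · exact (key i).1
            · exact (key i).2
          rw [this]
          exact ⟨le_rfl, by rw [norm_zero]; positivity⟩
        · refine h2 l y h0 fun i => ?_
          rw [← hs, yi]
          linear_combination (l + s i) / 2 * p1 i + (l - s i) / 2 * p2 i
      have := pow_le_pow_left₀ (norm_nonneg _) hl.2 2
      rw [← normSq_eq_norm_sq, normSq_apply] at this ⊢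
      simp only [add_re, add_im, ofReal_re, ofReal_im, zero_add]
      nlinarith [mul_nonneg hK.le (neg_nonneg.2 hl.1)]
  have e5 := (abs_le.1 (abs_re_le_norm
    (trace ((diagonal z + (1 / 2 : ℂ) • fromBlocks G G G G) ^ (2 * k)) -
      trace (diagonal z ^ (2 * k))))).1
  have e6 := re_le_norm (trace ((diagonal z + (1 / 2 : ℂ) • fromBlocks G G G G) ^ (2 * k)))
  rw [sub_re] at e5
  rw [Fintype.card_sum, Nat.cast_add] at e3 e4
  have e7 : (10 * K) ^ (2 * k) ≤ 12 * Fintype.card κ * Q ^ k := by linarith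
  have e8 : (10 * K) ^ (2 * k) = (10 / 9) ^ k * Q ^ k := by
    rw [pow_mul, ← mul_pow, hQ]; congr 1; ring
  rw [e8] at e7
  exact le_of_mul_le_mul_right e7 (by positivity)

theorem pencil_core {T G : Matrix κ κ ℂ} (hT : T.IsHermitian) {b K : ℝ} (hb : 0 ≤ b) (hK : 0 < K)
    (hG : G * Gᴴ = ((b : ℂ) ^ 2) • 1)
    (h1 : ∀ (t : ℝ) (x : κ → ℂ), x ≠ 0 → T *ᵥ x = (t : ℂ) • x → -(9 * K ^ 2) ≤ t)
    (h3 : ∃ i, K ^ 2 ≤ (T i i).re)
    (h2 : ∀ (l : ℂ) (x : κ → ℂ), x ≠ 0 → T *ᵥ x + l • G *ᵥ x = (l ^ 2) • x →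
      l.re ≤ 0 ∧ ‖l‖ ≤ 3 * K)
    {m : ℕ} (hc : Fintype.card κ ≤ 2 ^ 2 ^ (m + 1)) (hN : 3 * (2 ^ (m + 1) : ℕ) * b ≤ 5 * K) :
    (10 / 9 : ℝ) ^ 2 ^ m ≤ 12 * Fintype.card κ := by
  obtain ⟨U, t, u1, u2, e⟩ := herm_diag hT
  have ne : ∀ y : κ → ℂ, y ≠ 0 → U *ᵥ y ≠ 0 := fun y hy h0 => hy (by
    rw [← one_mulVec y, ← u2, ← mulVec_mulVec, h0, mulVec_zero])
  have TU : ∀ y : κ → ℂ, T *ᵥ (U *ᵥ y) = U *ᵥ fun i => t i * y i := fun y => by
    rw [e, mulVec_mulVec, Matrix.mul_assoc, u2, Matrix.mul_one, ← mulVec_mulVec]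
    congr 1
    funext i
    rw [mulVec_diagonal]
  refine diag_core t (G := Uᴴ * G * U) hb hK ?_ (fun i => ?_) ?_ (fun l y hy h => ?_) hc hN
  · rw [conjTranspose_mul, conjTranspose_mul, conjTranspose_conjTranspose, Matrix.mul_assoc,
      ← Matrix.mul_assoc U, u1, Matrix.one_mul, Matrix.mul_assoc, ← Matrix.mul_assoc G, hG,
      Matrix.smul_mul, Matrix.mul_smul, Matrix.one_mul, u2]
  · refine h1 (t i) (U *ᵥ Pi.single i 1) (ne _ (by simp)) ?_
    rw [TU, ← mulVec_smul]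
    congr 1
    funext j
    by_cases h : j = i
    · simp [h]
    · simp [h]
  · obtain ⟨i, hi⟩ := h3
    obtain ⟨j, -, hj⟩ := exists_max_image univ t ⟨i, mem_univ i⟩
    refine ⟨j, hi.trans ?_⟩
    have a1 : (T i i).re = ∑ r, normSq (U i r) * t r := by
      rw [e, mul_apply, re_sum]
      refine sum_congr rfl fun r _ => ?_
      rw [mul_diagonal, conjTranspose_apply, star_def, mul_right_comm, mul_conj, ← ofReal_mul,
        ofReal_re]
    have a2 : ∑ r, normSq (U i r) = 1 := by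
      have := congrArg re (congrFun (congrFun u1 i) i)
      rw [mul_apply, re_sum, one_apply_eq, one_re] at this
      rw [← this]
      refine sum_congr rfl fun r _ => ?_
      rw [conjTranspose_apply, star_def, mul_conj, ofReal_re]
    rw [a1, ← one_mul (t j), ← a2, sum_mul]
    exact sum_le_sum fun r _ => mul_le_mul_of_nonneg_left (hj r (mem_univ r)) (normSq_nonneg _)
  · refine h2 l (U *ᵥ y) (ne y hy) ?_
    have a1 : G *ᵥ (U *ᵥ y) = U *ᵥ ((Uᴴ * G * U) *ᵥ y) := by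
      rw [mulVec_mulVec, mulVec_mulVec, ← Matrix.mul_assoc, ← Matrix.mul_assoc, u1, Matrix.one_mul]
    rw [TU, a1, ← mulVec_smul U l, ← mulVec_smul U (l ^ 2), ← mulVec_add]
    exact congrArg _ (funext h)

end Pool.Agent.MP_4948b4_mp

end

-- part MP_4948b4_mp.LogGeom
section

/-!
Planar packing and the virial identity: in a central configuration without a heavy body the tidal
sums `∑ j, m j / r i j ^ 3` are large.
-/

namespace Pool.Agent.MP_4948b4_mp

open Complex Finset ComplexConjugate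

variable {n : ℕ}

/-- inverse cube of the distance -/
noncomputable def wc (q : Fin n → ℂ) (i j : Fin n) : ℝ := (‖q j - q i‖ ^ 3)⁻¹

theorem wc_nonneg (q : Fin n → ℂ) (i j : Fin n) : 0 ≤ wc q i j := by unfold wc; positivity

theorem wc_symm (q : Fin n → ℂ) (i j : Fin n) : wc q j i = wc q i j := by
  rw [wc, wc, norm_sub_rev]

section
variable {m : Fin n → ℝ} {q : Fin n → ℂ} {μ Φ h : ℝ}

theorem cell_mass (hm : ∀ i, 0 < m i) (hμ : ∀ i, m i ≤ μ) (hμ0 : 0 < μ)
    (hq : Function.Injective q) (hΦ : ∀ i, ∑ j, m j * wc q i j ≤ Φ) (hh : 0 < h)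
    (e : Φ * (2 * h) ^ 3 = μ) (S : Finset (Fin n))
    (hS : ∀ i ∈ S, ∀ j ∈ S, ‖q j - q i‖ ≤ 2 * h) : ∑ j ∈ S, m j ≤ 2 * μ := by
  rcases S.eq_empty_or_nonempty with rfl | ⟨i, hi⟩
  · simp [hμ0.le]
  rw [← add_sum_erase S m hi]
  have h1 : ∑ j ∈ S.erase i, m j ≤ ∑ j ∈ S.erase i, m j * wc q i j * (2 * h) ^ 3 :=
    sum_le_sum fun j hj => by
      have hr : 0 < ‖q j - q i‖ := norm_pos_iff.2 (sub_ne_zero.2 (hq.ne (mem_erase.1 hj).1))
      have h2 := pow_le_pow_left₀ hr.le (hS i hi j (mem_erase.1 hj).2) 3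
      rw [mul_assoc]
      refine le_mul_of_one_le_right (hm j).le ?_
      rw [wc, inv_mul_eq_div, one_le_div (by positivity)]
      exact h2
  have h3 : ∑ j ∈ S.erase i, m j * wc q i j ≤ ∑ j, m j * wc q i j :=
    sum_le_sum_of_subset_of_nonneg (subset_univ _) fun j _ _ =>
      mul_nonneg (hm j).le (wc_nonneg q i j)
  rw [← sum_mul] at h1
  have h4 := mul_le_mul_of_nonneg_right (h3.trans (hΦ i)) (show 0 ≤ (2 * h) ^ 3 by positivity)
  linarith [hμ i]

theorem disc_mass (hm : ∀ i, 0 < m i) (hμ : ∀ i, m i ≤ μ) (hμ0 : 0 < μ)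
    (hq : Function.Injective q) (hΦ : ∀ i, ∑ j, m j * wc q i j ≤ Φ) (hh : 0 < h)
    (e : Φ * (2 * h) ^ 3 = μ) (x : ℂ) {k : ℕ} (hk : 1 ≤ k) :
    ∑ j with ‖q j - x‖ ≤ k * h, m j ≤ 18 * μ * k ^ 2 := by
  let f : Fin n → ℤ × ℤ := fun j => (⌊(q j - x).re / h⌋, ⌊(q j - x).im / h⌋)
  have fl : ∀ t : ℝ, |t| ≤ k * h → ⌊t / h⌋ ∈ Icc (-(k : ℤ)) k := fun t ht => by
    obtain ⟨h1, h2⟩ := abs_le.1 ht
    rw [mem_Icc]
    constructor
    · rw [Int.le_floor, le_div_iff₀ hh]
      push_cast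
      linarith
    · have h3 : t / h ≤ k := by rw [div_le_iff₀ hh]; exact h2
      exact_mod_cast (Int.floor_le _).trans h3
  rw [← sum_fiberwise_of_maps_to (g := f) (t := Icc (-(k : ℤ)) k ×ˢ Icc (-(k : ℤ)) k) fun j hj => by
    have := (mem_filter.1 hj).2
    exact mem_product.2 ⟨fl _ ((abs_re_le_norm _).trans this), fl _ ((abs_im_le_norm _).trans this)⟩]
  refine (sum_le_card_nsmul _ _ (2 * μ) fun c _ => ?_).trans ?_
  · refine cell_mass hm hμ hμ0 hq hΦ hh e _ fun i hi j hj => ?_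
    have h0 : f j = f i := (mem_filter.1 hj).2.trans (mem_filter.1 hi).2.symm
    have cl : ∀ s t : ℝ, ⌊s / h⌋ = ⌊t / h⌋ → |s - t| ≤ h := fun s t hst => by
      have := Int.abs_sub_lt_one_of_floor_eq_floor hst
      rw [← sub_div, abs_div, abs_of_pos hh, div_lt_one hh] at this
      exact this.le
    have h1 := cl _ _ (congrArg Prod.fst h0)
    have h2 := cl _ _ (congrArg Prod.snd h0)
    rw [← sub_re, sub_sub_sub_cancel_right] at h1
    rw [← sub_im, sub_sub_sub_cancel_right] at h2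
    linarith [norm_le_abs_re_add_abs_im (q j - q i)]
  · have hc : (Icc (-(k : ℤ)) k).card = 2 * k + 1 := by
      rw [Int.card_Icc]; omega
    have hk' : (1 : ℝ) ≤ k := by exact_mod_cast hk
    rw [card_product, hc, nsmul_eq_mul]
    push_cast
    have : (2 * (k : ℝ) + 1) * (2 * k + 1) ≤ 9 * k ^ 2 := by nlinarith
    nlinarith

theorem pot_tail (hm : ∀ i, 0 < m i) (hμ : ∀ i, m i ≤ μ) (hμ0 : 0 < μ)
    (hq : Function.Injective q) (hΦ : ∀ i, ∑ j, m j * wc q i j ≤ Φ) (hh : 0 < h)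
    (e : Φ * (2 * h) ^ 3 = μ) (i : Fin n) {k : ℕ} (hk : 1 ≤ k) :
    ∑ j, m j * max (‖q j - q i‖⁻¹ - (k * h)⁻¹) 0 ≤ 36 * μ * k / h := by
  induction k, hk using Nat.le_induction with
  | base =>
    have h1 : ∑ j, m j * max (‖q j - q i‖⁻¹ - ((1 : ℕ) * h)⁻¹) 0 ≤
        ∑ j, m j * wc q i j * h ^ 2 := sum_le_sum fun j _ => by
      rw [mul_assoc]
      refine mul_le_mul_of_nonneg_left (max_le ?_ (mul_nonneg (wc_nonneg _ _ _) (sq_nonneg _)))
        (hm j).le
      rw [Nat.cast_one, one_mul, wc]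
      generalize hr : ‖q j - q i‖ = r
      have hr0 : 0 ≤ r := hr ▸ norm_nonneg _
      rcases hr0.eq_or_lt with rfl | hr0
      · simp [hh.le]
      rcases le_total r h with h2 | h2
      · have h3 : r⁻¹ ≤ (r ^ 3)⁻¹ * h ^ 2 := by
          rw [inv_mul_eq_div, le_div_iff₀ (by positivity),
            show r⁻¹ * r ^ 3 = r ^ 2 by field_simp]
          exact pow_le_pow_left₀ hr0.le h2 2
        have : 0 < h⁻¹ := by positivity
        linarith
      · have h3 : r⁻¹ ≤ h⁻¹ := inv_anti₀ hh h2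
        have : 0 < (r ^ 3)⁻¹ * h ^ 2 := by positivity
        linarith
    rw [← sum_mul] at h1
    refine h1.trans ((mul_le_mul_of_nonneg_right (hΦ i) (sq_nonneg h)).trans ?_)
    rw [le_div_iff₀ hh, Nat.cast_one]
    nlinarith
  | succ k hk ih =>
    have hk' : (1 : ℝ) ≤ k := by exact_mod_cast hk
    have d := disc_mass hm hμ hμ0 hq hΦ hh e (q i) (k := k + 1) (by omega)
    rw [sum_filter] at d
    set δ : ℝ := (k * h)⁻¹ - ((k + 1 : ℕ) * h)⁻¹ with hδ
    have hδ' : δ = (k * (k + 1) * h)⁻¹ := by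
      rw [hδ]; push_cast; field_simp; ring
    have hδ0 : 0 ≤ δ := by rw [hδ']; positivity
    have h1 : ∑ j, m j * max (‖q j - q i‖⁻¹ - ((k + 1 : ℕ) * h)⁻¹) 0 ≤
        ∑ j, (m j * max (‖q j - q i‖⁻¹ - (k * h)⁻¹) 0 +
          (if ‖q j - q i‖ ≤ (k + 1 : ℕ) * h then m j else 0) * δ) := sum_le_sum fun j _ => by
      split_ifs with h2
      · rw [← mul_add]
        refine mul_le_mul_of_nonneg_left (max_le ?_ (add_nonneg (le_max_right _ _) hδ0)) (hm j).le
        linarith [le_max_left (‖q j - q i‖⁻¹ - (k * h)⁻¹) 0]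
      · rw [zero_mul, add_zero]
        refine mul_le_mul_of_nonneg_left (max_le ?_ (le_max_right _ _)) (hm j).le
        have h3 := inv_anti₀ (by positivity) (not_le.1 h2).le
        linarith [le_max_right (‖q j - q i‖⁻¹ - (k * h)⁻¹) 0]
    rw [sum_add_distrib, ← sum_mul] at h1
    have h2 : 18 * μ * ((k + 1 : ℕ) : ℝ) ^ 2 * δ ≤ 36 * μ / h := by
      rw [hδ', ← div_eq_mul_inv, div_le_div_iff₀ (by positivity) hh]
      push_cast
      have : 0 ≤ μ * h * (k + 1) * (k - 1) := by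
        have : (0 : ℝ) ≤ k - 1 := by linarith
        positivity
      nlinarith
    have h3 := mul_le_mul_of_nonneg_right d hδ0
    have h4 : 36 * μ * ((k + 1 : ℕ) : ℝ) / h = 36 * μ * k / h + 36 * μ / h := by
      push_cast; ring
    linarith

theorem virial {ω : ℝ}
    (hc : ∀ i, (ω : ℂ) ^ 2 * q i + ∑ j, ((m j * wc q i j : ℝ) : ℂ) * (q j - q i) = 0) :
    2 * (ω ^ 2 * ∑ i, m i * ‖q i‖ ^ 2) = ∑ i, m i * ∑ j, m j * ‖q j - q i‖⁻¹ := by
  let f : Fin n → Fin n → ℝ := fun i j => m i * (m j * wc q i j * (conj (q i) * (q j - q i)).re)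
  have h1 : ∀ i, ω ^ 2 * (m i * ‖q i‖ ^ 2) + ∑ j, f i j = 0 := fun i => by
    have := congrArg (fun t => m i * (conj (q i) * t).re) (hc i)
    simp only [mul_add, mul_sum, add_re, re_sum, mul_zero, zero_re] at this
    rw [← this]
    congr 1
    · rw [mul_left_comm (conj (q i)), conj_mul', ← ofReal_pow, ← ofReal_pow, ← ofReal_mul,
        ofReal_re]
      ring
    · refine sum_congr rfl fun j _ => ?_
      rw [mul_left_comm (conj (q i)), re_ofReal_mul]
  have h2 : ∑ i, ∑ j, f i j + ∑ i, ∑ j, f j i = -∑ i, m i * ∑ j, m j * ‖q j - q i‖⁻¹ := by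
    rw [← sum_add_distrib, ← sum_neg_distrib]
    refine sum_congr rfl fun i _ => ?_
    rw [← sum_add_distrib, mul_sum, ← sum_neg_distrib]
    refine sum_congr rfl fun j _ => ?_
    have e1 : wc q i j * ‖q j - q i‖ ^ 2 = ‖q j - q i‖⁻¹ := by
      rw [wc]
      by_cases h0 : ‖q j - q i‖ = 0
      · simp [h0]
      · field_simp
    have e2 : ‖q j - q i‖ ^ 2 =
        -((conj (q i) * (q j - q i)).re + (conj (q j) * (q i - q j)).re) := by
      rw [← normSq_eq_norm_sq, normSq_apply]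
      simp
      ring
    simp only [f]
    rw [← e1, e2, wc_symm q i j]
    ring
  rw [sum_comm (f := fun i j => f j i)] at h2
  have h3 := sum_congr (s₁ := univ) rfl fun i _ => h1 i
  rw [sum_add_distrib, ← mul_sum, sum_const_zero] at h3
  linarith

theorem geom_bound {ω : ℝ} (hm : ∀ i, 0 < m i) (hμ : ∀ i, m i ≤ μ) (hμ0 : 0 < μ) (hΦ0 : 0 < Φ)
    (hq : Function.Injective q) (hΦ : ∀ i, ∑ j, m j * wc q i j ≤ Φ) (hM : 36 * μ ≤ ∑ i, m i)
    (hc : ∀ i, (ω : ℂ) ^ 2 * q i + ∑ j, ((m j * wc q i j : ℝ) : ℂ) * (q j - q i) = 0) :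
    ω ^ 4 * ∑ i, m i ≤ 144 * 1440 ^ 2 * Φ ^ 2 * μ := by
  obtain ⟨ρ, hρ, hρ3⟩ : ∃ ρ : ℝ, 0 < ρ ∧ ρ ^ 3 = μ / Φ :=
    ⟨(μ / Φ) ^ ((3 : ℕ) : ℝ)⁻¹, by positivity,
      Real.rpow_inv_natCast_pow (by positivity) (by norm_num)⟩
  obtain ⟨h, rfl⟩ : ∃ h, ρ = 2 * h := ⟨ρ / 2, by ring⟩
  have hh : 0 < h := by linarith
  have e : Φ * (2 * h) ^ 3 = μ := by rw [hρ3]; field_simp
  set M := ∑ i, m i with hMd
  have hM0 : 0 < M := by linarith
  obtain ⟨k, hk, k1, k2⟩ : ∃ k : ℕ, 1 ≤ k ∧ 36 * μ * k ^ 2 ≤ M ∧ M ≤ 144 * μ * k ^ 2 := by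
    have x1 : 1 ≤ M / (36 * μ) := by rw [one_le_div (by positivity)]; exact hM
    have x2 : 1 ≤ Nat.sqrt ⌊M / (36 * μ)⌋₊ := Nat.sqrt_pos.2 (Nat.floor_pos.2 x1)
    refine ⟨_, x2, ?_, ?_⟩
    · have h1 : ((Nat.sqrt ⌊M / (36 * μ)⌋₊ : ℕ) : ℝ) ^ 2 ≤ ⌊M / (36 * μ)⌋₊ := by
        exact_mod_cast Nat.sqrt_le' _
      have h2 := h1.trans (Nat.floor_le (by positivity))
      rw [le_div_iff₀ (by positivity)] at h2
      linarith
    · have h1 : (⌊M / (36 * μ)⌋₊ : ℝ) + 1 ≤ ((Nat.sqrt ⌊M / (36 * μ)⌋₊ : ℕ) + 1) ^ 2 := by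
        exact_mod_cast Nat.lt_succ_sqrt' _
      have h2 := (Nat.lt_floor_add_one (M / (36 * μ))).le.trans h1
      have h3 : (1 : ℝ) ≤ (Nat.sqrt ⌊M / (36 * μ)⌋₊ : ℕ) := by exact_mod_cast x2
      generalize ((Nat.sqrt ⌊M / (36 * μ)⌋₊ : ℕ) : ℝ) = s at *
      rw [div_le_iff₀ (by positivity)] at h2
      have : (s + 1) ^ 2 ≤ 4 * s ^ 2 := by nlinarith
      nlinarith
  have hk' : (1 : ℝ) ≤ k := by exact_mod_cast hk
  have u : ∀ i, ∑ j, m j * ‖q j - q i‖⁻¹ ≤ 180 * μ * k / h := fun i => by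
    have h1 := pot_tail hm hμ hμ0 hq hΦ hh e i hk
    have h2 : ∑ j, m j * ‖q j - q i‖⁻¹ ≤
        ∑ j, (m j * max (‖q j - q i‖⁻¹ - (k * h)⁻¹) 0 + m j * (k * h)⁻¹) := sum_le_sum fun j _ => by
      rw [← mul_add]
      refine mul_le_mul_of_nonneg_left ?_ (hm j).le
      linarith [le_max_left (‖q j - q i‖⁻¹ - (k * h)⁻¹) 0]
    rw [sum_add_distrib, ← sum_mul, ← hMd] at h2
    have h3 : M * (k * h)⁻¹ ≤ 144 * μ * k / h := by
      rw [← div_eq_mul_inv, div_le_div_iff₀ (by positivity) hh]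
      nlinarith
    have h4 : 180 * μ * k / h = 36 * μ * k / h + 144 * μ * k / h := by ring
    linarith
  have v := virial hc
  have u2 : ∑ i, m i * ∑ j, m j * ‖q j - q i‖⁻¹ ≤ M * (180 * μ * k / h) := by
    rw [hMd, sum_mul]
    exact sum_le_sum fun i _ => mul_le_mul_of_nonneg_left (u i) (hm i).le
  have d := disc_mass hm hμ hμ0 hq hΦ hh e 0 hk
  rw [sum_filter] at d
  have i1 : ∑ i, m i * (k * h) ^ 2 ≤
      ∑ i, (m i * ‖q i‖ ^ 2 + (if ‖q i - 0‖ ≤ k * h then m i else 0) * (k * h) ^ 2) :=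
    sum_le_sum fun i _ => by
      split_ifs with h2
      · have := mul_nonneg (hm i).le (sq_nonneg ‖q i‖)
        linarith
      · rw [sub_zero, not_le] at h2
        rw [zero_mul, add_zero]
        exact mul_le_mul_of_nonneg_left (pow_le_pow_left₀ (by positivity) h2.le 2) (hm i).le
  rw [sum_add_distrib, ← sum_mul, ← sum_mul, ← hMd] at i1
  have i2 := mul_le_mul_of_nonneg_right d (sq_nonneg (k * h))
  have i3 := mul_le_mul_of_nonneg_right k1 (sq_nonneg (k * h))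
  have i4 : M * (k * h) ^ 2 ≤ 2 * ∑ i, m i * ‖q i‖ ^ 2 := by linarith
  have i5 := mul_le_mul_of_nonneg_left i4 (sq_nonneg ω)
  have i6 : M * (ω ^ 2 * (k * h) ^ 2) ≤ M * (180 * μ * k / h) := by linarith
  have i7 := le_of_mul_le_mul_left i6 hM0
  rw [le_div_iff₀ hh, ← e] at i7
  have i8 : ω ^ 2 * k ≤ 1440 * Φ := by
    refine le_of_mul_le_mul_right (a := k * h ^ 3) ?_ (by positivity)
    linarith
  have i9 := pow_le_pow_left₀ (by positivity) i8 2
  have i10 := mul_le_mul_of_nonneg_left k2 (show 0 ≤ ω ^ 4 by positivity)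
  have i11 := mul_le_mul_of_nonneg_left i9 hμ0.le
  linarith
end

end Pool.Agent.MP_4948b4_mp

end

-- part MP_4948b4_mp.LogTangent
section

/-!
The linearisation at a relative equilibrium for arbitrary masses: complex eigenvectors give real
invariant planes, and these are tangent to the level set of the first integrals.
-/

namespace Pool.Agent.MP_4948b4_mp

open Complex Finset ComplexConjugate

variable {n : ℕ}

/-- square of the unit vector from `q i` to `q j` -/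
noncomputable def ec (q : Fin n → ℂ) (i j : Fin n) : ℂ := ((q j - q i) / ‖q j - q i‖) ^ 2

theorem ec_symm (q : Fin n → ℂ) (i j : Fin n) : ec q j i = ec q i j := by
  rw [ec, ec, norm_sub_rev]; ring

theorem norm_ec (q : Fin n → ℂ) (i j : Fin n) : ‖ec q i j‖ ≤ 1 := by
  rw [ec, norm_pow, norm_div, norm_real, norm_norm]
  exact pow_le_one₀ (by positivity) (div_self_le_one _)

theorem ec_mul (q : Fin n → ℂ) (i j : Fin n) : conj (q j - q i) * ec q i j = q j - q i := by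
  by_cases h : q j - q i = 0
  · simp [h]
  · have h1 : (‖q j - q i‖ : ℂ) ≠ 0 := by exact_mod_cast norm_ne_zero_iff.2 h
    have h2 := mul_conj' (q j - q i)
    rw [ec]
    field_simp
    linear_combination h2

/-- the position part of the linearised force, with direction factors `e` -/
noncomputable def opA (m : Fin n → ℝ) (ω : ℝ) (q : Fin n → ℂ) (e : Fin n → Fin n → ℂ)
    (a b : Fin n → ℂ) (i : Fin n) : ℂ :=
  (ω : ℂ) ^ 2 * a i + ∑ j, ((m j * wc q i j : ℝ) : ℂ) *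
    (1 / 2 * (a i - a j) + 3 / 2 * e i j * (b i - b j))

variable {m : Fin n → ℝ} {ω : ℝ} {q : Fin n → ℂ}

theorem fderiv_opA (m : Fin n → ℝ) (ω : ℝ) (hq : Function.Injective q)
    (v : (Fin n → ℂ) × (Fin n → ℂ)) :
    fderiv ℝ (rotField m ω) (q, 0) v =
      (v.2, fun i => opA m ω q (ec q) v.1 (fun j => conj (v.1 j)) i - 2 * ω * I * v.2 i) := by
  rw [fderiv_rotField m ω hq]
  refine Prod.ext rfl (funext fun i => ?_)
  simp only [opA]
  rw [← add_sum_erase univ _ (mem_univ i), add_sub_right_comm]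
  congr 1
  rw [sub_self, sub_self, mul_zero, mul_zero, add_zero, mul_zero, zero_add]
  refine sum_congr rfl fun j _ => ?_
  rw [wc, ec, map_sub]
  push_cast
  ring

theorem cc_of_zero (h : rotField m ω (q, 0) = 0) (i : Fin n) :
    (ω : ℂ) ^ 2 * q i + ∑ j, ((m j * wc q i j : ℝ) : ℂ) * (q j - q i) = 0 := by
  have h1 := congrFun (congrArg Prod.snd h) i
  simp only [rotField, Pi.zero_apply, mul_zero, sub_zero, Prod.snd_zero] at h1
  rw [← h1, ← add_sum_erase univ _ (mem_univ i), sub_self, mul_zero, zero_add]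
  congr 1
  refine sum_congr rfl fun j _ => ?_
  rw [wc]
  push_cast
  ring

theorem sum_antisymm {E : Type} [Field E] [CharZero E] (f : Fin n → Fin n → E)
    (h : ∀ i j, f i j + f j i = 0) : ∑ i, ∑ j, f i j = 0 := by
  have h1 : ∑ i, ∑ j, f i j + ∑ i, ∑ j, f j i = 0 := by
    rw [← sum_add_distrib]
    refine sum_eq_zero fun i _ => ?_
    rw [← sum_add_distrib]
    exact sum_eq_zero fun j _ => h i j
  rw [sum_comm (f := fun i j => f j i)] at h1
  linear_combination h1 / 2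

theorem sum_opA (v : Fin n → ℂ) :
    ∑ i, (m i : ℂ) * opA m ω q (ec q) v (fun j => conj (v j)) i = ω ^ 2 * ∑ i, (m i : ℂ) * v i := by
  have := sum_antisymm (fun i j => (m i : ℂ) * (((m j * wc q i j : ℝ) : ℂ) *
    (1 / 2 * (v i - v j) + 3 / 2 * ec q i j * (conj (v i) - conj (v j))))) fun i j => by
      rw [wc_symm q i j, ec_symm q i j]
      push_cast
      ring
  simp only [opA, mul_add (m _ : ℂ), sum_add_distrib, mul_sum]
  rw [this, add_zero]
  exact sum_congr rfl fun i _ => by ring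

theorem ang_opA (h : rotField m ω (q, 0) = 0) (v : Fin n → ℂ) :
    ∑ i, m i * (conj (q i) * opA m ω q (ec q) v (fun j => conj (v j)) i).im = 0 := by
  rw [← sum_antisymm (fun i j => m i * (m j * wc q i j * (-(conj (q j - q i) * v i) + conj (q i) *
    (1 / 2 * (v i - v j) + 3 / 2 * ec q i j * (conj (v i) - conj (v j)))).im)) fun i j => ?_]
  · refine sum_congr rfl fun i _ => ?_
    have h1 := congrArg conj (cc_of_zero h i)
    simp only [map_add, map_mul, map_pow, map_sum, conj_ofReal, map_zero] at h1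
    have h2 : conj (q i) * opA m ω q (ec q) v (fun j => conj (v j)) i =
        ∑ j, ((m j * wc q i j : ℝ) : ℂ) * (-(conj (q j - q i) * v i) + conj (q i) *
          (1 / 2 * (v i - v j) + 3 / 2 * ec q i j * (conj (v i) - conj (v j)))) := by
      rw [opA, mul_add, ← mul_assoc, mul_comm (conj (q i)), eq_neg_of_add_eq_zero_left h1,
        neg_mul, sum_mul, mul_sum, ← sum_neg_distrib, ← sum_add_distrib]
      exact sum_congr rfl fun j _ => by ring
    rw [h2, im_sum, mul_sum]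
    exact sum_congr rfl fun j _ => by rw [im_ofReal_mul]
  · rw [wc_symm q i j, ec_symm q i j]
    have e := ec_mul q i j
    have e2 : (-(conj (q j - q i) * v i) + conj (q i) *
        (1 / 2 * (v i - v j) + 3 / 2 * ec q i j * (conj (v i) - conj (v j)))) +
        (-(conj (q i - q j) * v j) + conj (q j) *
        (1 / 2 * (v j - v i) + 3 / 2 * ec q i j * (conj (v j) - conj (v i)))) =
        3 / 2 * (conj (q j - q i) * (v j - v i) + conj (conj (q j - q i) * (v j - v i))) := by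
      simp only [map_sub, map_mul, conj_conj] at e ⊢
      linear_combination (3 / 2 * (conj (v j) - conj (v i))) * e
    have e3 := congrArg im e2
    rw [add_conj, add_im] at e3
    have e4 : ((3 / 2 : ℂ) * ((2 * (conj (q j - q i) * (v j - v i)).re : ℝ) : ℂ)).im = 0 := by
      rw [mul_comm, im_ofReal_mul]; simp
    rw [e4] at e3
    linear_combination (m i * m j * wc q i j) * e3

theorem tangent_auto (hq : Function.Injective q) (h : rotField m ω (q, 0) = 0) {α β : ℝ}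
    (hα : α ≠ 0) {u w : (Fin n → ℂ) × (Fin n → ℂ)}
    (hu : fderiv ℝ (rotField m ω) (q, 0) u = α • u - β • w)
    (hw : fderiv ℝ (rotField m ω) (q, 0) w = β • u + α • w) :
    Tangent m ω q u ∧ Tangent m ω q w := by
  rw [fderiv_opA m ω hq] at hu hw
  have u1 : ∀ i, u.2 i = α * u.1 i - β * w.1 i := fun i => by
    simpa using congrFun (congrArg Prod.fst hu) i
  have w1 : ∀ i, w.2 i = β * u.1 i + α * w.1 i := fun i => by
    simpa using congrFun (congrArg Prod.fst hw) i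
  have u2 : ∀ i, opA m ω q (ec q) u.1 (fun j => conj (u.1 j)) i =
      2 * ω * I * u.2 i + (α * u.2 i - β * w.2 i) := fun i => by
    have := congrFun (congrArg Prod.snd hu) i
    simp only [Prod.snd_sub, Prod.smul_snd, Pi.sub_apply, Pi.smul_apply, real_smul] at this
    linear_combination this
  have w2 : ∀ i, opA m ω q (ec q) w.1 (fun j => conj (w.1 j)) i =
      2 * ω * I * w.2 i + (β * u.2 i + α * w.2 i) := fun i => by
    have := congrFun (congrArg Prod.snd hw) i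
    simp only [Prod.snd_add, Prod.smul_snd, Pi.add_apply, Pi.smul_apply, real_smul] at this
    linear_combination this
  have solve : ∀ x y : ℂ, (α + ω * I) * x - β * y = 0 → β * x + (α + ω * I) * y = 0 →
      x = 0 ∧ y = 0 := fun x y h1 h2 => by
    have n1 : (α + ω * I + β * I : ℂ) ≠ 0 := fun h0 => hα (by simpa using congrArg re h0)
    have n2 : (α + ω * I - β * I : ℂ) ≠ 0 := fun h0 => hα (by simpa using congrArg re h0)
    have a1 : x + I * y = 0 := by
      apply mul_left_cancel₀ n1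
      linear_combination h1 + I * h2 + β * y * I_mul_I
    have a2 : x - I * y = 0 := by
      apply mul_left_cancel₀ n2
      linear_combination h1 - I * h2 + β * y * I_mul_I
    exact ⟨by linear_combination (a1 + a2) / 2,
      by linear_combination -I * (a1 - a2) / 2 + y * I_mul_I⟩
  have lin : ∀ (c d : ℂ) (x y : Fin n → ℂ), ∑ i, (m i : ℂ) * (c * x i + d * y i) =
      c * ∑ i, (m i : ℂ) * x i + d * ∑ i, (m i : ℂ) * y i := fun c d x y => by
    rw [mul_sum, mul_sum, ← sum_add_distrib]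
    exact sum_congr rfl fun i _ => by ring
  have s1 : ∑ i, (m i : ℂ) * u.2 i = α * ∑ i, (m i : ℂ) * u.1 i - β * ∑ i, (m i : ℂ) * w.1 i := by
    rw [sub_eq_add_neg, ← neg_mul, ← lin]
    exact sum_congr rfl fun i _ => by rw [u1]; ring
  have s2 : ∑ i, (m i : ℂ) * w.2 i = β * ∑ i, (m i : ℂ) * u.1 i + α * ∑ i, (m i : ℂ) * w.1 i := by
    rw [← lin]
    exact sum_congr rfl fun i _ => by rw [w1]
  have s3 : (ω : ℂ) ^ 2 * ∑ i, (m i : ℂ) * u.1 i =
      (2 * ω * I + α) * ∑ i, (m i : ℂ) * u.2 i + -β * ∑ i, (m i : ℂ) * w.2 i := by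
    rw [← sum_opA (q := q), ← lin]
    exact sum_congr rfl fun i _ => by rw [u2]; ring
  have s4 : (ω : ℂ) ^ 2 * ∑ i, (m i : ℂ) * w.1 i =
      β * ∑ i, (m i : ℂ) * u.2 i + (2 * ω * I + α) * ∑ i, (m i : ℂ) * w.2 i := by
    rw [← sum_opA (q := q), ← lin]
    exact sum_congr rfl fun i _ => by rw [w2]; ring
  have t : ∀ v : (Fin n → ℂ) × (Fin n → ℂ), ∑ i, (m i : ℂ) * (v.2 i + ω * I * v.1 i) =
      ∑ i, (m i : ℂ) * v.2 i + ω * I * ∑ i, (m i : ℂ) * v.1 i := fun v => by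
    rw [mul_sum, ← sum_add_distrib]
    exact sum_congr rfl fun i _ => by ring
  obtain ⟨c1, c2⟩ := solve (∑ i, (m i : ℂ) * u.2 i + ω * I * ∑ i, (m i : ℂ) * u.1 i)
    (∑ i, (m i : ℂ) * w.2 i + ω * I * ∑ i, (m i : ℂ) * w.1 i)
    (by linear_combination -s3 - ω * I * s1 + ω ^ 2 * (∑ i, (m i : ℂ) * u.1 i) * I_mul_I)
    (by linear_combination -s4 - ω * I * s2 + ω ^ 2 * (∑ i, (m i : ℂ) * w.1 i) * I_mul_I)
  obtain ⟨d1, d2⟩ := solve (∑ i, (m i : ℂ) * u.1 i) (∑ i, (m i : ℂ) * w.1 i)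
    (by linear_combination c1 - s1) (by linear_combination c2 - s2)
  let J : (Fin n → ℂ) × (Fin n → ℂ) → ℝ := fun v =>
    ∑ i, m i * (2 * ω * (conj (q i) * v.1 i).re + (conj (q i) * v.2 i).im)
  have j1 : α * J u - β * J w = 0 := by
    rw [← ang_opA h u.1, mul_sum, mul_sum, ← sum_sub_distrib]
    refine sum_congr rfl fun i _ => ?_
    have a1 := congrArg (fun t => (conj (q i) * t).re) (u1 i)
    rw [u2]
    simp at a1 ⊢
    linear_combination (-2 * ω * m i) * a1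
  have j2 : β * J u + α * J w = 0 := by
    rw [← ang_opA h w.1, mul_sum, mul_sum, ← sum_add_distrib]
    refine sum_congr rfl fun i _ => ?_
    have a1 := congrArg (fun t => (conj (q i) * t).re) (w1 i)
    rw [w2]
    simp at a1 ⊢
    linear_combination (-2 * ω * m i) * a1
  have p : α ^ 2 + β ^ 2 ≠ 0 := by positivity
  have j3 : J u = 0 := by
    apply mul_left_cancel₀ p
    linear_combination α * j1 + β * j2
  have j4 : J w = 0 := by
    apply mul_left_cancel₀ p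
    linear_combination α * j2 - β * j1
  exact ⟨⟨d1, by rw [t, c1], by rw [fderiv_angMom]; exact j3⟩,
    ⟨d2, by rw [t, c2], by rw [fderiv_angMom]; exact j4⟩⟩

theorem unstable_of_eigen (hq : Function.Injective q) (h : rotField m ω (q, 0) = 0) {l : ℂ}
    (hl : 0 < l.re) {a b : Fin n → ℂ} (hab : ¬ (a = 0 ∧ b = 0))
    (x3 : ∀ i, opA m ω q (ec q) a b i = (l ^ 2 + 2 * ω * I * l) * a i)
    (x4 : ∀ i, opA m ω q (fun i j => conj (ec q i j)) b a i = (l ^ 2 - 2 * ω * I * l) * b i) :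
    ∃ (α β : ℝ) (u w : (Fin n → ℂ) × (Fin n → ℂ)), 0 < α ∧
      fderiv ℝ (rotField m ω) (q, 0) u = α • u - β • w ∧
      fderiv ℝ (rotField m ω) (q, 0) w = β • u + α • w ∧
      Tangent m ω q u ∧ Tangent m ω q w ∧
      ¬ (u ∈ Submodule.span ℝ {((fun i => Complex.I * q i), 0)} ∧
        w ∈ Submodule.span ℝ {((fun i => Complex.I * q i), 0)}) := by
  let r : ℂ → Fin n → ℂ := fun c i => c * a i + conj (c * b i)
  have key : ∀ c : ℂ, fderiv ℝ (rotField m ω) (q, 0) (r c, r (c * l)) =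
      (r (c * l), r (c * l * l)) := fun c => by
    rw [fderiv_opA m ω hq]
    refine Prod.ext rfl (funext fun i => ?_)
    have e : opA m ω q (ec q) (r c) (fun j => conj (r c j)) i =
        c * opA m ω q (ec q) a b i + conj (c * opA m ω q (fun i j => conj (ec q i j)) b a i) := by
      simp only [opA, r, map_add, map_mul, map_pow, map_sum, map_sub, map_div₀, map_one, map_ofNat,
        conj_ofReal, conj_conj, mul_add c, mul_sum]
      rw [add_add_add_comm, ← sum_add_distrib]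
      congr 1
      · ring
      · exact sum_congr rfl fun j _ => by ring
    simp only
    rw [e, x3, x4]
    simp only [r, map_mul, map_sub, map_pow, conj_I, conj_ofReal, map_ofNat]
    ring
  have lin1 : ∀ c : ℂ, r (c * l) = l.re • r c - l.im • r (c * -I) := fun c => by
    funext i
    have e := (re_add_im l).symm
    simp only [r, Pi.smul_apply, Pi.sub_apply, real_smul]
    generalize l.re = s at *
    generalize l.im = t at *
    subst e
    simp only [map_mul, map_add, map_neg, conj_ofReal, conj_I]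
    ring
  have lin2 : ∀ c : ℂ, r (c * -I * l) = l.im • r c + l.re • r (c * -I) := fun c => by
    have neg : r (c * -I * -I) = -r c := by
      have : c * -I * -I = -c := by linear_combination c * I_mul_I
      funext i
      rw [this]
      simp [r]
      ring
    rw [lin1, neg, smul_neg, sub_neg_eq_add, add_comm]
  have hu : fderiv ℝ (rotField m ω) (q, 0) (r 1, r (1 * l)) =
      l.re • (r 1, r (1 * l)) - l.im • (r (1 * -I), r (1 * -I * l)) := by
    rw [key]
    refine Prod.ext (lin1 1) ?_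
    have := lin1 (1 * l)
    rw [mul_right_comm 1 l (-I)] at this
    exact this
  have hw : fderiv ℝ (rotField m ω) (q, 0) (r (1 * -I), r (1 * -I * l)) =
      l.im • (r 1, r (1 * l)) + l.re • (r (1 * -I), r (1 * -I * l)) := by
    rw [key]
    refine Prod.ext (lin2 1) ?_
    have := lin2 (1 * l)
    rw [mul_right_comm 1 l (-I)] at this
    exact this
  obtain ⟨t1, t2⟩ := tangent_auto hq h hl.ne' hu hw
  refine ⟨l.re, l.im, _, _, hl, hu, hw, t1, t2, ?_⟩
  rintro ⟨h1, h2⟩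
  obtain ⟨s, hs⟩ := Submodule.mem_span_singleton.1 h1
  obtain ⟨t, ht⟩ := Submodule.mem_span_singleton.1 h2
  have l0 : l ≠ 0 := fun h0 => by simp [h0] at hl
  have z : ∀ i, a i = 0 ∧ b i = 0 := fun i => by
    have u1 := congrFun (congrArg Prod.snd hs) i
    have u2 := congrFun (congrArg Prod.snd ht) i
    simp only [Prod.smul_snd, smul_zero, Pi.zero_apply, r, one_mul, mul_assoc (-I),
      map_mul _ (-I), map_neg, conj_I, neg_neg] at u1 u2
    have v1 : l * a i = 0 := by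
      linear_combination -u1 / 2 - I * u2 / 2 + (l * a i - conj (l * b i)) / 2 * I_mul_I
    have v2 : conj (l * b i) = 0 := by linear_combination -u1 - v1
    exact ⟨(mul_eq_zero.1 v1).resolve_left l0,
      (mul_eq_zero.1 ((map_eq_zero _).1 v2)).resolve_left l0⟩
  exact hab ⟨funext fun i => (z i).1, funext fun i => (z i).2⟩

end Pool.Agent.MP_4948b4_mp

end

-- part MP_4948b4_mp.LogMain
section

/-!
Arbitrary masses: large tidal sums give instability; no heavy body gives large tidal sums.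
-/

namespace Pool.Agent.MP_4948b4_mp

open Matrix Complex Finset ComplexConjugate

variable {n : ℕ}

/-- mass-normalised weighted Laplacian -/
noncomputable def lapW (m : Fin n → ℝ) (k : Fin n → Fin n → ℂ) : Matrix (Fin n) (Fin n) ℂ :=
  diagonal (fun i => ∑ j, (m j : ℂ) * k i j) -
    of fun i j => ((√(m i) : ℝ) : ℂ) * ((√(m j) : ℝ) : ℂ) * k i j

variable {m : Fin n → ℝ} {ω : ℝ} {q : Fin n → ℂ}

theorem lapW_mulVec (hm : ∀ i, 0 < m i) (k : Fin n → Fin n → ℂ) (x : Fin n → ℂ) (i : Fin n) :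
    (lapW m k *ᵥ fun j => ((√(m j) : ℝ) : ℂ) * x j) i =
      ((√(m i) : ℝ) : ℂ) * ∑ j, (m j : ℂ) * k i j * (x i - x j) := by
  rw [lapW, sub_mulVec, Pi.sub_apply, mulVec_diagonal, sum_mul, mulVec, dotProduct, mul_sum,
    ← sum_sub_distrib]
  refine sum_congr rfl fun j _ => ?_
  have : ((√(m j) : ℝ) : ℂ) * ((√(m j) : ℝ) : ℂ) = m j := by
    rw [← ofReal_mul, Real.mul_self_sqrt (hm j).le]
  rw [of_apply]
  linear_combination (-((√(m i) : ℝ) : ℂ) * k i j * x j) * this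

theorem lapW_adj {k k' : Fin n → Fin n → ℂ} (h : ∀ i j, k j i = k i j)
    (h' : ∀ i j, k' i j = conj (k i j)) : (lapW m k)ᴴ = lapW m k' := by
  rw [lapW, lapW, conjTranspose_sub, diagonal_conjTranspose]
  congr 1
  · congr 1
    funext i
    simp [h']
  · ext i j
    rw [conjTranspose_apply, of_apply, of_apply, h', h i j, star_def, map_mul, map_mul, conj_ofReal,
      conj_ofReal]
    ring

/-- the Hermitian position block -/
noncomputable def Tm (m : Fin n → ℝ) (ω : ℝ) (q : Fin n → ℂ) :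
    Matrix (Fin n ⊕ Fin n) (Fin n ⊕ Fin n) ℂ :=
  fromBlocks (((ω : ℂ) ^ 2) • 1 + (1 / 2 : ℂ) • lapW m fun i j => wc q i j)
    ((3 / 2 : ℂ) • lapW m fun i j => wc q i j * ec q i j)
    ((3 / 2 : ℂ) • lapW m fun i j => wc q i j * conj (ec q i j))
    (((ω : ℂ) ^ 2) • 1 + (1 / 2 : ℂ) • lapW m fun i j => wc q i j)

theorem Tm_herm : (Tm m ω q).IsHermitian := by
  have h1 : (((ω : ℂ) ^ 2) • (1 : Matrix (Fin n) (Fin n) ℂ) +
      (1 / 2 : ℂ) • lapW m fun i j => wc q i j).IsHermitian := by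
    rw [IsHermitian, conjTranspose_add, conjTranspose_smul, conjTranspose_smul, conjTranspose_one,
      lapW_adj (k' := fun i j => wc q i j) (fun i j => by rw [wc_symm]) (fun i j => by simp)]
    simp
  refine IsHermitian.fromBlocks h1 ?_ h1
  rw [conjTranspose_smul, lapW_adj (k' := fun i j => wc q i j * conj (ec q i j))
    (fun i j => by rw [wc_symm, ec_symm]) (fun i j => by simp)]
  simp

theorem Tm_mulVec (hm : ∀ i, 0 < m i) (a b : Fin n → ℂ) (i : Fin n) :
    (Tm m ω q *ᵥ Sum.elim (fun j => ((√(m j) : ℝ) : ℂ) * a j)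
      (fun j => ((√(m j) : ℝ) : ℂ) * b j)) (Sum.inl i) =
        ((√(m i) : ℝ) : ℂ) * opA m ω q (ec q) a b i ∧
    (Tm m ω q *ᵥ Sum.elim (fun j => ((√(m j) : ℝ) : ℂ) * a j)
      (fun j => ((√(m j) : ℝ) : ℂ) * b j)) (Sum.inr i) =
        ((√(m i) : ℝ) : ℂ) * opA m ω q (fun i j => conj (ec q i j)) b a i := by
  have e : ∀ (e : Fin n → Fin n → ℂ) (a b : Fin n → ℂ), opA m ω q e a b i =
      (ω : ℂ) ^ 2 * a i + 1 / 2 * ∑ j, (m j : ℂ) * wc q i j * (a i - a j) +
        3 / 2 * ∑ j, (m j : ℂ) * (wc q i j * e i j) * (b i - b j) := fun e a b => by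
    rw [opA, add_assoc, mul_sum, mul_sum, ← sum_add_distrib]
    congr 1
    refine sum_congr rfl fun j _ => ?_
    push_cast
    ring
  simp only [Tm, fromBlocks_mulVec, Sum.elim_inl, Sum.elim_inr, Sum.elim_comp_inl,
    Sum.elim_comp_inr, add_mulVec, smul_mulVec, one_mulVec, Pi.add_apply, Pi.smul_apply,
    lapW_mulVec hm, smul_eq_mul, e]
  constructor <;> ring

theorem opA_norm (hm : ∀ i, 0 < m i) {Φ s : ℝ} (hΦ : ∀ i, ∑ j, m j * wc q i j ≤ Φ)
    {e : Fin n → Fin n → ℂ} (he : ∀ i j, ‖e i j‖ ≤ 1) {a b : Fin n → ℂ} (ha : ∀ j, ‖a j‖ ≤ s)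
    (hb : ∀ j, ‖b j‖ ≤ s) (i : Fin n) : ‖opA m ω q e a b i - (ω : ℂ) ^ 2 * a i‖ ≤ 4 * Φ * s := by
  have hs : 0 ≤ s := (norm_nonneg _).trans (ha i)
  rw [opA, add_sub_cancel_left]
  refine (norm_sum_le _ _).trans ?_
  refine (sum_le_sum (g := fun j => m j * wc q i j * (4 * s)) fun j _ => ?_).trans ?_
  · have w0 := mul_nonneg (hm j).le (wc_nonneg q i j)
    rw [norm_mul, norm_real, Real.norm_of_nonneg w0]
    refine mul_le_mul_of_nonneg_left ((norm_add_le _ _).trans ?_) w0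
    have h1 := norm_sub_le (a i) (a j)
    have h2 := norm_sub_le (b i) (b j)
    have h3 := mul_le_of_le_one_left (norm_nonneg (b i - b j)) (he i j)
    rw [norm_mul, mul_assoc, norm_mul, norm_mul]
    norm_num
    linarith [ha i, ha j, hb i, hb j]
  · rw [← sum_mul]
    have := mul_le_mul_of_nonneg_right (hΦ i) hs
    linarith

theorem sup_bound (hm : ∀ i, 0 < m i) {Φ : ℝ} (hΦ : ∀ i, ∑ j, m j * wc q i j ≤ Φ)
    {a b : Fin n → ℂ} (hab : ¬ (a = 0 ∧ b = 0)) {c d : ℂ}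
    (x3 : ∀ i, opA m ω q (ec q) a b i = c * a i)
    (x4 : ∀ i, opA m ω q (fun i j => conj (ec q i j)) b a i = d * b i) :
    ‖c - (ω : ℂ) ^ 2‖ ≤ 4 * Φ ∨ ‖d - (ω : ℂ) ^ 2‖ ≤ 4 * Φ := by
  rcases Nat.eq_zero_or_pos n with rfl | hn
  · exact absurd ⟨Subsingleton.elim _ _, Subsingleton.elim _ _⟩ hab
  obtain ⟨k, -, hk⟩ := exists_max_image univ (fun k => ‖Sum.elim a b k‖)
    ⟨Sum.inl ⟨0, hn⟩, mem_univ _⟩
  have ha : ∀ j, ‖a j‖ ≤ ‖Sum.elim a b k‖ := fun j => hk (Sum.inl j) (mem_univ _)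
  have hb : ∀ j, ‖b j‖ ≤ ‖Sum.elim a b k‖ := fun j => hk (Sum.inr j) (mem_univ _)
  have hs : 0 < ‖Sum.elim a b k‖ := by
    refine (norm_nonneg _).lt_of_ne fun h0 => hab ⟨funext fun j => ?_, funext fun j => ?_⟩
    · exact norm_le_zero_iff.1 ((ha j).trans h0.ge)
    · exact norm_le_zero_iff.1 ((hb j).trans h0.ge)
  rcases k with i | i
  · left
    have := opA_norm (ω := ω) hm hΦ (norm_ec q) ha hb i
    rw [x3, ← sub_mul, norm_mul] at this
    exact le_of_mul_le_mul_right this hs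
  · right
    have := opA_norm (ω := ω) hm hΦ (e := fun i j => conj (ec q i j))
      (fun i j => by rw [norm_conj]; exact norm_ec q i j) hb ha i
    rw [x4, ← sub_mul, norm_mul] at this
    exact le_of_mul_le_mul_right this hs

theorem split_vec (hm : ∀ i, 0 < m i) {x : Fin n ⊕ Fin n → ℂ} (hx : x ≠ 0) :
    ∃ a b : Fin n → ℂ, ¬ (a = 0 ∧ b = 0) ∧ x = Sum.elim (fun j => ((√(m j) : ℝ) : ℂ) * a j)
      (fun j => ((√(m j) : ℝ) : ℂ) * b j) := by
  have h0 : ∀ j, ((√(m j) : ℝ) : ℂ) ≠ 0 := fun j => by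
    exact_mod_cast (Real.sqrt_pos.2 (hm j)).ne'
  have e : x = Sum.elim (fun j => ((√(m j) : ℝ) : ℂ) * (x (Sum.inl j) / ((√(m j) : ℝ) : ℂ)))
      (fun j => ((√(m j) : ℝ) : ℂ) * (x (Sum.inr j) / ((√(m j) : ℝ) : ℂ))) := by
    funext k
    rcases k with j | j
    · rw [Sum.elim_inl, mul_div_cancel₀ _ (h0 j)]
    · rw [Sum.elim_inr, mul_div_cancel₀ _ (h0 j)]
  refine ⟨_, _, fun h => hx ?_, e⟩
  rw [e]
  funext k
  rcases k with j | j
  · rw [Sum.elim_inl, congrFun h.1 j]; simp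
  · rw [Sum.elim_inr, congrFun h.2 j]; simp

theorem exists_exponent (hn : 3 ≤ n) : ∃ k : ℕ, 24 * (n : ℝ) < (10 / 9 : ℝ) ^ 2 ^ k ∧
    2 * n ≤ 2 ^ 2 ^ (k + 1) ∧ ((2 ^ (k + 1) : ℕ) : ℝ) ≤ 224 * Real.log n := by
  set L := Nat.log 2 n with hL
  have h1 : n < 2 ^ (L + 1) := Nat.lt_pow_succ_log_self (by norm_num) n
  have h2 : 2 ^ L ≤ n := Nat.pow_log_le_self 2 (by omega)
  set k := Nat.log 2 (7 * (L + 6)) with hk
  have h3 : 7 * (L + 6) < 2 ^ (k + 1) := Nat.lt_pow_succ_log_self (by norm_num) _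
  have h4 : 2 ^ k ≤ 7 * (L + 6) := Nat.pow_log_le_self 2 (by omega)
  refine ⟨k + 1, ?_, ?_, ?_⟩
  · have a1 : ((10 / 9 : ℝ) ^ 7) ^ (L + 6) ≤ (10 / 9 : ℝ) ^ 2 ^ (k + 1) := by
      rw [← pow_mul]
      exact pow_le_pow_right₀ (by norm_num) h3.le
    have a2 : (2 : ℝ) ^ (L + 6) ≤ ((10 / 9 : ℝ) ^ 7) ^ (L + 6) :=
      pow_le_pow_left₀ (by norm_num) (by norm_num) _
    have a3 : (n : ℝ) < 2 ^ (L + 1) := by exact_mod_cast h1
    have a4 : (2 : ℝ) ^ (L + 6) = 32 * 2 ^ (L + 1) := by ring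
    have a5 : (0 : ℝ) ≤ n := Nat.cast_nonneg n
    linarith
  · have a1 : 2 ^ (L + 2) ≤ 2 ^ 2 ^ (k + 1 + 1) :=
      Nat.pow_le_pow_right (by norm_num) (by rw [pow_succ]; omega)
    rw [pow_succ] at a1
    omega
  · have hn' : (3 : ℝ) ≤ n := by exact_mod_cast hn
    have a1 : 1 ≤ Real.log n := by
      rw [Real.le_log_iff_exp_le (by linarith)]
      linarith [Real.exp_one_lt_d9]
    have a2 : L * Real.log 2 ≤ Real.log n := by
      rw [← Real.log_pow]
      exact Real.log_le_log (by positivity) (by exact_mod_cast h2)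
    have a3 := mul_le_mul_of_nonneg_left Real.log_two_gt_d9.le (Nat.cast_nonneg (α := ℝ) L)
    have a4 : ((2 ^ (k + 1 + 1) : ℕ) : ℝ) ≤ 28 * (L + 6) := by
      have : 2 ^ (k + 1 + 1) ≤ 28 * (L + 6) := by rw [pow_succ, pow_succ]; omega
      exact_mod_cast this
    have a5 : (0 : ℝ) ≤ L := Nat.cast_nonneg L
    linarith

theorem log_dominance (hn : 3 ≤ n) (hm : ∀ i, 0 < m i) (hq : Function.Injective q)
    (h : rotField m ω (q, 0) = 0) (hd : ∀ i, 10 ^ 19 * Real.log n ^ 4 * m i ≤ ∑ j, m j) :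
    ∃ (α β : ℝ) (u w : (Fin n → ℂ) × (Fin n → ℂ)), 0 < α ∧
      fderiv ℝ (rotField m ω) (q, 0) u = α • u - β • w ∧
      fderiv ℝ (rotField m ω) (q, 0) w = β • u + α • w ∧
      Tangent m ω q u ∧ Tangent m ω q w ∧
      ¬ (u ∈ Submodule.span ℝ {((fun i => Complex.I * q i), 0)} ∧
        w ∈ Submodule.span ℝ {((fun i => Complex.I * q i), 0)}) := by
  by_contra hcon
  have i0 : Fin n := ⟨0, by omega⟩
  obtain ⟨i1, -, h1⟩ := exists_max_image univ (fun i => ∑ j, m j * wc q i j) ⟨i0, mem_univ _⟩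
  obtain ⟨i2, -, h2⟩ := exists_max_image univ m ⟨i0, mem_univ _⟩
  set Φ := ∑ j, m j * wc q i1 j with hΦd
  have hΦ : ∀ i, ∑ j, m j * wc q i j ≤ Φ := fun i => h1 i (mem_univ i)
  have hΦ0 : 0 < Φ := by
    have : Nontrivial (Fin n) := Fin.nontrivial_iff_two_le.2 (by omega)
    obtain ⟨j, hj⟩ := exists_ne i1
    refine sum_pos' (fun j _ => mul_nonneg (hm j).le (wc_nonneg q i1 j)) ⟨j, mem_univ j, ?_⟩
    have : 0 < ‖q j - q i1‖ := norm_pos_iff.2 (sub_ne_zero.2 (hq.ne hj))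
    have := hm j
    unfold wc
    positivity
  obtain ⟨K, hK, hK2⟩ : ∃ K : ℝ, 0 < K ∧ Φ = 2 * K ^ 2 :=
    ⟨√(Φ / 2), Real.sqrt_pos.2 (by positivity), by rw [Real.sq_sqrt (by positivity)]; ring⟩
  have hn' : (3 : ℝ) ≤ n := by exact_mod_cast hn
  have hl : 1 ≤ Real.log n := by
    rw [Real.le_log_iff_exp_le (by linarith)]
    linarith [Real.exp_one_lt_d9]
  have hω0 := abs_nonneg ω
  have s0 : ∀ j, ((√(m j) : ℝ) : ℂ) ≠ 0 := fun j => by
    exact_mod_cast (Real.sqrt_pos.2 (hm j)).ne'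
  rcases le_or_gt (270 * |ω| * Real.log n) K with hc | hc
  · obtain ⟨k, k1, k2, k3⟩ := exists_exponent hn
    have hωK : 270 * |ω| ≤ K := le_trans (le_mul_of_one_le_right (by positivity) hl) hc
    have nω : ‖(ω : ℂ) ^ 2‖ = |ω| ^ 2 := by rw [norm_pow, norm_real, Real.norm_eq_abs]
    have := pencil_core (G := diagonal (Sum.elim (fun _ => -(2 * ω * I)) (fun _ => 2 * ω * I)))
      (Tm_herm (m := m) (ω := ω) (q := q)) (b := 2 * |ω|) (by positivity) hK ?_ ?_ ?_ ?_ (m := k)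
      (by simpa [two_mul] using k2) ?_
    · rw [Fintype.card_sum, Fintype.card_fin] at this
      push_cast at this
      linarith
    · have e : ((2 * |ω| : ℝ) : ℂ) ^ 2 = 4 * ω ^ 2 := by
        rw [← ofReal_pow, mul_pow, sq_abs]; push_cast; ring
      rw [diagonal_conjTranspose, diagonal_mul_diagonal, e, smul_one_eq_diagonal]
      congr 1
      funext j
      rcases j with j | j
      · simp only [Pi.star_apply, Sum.elim_inl, star_def, map_neg, map_mul, conj_I, conj_ofReal,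
          map_ofNat]
        linear_combination (-4 * ω ^ 2 : ℂ) * I_mul_I
      · simp only [Pi.star_apply, Sum.elim_inr, star_def, map_mul, conj_I, conj_ofReal, map_ofNat]
        linear_combination (-4 * ω ^ 2 : ℂ) * I_mul_I
    · intro t x hx0 hx
      obtain ⟨a, b, hab, rfl⟩ := split_vec hm hx0
      have := sup_bound (ω := ω) hm hΦ hab (c := t) (d := t) (fun i => ?_) (fun i => ?_)
      · rw [or_self, ← ofReal_pow, ← ofReal_sub, norm_real, Real.norm_eq_abs] at this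
        nlinarith [(abs_le.1 this).1, sq_nonneg ω, sq_nonneg K]
      · have e := congrFun hx (Sum.inl i)
        rw [(Tm_mulVec hm a b i).1] at e
        apply mul_left_cancel₀ (s0 i)
        rw [e, Pi.smul_apply, Sum.elim_inl, smul_eq_mul]
        ring
      · have e := congrFun hx (Sum.inr i)
        rw [(Tm_mulVec hm a b i).2] at e
        apply mul_left_cancel₀ (s0 i)
        rw [e, Pi.smul_apply, Sum.elim_inr, smul_eq_mul]
        ring
    · refine ⟨Sum.inl i1, ?_⟩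
      have e : Tm m ω q (Sum.inl i1) (Sum.inl i1) = ((ω ^ 2 + 1 / 2 * Φ : ℝ) : ℂ) := by
        have : wc q i1 i1 = 0 := by simp [wc]
        simp [Tm, lapW, this, hΦd]
      rw [e, ofReal_re]
      nlinarith [sq_nonneg ω]
    · intro l x hx0 hx
      obtain ⟨a, b, hab, rfl⟩ := split_vec hm hx0
      have x3 : ∀ i, opA m ω q (ec q) a b i = (l ^ 2 + 2 * ω * I * l) * a i := fun i => by
        have e := congrFun hx (Sum.inl i)
        rw [Pi.add_apply, (Tm_mulVec hm a b i).1] at e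
        simp only [Pi.smul_apply, mulVec_diagonal, Sum.elim_inl, smul_eq_mul] at e
        apply mul_left_cancel₀ (s0 i)
        linear_combination e
      have x4 : ∀ i, opA m ω q (fun i j => conj (ec q i j)) b a i =
          (l ^ 2 - 2 * ω * I * l) * b i := fun i => by
        have e := congrFun hx (Sum.inr i)
        rw [Pi.add_apply, (Tm_mulVec hm a b i).2] at e
        simp only [Pi.smul_apply, mulVec_diagonal, Sum.elim_inr, smul_eq_mul] at e
        apply mul_left_cancel₀ (s0 i)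
        linear_combination e
      refine ⟨not_lt.1 fun hl0 => hcon (unstable_of_eigen hq h hl0 hab x3 x4), ?_⟩
      have n1 : ‖2 * ω * I * l‖ = 2 * |ω| * ‖l‖ := by simp
      have key : ‖l‖ ^ 2 ≤ 4 * Φ + |ω| ^ 2 + 2 * |ω| * ‖l‖ := by
        rw [← norm_pow, ← n1, ← nω]
        rcases sup_bound hm hΦ hab x3 x4 with e | e
        · have e1 : l ^ 2 = (l ^ 2 + 2 * ω * I * l - ω ^ 2) + ω ^ 2 - 2 * ω * I * l := by ring
          have e2 := norm_sub_le ((l ^ 2 + 2 * ω * I * l - ω ^ 2) + ω ^ 2) (2 * ω * I * l)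
          have e3 := norm_add_le (l ^ 2 + 2 * ω * I * l - ω ^ 2) ((ω : ℂ) ^ 2)
          rw [← e1] at e2
          linarith
        · have e1 : l ^ 2 = (l ^ 2 - 2 * ω * I * l - ω ^ 2) + ω ^ 2 + 2 * ω * I * l := by ring
          have e2 := norm_add_le ((l ^ 2 - 2 * ω * I * l - ω ^ 2) + ω ^ 2) (2 * ω * I * l)
          have e3 := norm_add_le (l ^ 2 - 2 * ω * I * l - ω ^ 2) ((ω : ℂ) ^ 2)
          rw [← e1] at e2
          linarith
      by_contra hlt
      rw [not_le] at hlt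
      have b1 : |ω| ^ 2 ≤ (K / 270) ^ 2 := pow_le_pow_left₀ hω0 (by linarith) 2
      have b2 : |ω| * ‖l‖ ≤ K / 270 * ‖l‖ :=
        mul_le_mul_of_nonneg_right (by linarith) (norm_nonneg l)
      nlinarith
    · have := mul_le_mul_of_nonneg_right k3 hω0
      nlinarith
  · have hω : 0 < |ω| := by
      refine hω0.lt_of_ne fun h0 => ?_
      rw [← h0] at hc
      linarith
    have l4 : 1 ≤ Real.log n ^ 4 := one_le_pow₀ hl
    have g := geom_bound hm (fun i => h2 i (mem_univ i)) (hm i2) hΦ0 hq hΦ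
      (le_trans (by nlinarith [hm i2]) (hd i2)) (cc_of_zero h)
    have b1 : K ^ 4 ≤ (270 * |ω| * Real.log n) ^ 4 := pow_le_pow_left₀ hK.le hc.le 4
    have b2 : |ω| ^ 4 = ω ^ 4 := by
      rw [show 4 = 2 * 2 from rfl, pow_mul, sq_abs, ← pow_mul]
    have b3 : 0 < ω ^ 4 := by rw [← b2]; positivity
    rw [mul_pow, mul_pow, b2] at b1
    have b4 := mul_le_mul_of_nonneg_left (hd i2) b3.le
    have b5 := mul_le_mul_of_nonneg_right b1 (hm i2).le
    have b6 : 0 < ω ^ 4 * Real.log n ^ 4 * m i2 := by have := hm i2; positivity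
    rw [hK2] at g
    nlinarith

end Pool.Agent.MP_4948b4_mp

end
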