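import Pool.Agent.MP_4948b4_mp.Mg.Run9

-- part MP_4948b4_mp.Run10
section

/-! Kernel runs of the subdivision checker. -/

namespace Pool.Agent.MP_4948b4_mp

theorem r10_Y : run (chY 21 11 15 256) (.y (.z (.x .l .l) (.y (.z (.z .l (.x .l .l)) .l) (.z (.z .l .l) .l))) (.x .l (.y (.x .l .l) .l)))
    true 30240 2160 120 9 9 (ct10.terms 10) = true := by
  decide +kernel

theorem r10_Z1 : run (chZ1 21 20 15 198) (.x .l .l)
    true 30240 2160 120 9 9 (ct10.terms 10) = true := by
  decide +kernel

theorem r10_Z2 : run (chZ2 11 20 15 167) .l false 51840 2160 120 9 9 (ct10.terms 10) = true := by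
  decide +kernel

theorem neg_10 : Neg (ct10.terms 10) := neg_of_run r10_Y r10_Z1 r10_Z2

end Pool.Agent.MP_4948b4_mp

end

-- part MP_4948b4_mp.RunB
section

/-! Kernel runs of the subdivision checker. -/

namespace Pool.Agent.MP_4948b4_mp

theorem rb0_Y : run (chY 16 5 19 163) (.y .l .l)
    true 21120 2640 120 3 7 (big0 bq bsq bg) = true := by
  decide +kernel

theorem rb0_Z1 : run (chZ1 16 16 19 169) .l true 21120 2640 120 3 7 (big0 bq bsq bg) = true := by
  decide +kernel

theorem rb0_Z2 : run (chZ2 5 16 19 168) (.x .l (.x .l .l))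
    false 50160 2640 120 3 7 (big0 bq bsq bg) = true := by
  decide +kernel

theorem neg_b0 : Neg (big0 bq bsq bg) := neg_of_run rb0_Y rb0_Z1 rb0_Z2

theorem rb1_Y : run (chY 16 5 19 218) (.y (.y .l (.z .l (.y .l (.z .l .l)))) (.z (.y .l (.x .l .l)) (.y .l (.x .l .l))))
    true 21120 2640 120 3 7 (big1 bq bsq bg) = true := by
  decide +kernel

theorem rb1_Z1 : run (chZ1 16 16 19 208) (.x (.y .l .l) (.y .l .l))
    true 21120 2640 120 3 7 (big1 bq bsq bg) = true := by
  decide +kernel

theorem rb1_Z2 : run (chZ2 5 16 19 165) .l false 50160 2640 120 3 7 (big1 bq bsq bg) = true := by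
  decide +kernel

theorem neg_b1 : Neg (big1 bq bsq bg) := neg_of_run rb1_Y rb1_Z1 rb1_Z2

end Pool.Agent.MP_4948b4_mp

end

-- part MP_4948b4_mp.Eight
section

/-! No normalised central configuration of at least eight equal masses satisfies the three trace
inequalities. -/

namespace Pool.Agent.MP_4948b4_mp

theorem geo_eight {n : ℕ} (hn : 8 ≤ n) (z : Fin n → ℂ) (hz : Function.Injective z) (h : CC z)
    (h1 : H1 z) (h2 : H2 z) (h3 : H3 z) : False := by
  have hc := h.AA_eq hz (by omega)
  rcases (by omega : n = 8 ∨ n = 9 ∨ n = 10 ∨ 11 ≤ n) with rfl | rfl | rfl | h11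
  · exact small_sound hz (by norm_num) hc h1 h2 h3 ct8 (by decide) neg_8
  · exact small_sound hz (by norm_num) hc h1 h2 h3 ct9 (by decide) neg_9
  · exact small_sound hz (by norm_num) hc h1 h2 h3 ct10 (by decide) neg_10
  · exact big_sound hz h11 hc h1 bq (by decide) bsq bg neg_b0 neg_b1

end Pool.Agent.MP_4948b4_mp

end
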