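import Pool.Agent.MP_4948b4_mp.Build
import Pool.Agent.MP_4948b4_mp.Mg.Spec

-- part MP_4948b4_mp.Terms
section

/-!
Certificates and their lists of terms.
-/

namespace Pool.Agent.MP_4948b4_mp

/-- Laurent polynomials: pairs (exponent, coefficient) -/
abbrev LP := List (ℤ × ℤ)

noncomputable def evL (f : LP) (x : ℝ) : ℝ := (f.map (fun a => (a.2 : ℝ) * x ^ a.1)).sum

def pairT (c : ℤ) (f g : LP) : List Tm :=
  f.flatMap (fun a => g.map (fun b => ⟨a.1 + b.1, 0, 0, 0, c * a.2 * b.2⟩))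
def offT (c : ℤ) (m : ℕ) (f g : LP) : List Tm :=
  f.flatMap (fun a => g.map (fun b => ⟨a.1, b.1, 0, m, c * a.2 * b.2⟩))
def shL (k : ℤ) (f : LP) : LP := f.map (fun a => (a.1 + k, a.2))

theorem evT_nil (x y z : ℝ) : evT [] x y z = 0 := rfl
theorem evT_cons (t : Tm) (V : List Tm) (x y z : ℝ) :
    evT (t :: V) x y z = t.ev x y z + evT V x y z := by simp [evT]
theorem evT_append (U V : List Tm) (x y z : ℝ) :
    evT (U ++ V) x y z = evT U x y z + evT V x y z := by simp [evT]
theorem evL_nil (x : ℝ) : evL [] x = 0 := rfl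
theorem evL_cons (a : ℤ × ℤ) (f : LP) (x : ℝ) : evL (a :: f) x = a.2 * x ^ a.1 + evL f x := by
  simp [evL]

theorem evL_shL (k : ℤ) {x : ℝ} (hx : x ≠ 0) : ∀ f : LP, evL (shL k f) x = x ^ k * evL f x
  | [] => by simp [shL, evL]
  | a :: f => by
    have := evL_shL k hx f
    simp only [shL, List.map_cons, evL_cons] at this ⊢
    rw [this, zpow_add₀ hx]; ring

theorem evT_pairT (c : ℤ) {x : ℝ} (hx : x ≠ 0) (y z : ℝ) (g : LP) :
    ∀ f : LP, evT (pairT c f g) x y z = c * (2 * (evL f x * evL g x))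
  | [] => by simp [pairT, evT, evL]
  | a :: f => by
    have := evT_pairT c hx y z g f
    simp only [pairT, List.flatMap_cons, evT_append, evL_cons] at this ⊢
    rw [this]
    have e : ∀ g : LP, evT (g.map (fun b => (⟨a.1 + b.1, 0, 0, 0, c * a.2 * b.2⟩ : Tm))) x y z =
        c * (2 * (a.2 * x ^ a.1 * evL g x)) := by
      intro g
      induction g with
      | nil => simp [evT, evL]
      | cons b g ih =>
        rw [List.map_cons, evT_cons, ih, evL_cons]
        simp only [Tm.ev, tau, zpow_add₀ hx]; push_cast; simp; ring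
    rw [e]; ring

theorem evT_offT (c : ℤ) (m : ℕ) (x y z : ℝ) (g : LP) :
    ∀ f : LP, evT (offT c m f g) x y z = c * (evL f x * evL g y * tau m (kap x y z))
  | [] => by simp [offT, evT, evL]
  | a :: f => by
    have := evT_offT c m x y z g f
    simp only [offT, List.flatMap_cons, evT_append, evL_cons] at this ⊢
    rw [this]
    have e : ∀ g : LP, evT (g.map (fun b => (⟨a.1, b.1, 0, m, c * a.2 * b.2⟩ : Tm))) x y z =
        c * (a.2 * x ^ a.1 * evL g y * tau m (kap x y z)) := by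
      intro g
      induction g with
      | nil => simp [evT, evL]
      | cons b g ih =>
        rw [List.map_cons, evT_cons, ih, evL_cons]
        simp only [Tm.ev]; push_cast; simp; ring
    rw [e]; ring

/-- merge terms with the same exponents -/
def insT (t : Tm) : List Tm → List Tm
  | [] => [t]
  | s :: V => if s.i = t.i ∧ s.j = t.j ∧ s.k = t.k ∧ s.m = t.m then
      ⟨s.i, s.j, s.k, s.m, s.c + t.c⟩ :: V else s :: insT t V

def agg : List Tm → List Tm
  | [] => []
  | t :: V => insT t (agg V)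

theorem evT_insT (t : Tm) (x y z : ℝ) : ∀ V, evT (insT t V) x y z = t.ev x y z + evT V x y z
  | [] => by simp [insT, evT]
  | s :: V => by
    unfold insT
    split
    · rename_i h
      obtain ⟨h1, h2, h3, h4⟩ := h
      simp only [evT_cons, Tm.ev, h1, h2, h3, h4]; push_cast; ring
    · rw [evT_cons, evT_insT t x y z V, evT_cons]; ring

theorem evT_agg (x y z : ℝ) : ∀ V, evT (agg V) x y z = evT V x y z
  | [] => rfl
  | t :: V => by rw [agg, evT_insT, evT_agg x y z V, evT_cons]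

/-- an item `c * star f g m` -/
structure It where
  c : ℤ
  m : ℕ
  f : LP
  g : LP

def itP (a : ℤ) (L : List It) : List Tm := L.flatMap (fun t => pairT (a * t.c) t.f t.g)
def itT (b : ℤ) (L : List It) : List Tm := L.flatMap (fun t => offT (b * t.c) t.m t.f t.g)

def lw : LP := [(-3, 1)]
def lw2 : LP := [(-6, 1)]
def lone : LP := [(0, 1)]
def lcc : LP := [(-2, 1), (1, -1)]

def sqI (sq : List (ℕ × LP)) (g : LP) : List It :=
  ⟨1, 1, lcc, g⟩ :: sq.map (fun s => ⟨1, s.1, s.2, s.2⟩)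

structure Ct where
  q1 : ℤ
  q2 : ℤ
  q3 : ℤ
  l0 : ℤ
  l1 : ℤ
  h : LP
  g : LP
  sq : List (ℕ × LP)

def Ct.items (C : Ct) (n : ℤ) : List It :=
  ⟨2 * C.l0, 2, lw, shL (-3) C.h⟩ :: ⟨2 * C.l1, 0, lw, shL (-3) C.h⟩ ::
  ⟨C.q2 + 30 * n * C.q3, 0, lw, lw⟩ :: ⟨9 * C.q2 + 54 * n * C.q3, 2, lw, lw⟩ ::
  ⟨-30 * C.q3, 0, lw, lw2⟩ :: ⟨-54 * C.q3, 2, lw, lw2⟩ :: sqI C.sq C.g

def Ct.pairs (C : Ct) (n : ℤ) : List Tm :=
  pairT (n * (n - 1) * (-(C.q1 + 12 * n * C.q2 + 60 * n * n * C.q3))) lw lone ++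
  (pairT (n * (n - 1) * (10 * C.q2 + 84 * n * C.q3)) lw2 lone ++
  (pairT (n * (n - 1)) (shL (-3) C.h) C.h ++ itP (n * (n - 1)) (C.items n)))

def Ct.trips (C : Ct) (n : ℤ) : List Tm :=
  ⟨-3, -3, -3, 0, n * (n - 1) * (n - 2) * C.q3⟩ ::
  ⟨-3, -3, -3, 2, n * (n - 1) * (n - 2) * (27 * C.q3)⟩ :: itT (n * (n - 1) * (n - 2)) (C.items n)

def Ct.terms (C : Ct) (n : ℤ) : List Tm :=
  ⟨0, 0, 0, 0, (2 * n - 3) * (n * C.q1 + 2 * n * n * C.q2 + 4 * n * n * n * C.q3) + 1⟩ ::
    (agg (C.pairs n) ++ agg (C.trips n))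

def Ct.ok (C : Ct) : Bool :=
  nn0 C.q1 && nn0 C.q2 && nn0 (C.q3 - C.l1 * C.l1) &&
    nn0 (27 * C.q3 - C.l0 * C.l0 - 2 * C.l0 * C.l1)

/-- the two lists of terms for large `n` -/
def big0 (q : ℤ) (sq : List (ℕ × LP)) (g : LP) : List Tm :=
  ⟨0, 0, 0, 0, 2 * q + 1⟩ :: (pairT (-q) lw lone ++ agg (itT 1 (sqI sq g)))
def big1 (q : ℤ) (sq : List (ℕ × LP)) (g : LP) : List Tm :=
  ⟨0, 0, 0, 0, 171 * q + 1⟩ ::
    (agg (pairT (-90 * q) lw lone ++ itP 10 (sqI sq g)) ++ agg (itT 90 (sqI sq g)))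

end Pool.Agent.MP_4948b4_mp

end

-- part MP_4948b4_mp.Geom
section

/-!
Sums over pairs and triples of points of a planar configuration.
-/

namespace Pool.Agent.MP_4948b4_mp

open Complex Finset ComplexConjugate

section sums
variable {n : ℕ} {R : Type} [CommRing R]

def p2 (F : Fin n → Fin n → R) : R := ∑ i, ∑ j, if i = j then 0 else F i j
def p3 (F : Fin n → Fin n → Fin n → R) : R :=
  ∑ i, ∑ j, ∑ k, if i ≠ j ∧ i ≠ k ∧ j ≠ k then F i j k else 0

theorem p2_congr {F G : Fin n → Fin n → R} (h : ∀ i j, i ≠ j → F i j = G i j) : p2 F = p2 G :=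
  sum_congr rfl fun i _ => sum_congr rfl fun j _ => by
    split
    · rfl
    · exact h i j ‹_›

theorem p3_congr {F G : Fin n → Fin n → Fin n → R}
    (h : ∀ i j k, i ≠ j → i ≠ k → j ≠ k → F i j k = G i j k) : p3 F = p3 G :=
  sum_congr rfl fun i _ => sum_congr rfl fun j _ => sum_congr rfl fun k _ => by
    split
    · rename_i h'; exact h i j k h'.1 h'.2.1 h'.2.2
    · rfl

theorem p2_add (F G : Fin n → Fin n → R) : p2 (fun i j => F i j + G i j) = p2 F + p2 G := by
  simp only [p2, ← sum_add_distrib]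
  exact sum_congr rfl fun i _ => sum_congr rfl fun j _ => by split <;> simp

theorem p2_mul (c : R) (F : Fin n → Fin n → R) : p2 (fun i j => c * F i j) = c * p2 F := by
  simp only [p2, mul_sum]
  exact sum_congr rfl fun i _ => sum_congr rfl fun j _ => by split <;> simp

theorem p3_add (F G : Fin n → Fin n → Fin n → R) :
    p3 (fun i j k => F i j k + G i j k) = p3 F + p3 G := by
  simp only [p3, ← sum_add_distrib]
  exact sum_congr rfl fun i _ => sum_congr rfl fun j _ => sum_congr rfl fun k _ => by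
    split <;> simp

theorem p3_mul (c : R) (F : Fin n → Fin n → Fin n → R) :
    p3 (fun i j k => c * F i j k) = c * p3 F := by
  simp only [p3, mul_sum]
  exact sum_congr rfl fun i _ => sum_congr rfl fun j _ => sum_congr rfl fun k _ => by
    split <;> simp

theorem p3_swap23 (F : Fin n → Fin n → Fin n → R) : p3 (fun i j k => F i k j) = p3 F := by
  refine sum_congr rfl fun i _ => ?_
  rw [sum_comm]
  refine sum_congr rfl fun j _ => sum_congr rfl fun k _ => ?_
  exact if_congr (by tauto) rfl rfl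

theorem p3_swap12 (F : Fin n → Fin n → Fin n → R) : p3 (fun i j k => F j i k) = p3 F := by
  unfold p3
  rw [sum_comm]
  refine sum_congr rfl fun i _ => sum_congr rfl fun j _ => sum_congr rfl fun k _ => ?_
  exact if_congr (by tauto) rfl rfl

theorem split3 (G : Fin n → Fin n → Fin n → R) :
    (∑ i, ∑ j, ∑ k, if i = j then 0 else if i = k then 0 else G i j k) =
      p2 (fun i j => G i j j) + p3 G := by
  simp only [p2, p3, ← sum_add_distrib]
  refine sum_congr rfl fun i _ => sum_congr rfl fun j _ => ?_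
  by_cases hij : i = j
  · simp [hij]
  · have : G i j j = ∑ k, if j = k then G i j k else 0 := by simp
    rw [if_neg hij, this, ← sum_add_distrib]
    refine sum_congr rfl fun k _ => ?_
    by_cases hik : i = k
    · subst hik; simp [hij, Ne.symm hij]
    · by_cases hjk : j = k <;> simp [hij, hik, hjk]

theorem sum_ite_const (i : Fin n) (c : R) : (∑ j, if i = j then 0 else c) = (n - 1 : R) * c := by
  have : ∀ j, (if i = j then 0 else c) = c - if i = j then c else 0 := fun j => by split <;> simp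
  simp only [this, sum_sub_distrib, sum_const, card_univ, Fintype.card_fin, sum_ite_eq, mem_univ,
    if_true, nsmul_eq_mul]
  ring

theorem p3_pair (F : Fin n → Fin n → R) : p3 (fun i j _ => F i j) = (n - 2 : R) * p2 F := by
  have h := split3 (fun i j (_ : Fin n) => F i j)
  have e : (∑ i, ∑ j, ∑ k : Fin n, if i = j then 0 else if i = k then 0 else F i j) =
      (n - 1 : R) * p2 F := by
    simp only [p2, mul_sum]
    refine sum_congr rfl fun i _ => sum_congr rfl fun j _ => ?_
    split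
    · simp
    · exact sum_ite_const i _
  rw [e] at h
  linear_combination -h

theorem p2_const (c : R) : p2 (fun _ _ : Fin n => c) = n * (n - 1) * c := by
  simp only [p2, sum_ite_const, sum_const, card_univ, Fintype.card_fin, nsmul_eq_mul]; ring

theorem p3_const (c : R) : p3 (fun _ _ _ : Fin n => c) = n * (n - 1) * (n - 2) * c := by
  rw [p3_pair (fun _ _ => c), p2_const]; ring

theorem p3_nonpos {F : Fin n → Fin n → Fin n → ℝ}
    (h : ∀ i j k, i ≠ j → i ≠ k → j ≠ k → F i j k ≤ 0) : p3 F ≤ 0 :=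
  sum_nonpos fun i _ => sum_nonpos fun j _ => sum_nonpos fun k _ => by
    split
    · rename_i h'; exact h i j k h'.1 h'.2.1 h'.2.2
    · exact le_rfl

theorem re_p2 (F : Fin n → Fin n → ℂ) : (p2 F).re = p2 (fun i j => (F i j).re) := by
  simp only [p2, re_sum]
  exact sum_congr rfl fun i _ => sum_congr rfl fun j _ => by split <;> simp

theorem re_p3 (F : Fin n → Fin n → Fin n → ℂ) : (p3 F).re = p3 (fun i j k => (F i j k).re) := by
  simp only [p3, re_sum]
  exact sum_congr rfl fun i _ => sum_congr rfl fun j _ => sum_congr rfl fun k _ => by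
    split <;> simp

end sums

variable {n : ℕ} (z : Fin n → ℂ)

noncomputable def rr (i j : Fin n) : ℝ := ‖z i - z j‖
noncomputable def uu (i j : Fin n) : ℂ := (z i - z j) / (rr z i j : ℂ)
noncomputable def S2 (φ : ℝ → ℝ) : ℝ := p2 (fun i j => φ (rr z i j))
noncomputable def S3 (F : ℝ → ℝ → ℝ → ℝ) : ℝ :=
  p3 (fun i j k => F (rr z i j) (rr z i k) (rr z j k))
noncomputable def AA (f : ℝ → ℝ) (m : ℕ) (i : Fin n) : ℂ :=
  ∑ j, if i = j then 0 else (f (rr z i j) : ℂ) * uu z i j ^ m
noncomputable def dd (f : ℝ → ℝ) (i : Fin n) : ℝ := ∑ j, if i = j then 0 else f (rr z i j)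
noncomputable def stq (f g : ℝ → ℝ) (m : ℕ) : ℝ := ∑ i, 2 * (AA z f m i * conj (AA z g m i)).re

theorem rr_comm (i j : Fin n) : rr z i j = rr z j i := norm_sub_rev _ _

theorem AA_zero (f : ℝ → ℝ) (i : Fin n) : AA z f 0 i = dd z f i := by
  simp only [AA, dd, ofReal_sum, pow_zero, mul_one]
  exact sum_congr rfl fun j _ => by split <;> simp

theorem stq_zero (f g : ℝ → ℝ) : stq z f g 0 = ∑ i, 2 * (dd z f i * dd z g i) := by
  simp only [stq, AA_zero, conj_ofReal, ← ofReal_mul, ofReal_re]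

theorem stq_self (f : ℝ → ℝ) (m : ℕ) : stq z f f m = ∑ i, 2 * normSq (AA z f m i) := by
  simp only [stq, mul_conj, ofReal_re]

theorem stq_self_nonneg (f : ℝ → ℝ) (m : ℕ) : 0 ≤ stq z f f m := by
  rw [stq_self]
  exact sum_nonneg fun i _ => mul_nonneg zero_le_two (normSq_nonneg _)

theorem sum_dd (f : ℝ → ℝ) : ∑ i, dd z f i = S2 z f := rfl

theorem tau_eq {ζ : ℂ} (h : ζ * conj ζ = 1) : ∀ m : ℕ, tau m (2 * ζ.re) = 2 * (ζ ^ m).re := by
  have e : ∀ x : ℂ, ((2 * x.re : ℝ) : ℂ) = x + conj x := fun x => (add_conj x).symm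
  have key : ∀ m : ℕ, ((tau m (2 * ζ.re) : ℝ) : ℂ) = ζ ^ m + conj ζ ^ m ∧
      ((tau (m + 1) (2 * ζ.re) : ℝ) : ℂ) = ζ ^ (m + 1) + conj ζ ^ (m + 1) := by
    intro m
    induction m with
    | zero => exact ⟨by simp [tau]; norm_num, by rw [zero_add, tau, e]; simp⟩
    | succ m ih =>
      refine ⟨ih.2, ?_⟩
      rw [tau, ofReal_sub, ofReal_mul, ih.1, ih.2, e]
      linear_combination (ζ ^ m + conj ζ ^ m) * h
  intro m
  apply ofReal_injective
  rw [(key m).1, e, map_pow]

variable {z}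

theorem rr_pos (hz : Function.Injective z) {i j : Fin n} (h : i ≠ j) : 0 < rr z i j :=
  norm_pos_iff.2 (sub_ne_zero.2 (hz.ne h))

theorem uu_mul_conj (hz : Function.Injective z) {i j : Fin n} (h : i ≠ j) :
    uu z i j * conj (uu z i j) = 1 := by
  have := rr_pos hz h
  rw [mul_conj, uu, normSq_div, normSq_ofReal, normSq_eq_norm_sq, ← rr, sq, div_self (by positivity)]
  simp

theorem re_uu (hz : Function.Injective z) {i j k : Fin n} (h : i ≠ j) (h' : i ≠ k) :
    2 * (uu z i j * conj (uu z i k)).re = kap (rr z i j) (rr z i k) (rr z j k) := by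
  have h1 := rr_pos hz h
  have h2 := rr_pos hz h'
  have e : uu z i j * conj (uu z i k) =
      ((z i - z j) * conj (z i - z k)) / ((rr z i j * rr z i k : ℝ) : ℂ) := by
    rw [uu, uu, map_div₀, conj_ofReal, div_mul_div_comm, ofReal_mul]
  rw [e, div_ofReal_re, kap, ← mul_div_assoc]
  congr 1
  have : z j - z k = (z i - z k) - (z i - z j) := by ring
  rw [rr, rr, rr, this, ← normSq_eq_norm_sq, ← normSq_eq_norm_sq, ← normSq_eq_norm_sq,
    normSq_sub (z i - z k)]
  have : ((z i - z k) * conj (z i - z j)).re = ((z i - z j) * conj (z i - z k)).re := by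
    rw [← conj_re, map_mul, conj_conj, mul_comm]
  rw [this]; ring

theorem re_uu_pow (hz : Function.Injective z) {i j k : Fin n} (h : i ≠ j) (h' : i ≠ k) (m : ℕ) :
    2 * (uu z i j ^ m * conj (uu z i k) ^ m).re = tau m (kap (rr z i j) (rr z i k) (rr z j k)) := by
  rw [← re_uu hz h h', tau_eq, mul_pow]
  rw [map_mul, conj_conj]
  linear_combination (uu z i k * conj (uu z i k)) * uu_mul_conj hz h + uu_mul_conj hz h'

theorem stq_eq (hz : Function.Injective z) (f g : ℝ → ℝ) (m : ℕ) :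
    stq z f g m = S2 z (fun x => 2 * (f x * g x)) +
      S3 z (fun x y w => f x * g y * tau m (kap x y w)) := by
  have e : stq z f g m = ∑ i, ∑ j, ∑ k, if i = j then 0 else if i = k then 0 else
      f (rr z i j) * g (rr z i k) * (2 * (uu z i j ^ m * conj (uu z i k) ^ m).re) := by
    refine sum_congr rfl fun i _ => ?_
    rw [AA, AA, map_sum, sum_mul_sum, re_sum, mul_sum]
    refine sum_congr rfl fun j _ => ?_
    rw [re_sum, mul_sum]
    refine sum_congr rfl fun k _ => ?_
    split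
    · simp
    · split
      · simp
      · rw [map_mul, conj_ofReal, map_pow, mul_mul_mul_comm, ← ofReal_mul, re_ofReal_mul]; ring
  rw [e, split3]
  congr 1
  · refine p2_congr fun i j h => ?_
    rw [← mul_pow, uu_mul_conj hz h]; simp; ring
  · exact p3_congr fun i j k h1 h2 _ => by rw [re_uu_pow hz h1 h2]

theorem S3_nonpos (hz : Function.Injective z) {V : List Tm} (hV : Neg V) : S3 z (evT V) ≤ 0 := by
  have h : p3 (fun i j k => Psi V (rr z j k) (rr z i j) (rr z i k)) ≤ 0 := by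
    refine p3_nonpos fun i j k h1 h2 h3 => hV _ _ _ (rr_pos hz h3) (rr_pos hz h1) (rr_pos hz h2)
      ?_ ?_ ?_
    · rw [rr_comm z i j]; exact norm_sub_le_norm_sub_add_norm_sub _ _ _
    · rw [rr_comm z j k, add_comm]; exact norm_sub_le_norm_sub_add_norm_sub _ _ _
    · rw [add_comm]; exact norm_sub_le_norm_sub_add_norm_sub _ _ _
  let F : Fin n → Fin n → Fin n → ℝ := fun i j k => evT V (rr z i j) (rr z i k) (rr z j k)
  have e : p3 (fun i j k => Psi V (rr z j k) (rr z i j) (rr z i k)) =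
      p3 (fun i j k => F i j k + F i k j + F k j i + F k i j + F j k i + F j i k) :=
    p3_congr fun i j k _ _ _ => by
      simp only [F, Psi, rr_comm z k j, rr_comm z k i, rr_comm z j i]
  have a1 : p3 (fun i j k => F i k j) = p3 F := p3_swap23 F
  have a2 : p3 (fun i j k => F j i k) = p3 F := p3_swap12 F
  have a3 : p3 (fun i j k => F j k i) = p3 F := (p3_swap12 (fun i j k => F i k j)).trans a1
  have a4 : p3 (fun i j k => F k i j) = p3 F := (p3_swap23 (fun i j k => F j i k)).trans a2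
  have a5 : p3 (fun i j k => F k j i) = p3 F := (p3_swap23 (fun i j k => F j k i)).trans a3
  rw [e, p3_add, p3_add, p3_add, p3_add, p3_add, a1, a2, a3, a4, a5] at h
  have : S3 z (evT V) = p3 F := rfl
  linarith

end Pool.Agent.MP_4948b4_mp

end

-- part MP_4948b4_mp.Sound
section

/-!
Soundness of the certificates.
-/

namespace Pool.Agent.MP_4948b4_mp

open Complex Finset ComplexConjugate

variable {n : ℕ} {z : Fin n → ℂ}

noncomputable def off (f g : ℝ → ℝ) (m : ℕ) (x y w : ℝ) : ℝ := f x * g y * tau m (kap x y w)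
noncomputable def www (m : ℕ) (x y w : ℝ) : ℝ :=
  x ^ (-3 : ℤ) * y ^ (-3 : ℤ) * w ^ (-3 : ℤ) * tau m (kap x y w)

theorem S3_append (U V : List Tm) : S3 z (evT (U ++ V)) = S3 z (evT U) + S3 z (evT V) := by
  simp only [S3, evT_append, p3_add]

theorem S3_cons (t : Tm) (V : List Tm) : S3 z (evT (t :: V)) = S3 z t.ev + S3 z (evT V) := by
  simp only [S3, evT_cons, p3_add]

theorem S3_agg (V : List Tm) : S3 z (evT (agg V)) = S3 z (evT V) := by
  simp only [S3, evT_agg]

theorem S3_cst (c : ℤ) : S3 z (Tm.ev ⟨0, 0, 0, 0, c⟩) = n * (n - 1) * (n - 2) * (2 * c) := by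
  rw [← p3_const]
  exact p3_congr fun i j k _ _ _ => by simp [Tm.ev, tau, mul_comm]

theorem S3_www (m : ℕ) (c : ℤ) : S3 z (Tm.ev ⟨-3, -3, -3, m, c⟩) = c * S3 z (www m) := by
  rw [S3, S3, ← p3_mul]
  exact p3_congr fun i j k _ _ _ => by simp only [Tm.ev, www]; ring

theorem S3_pairT (hz : Function.Injective z) (c : ℤ) (f g : LP) :
    S3 z (evT (pairT c f g)) = (n - 2) * (c * S2 z (fun x => 2 * (evL f x * evL g x))) := by
  rw [S2, ← p2_mul, ← p3_pair]
  exact p3_congr fun i j k h _ _ => evT_pairT c (rr_pos hz h).ne' _ _ g f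

theorem S3_offT (c : ℤ) (m : ℕ) (f g : LP) :
    S3 z (evT (offT c m f g)) = c * S3 z (off (evL f) (evL g) m) := by
  rw [S3, S3, ← p3_mul]
  exact p3_congr fun i j k _ _ _ => evT_offT c m _ _ _ g f

variable (z) in
noncomputable def IP (L : List It) : ℝ :=
  (L.map (fun t => (t.c : ℝ) * S2 z (fun x => 2 * (evL t.f x * evL t.g x)))).sum
variable (z) in
noncomputable def IT (L : List It) : ℝ :=
  (L.map (fun t => (t.c : ℝ) * S3 z (off (evL t.f) (evL t.g) t.m))).sum
variable (z) in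
noncomputable def IS (L : List It) : ℝ :=
  (L.map (fun t => (t.c : ℝ) * stq z (evL t.f) (evL t.g) t.m)).sum

theorem S3_nil : S3 z (evT []) = 0 := by
  have := p3_const (n := n) (0 : ℝ)
  rw [mul_zero] at this
  exact this

theorem S3_itP (hz : Function.Injective z) (a : ℤ) :
    ∀ L : List It, S3 z (evT (itP a L)) = (n - 2) * a * IP z L
  | [] => by simp [itP, IP, S3_nil]
  | t :: L => by
    have := S3_itP hz a L
    simp only [itP, IP, List.flatMap_cons, List.map_cons, List.sum_cons] at this ⊢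
    rw [S3_append, this, S3_pairT hz]; push_cast; ring

theorem S3_itT (b : ℤ) : ∀ L : List It, S3 z (evT (itT b L)) = b * IT z L
  | [] => by simp [itT, IT, S3_nil]
  | t :: L => by
    have := S3_itT b L
    simp only [itT, IT, List.flatMap_cons, List.map_cons, List.sum_cons] at this ⊢
    rw [S3_append, this, S3_offT]; push_cast; ring

theorem IS_eq (hz : Function.Injective z) : ∀ L : List It, IS z L = IP z L + IT z L
  | [] => by simp [IS, IP, IT]
  | t :: L => by
    have := IS_eq hz L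
    simp only [IS, IP, IT, List.map_cons, List.sum_cons] at this ⊢
    rw [this, stq_eq hz]
    unfold off
    ring

theorem IS_cons (t : It) (L : List It) :
    IS z (t :: L) = t.c * stq z (evL t.f) (evL t.g) t.m + IS z L := by simp [IS]

theorem IS_sqI (hc : ∀ i, AA z (evL lcc) 1 i = 0) (sq : List (ℕ × LP)) (g : LP) :
    0 ≤ IS z (sqI sq g) := by
  rw [sqI, IS_cons]
  have : stq z (evL lcc) (evL g) 1 = 0 := by simp [stq, hc]
  simp only [this, mul_zero, zero_add]
  refine List.sum_nonneg fun x hx => ?_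
  simp only [List.map_map, List.mem_map, Function.comp] at hx
  obtain ⟨s, -, rfl⟩ := hx
  simpa using stq_self_nonneg z _ _

noncomputable def w1 (x : ℝ) : ℝ := x ^ (-3 : ℤ)
noncomputable def w2 (x : ℝ) : ℝ := x ^ (-6 : ℤ)

theorem evL_lw : evL lw = w1 := by funext x; simp [evL, lw, w1]
theorem evL_lw2 : evL lw2 = w2 := by funext x; simp [evL, lw2, w2]
theorem evL_lone (x : ℝ) : evL lone x = 1 := by simp [evL, lone]

theorem re_mul_AA (ν : ℂ) (f : ℝ → ℝ) (m : ℕ) (i : Fin n) : (ν * conj (AA z f m i)).re =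
    ∑ j, if i = j then 0 else f (rr z i j) * (ν * conj (uu z i j ^ m)).re := by
  rw [AA, map_sum, mul_sum, re_sum]
  refine sum_congr rfl fun j _ => ?_
  split
  · simp
  · rw [map_mul, conj_ofReal, mul_left_comm, re_ofReal_mul]

theorem dd_nonneg (i : Fin n) : 0 ≤ dd z w1 i :=
  sum_nonneg fun j _ => by
    split
    · exact le_rfl
    · exact zpow_nonneg (norm_nonneg _) _

theorem cubic (hz : Function.Injective z) (l0 l1 : ℝ) (h wh : ℝ → ℝ)
    (hw : ∀ x, 0 < x → wh x = w1 x * h x) :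
    0 ≤ 2 * (l0 ^ 2 + 2 * l0 * l1) * ∑ i, dd z w1 i * normSq (AA z w1 2 i) +
      2 * l1 ^ 2 * ∑ i, dd z w1 i ^ 3 + 2 * l0 * stq z w1 wh 2 + 2 * l1 * stq z w1 wh 0 +
      S2 z (fun x => 2 * (wh x * h x)) := by
  rw [stq_zero, stq, ← sum_dd]
  simp only [mul_sum, ← sum_add_distrib]
  refine sum_nonneg fun i _ => ?_
  have e1 : normSq (AA z w1 2 i) = (AA z w1 2 i * conj (AA z w1 2 i)).re := by
    rw [mul_conj, ofReal_re]
  have e2 := re_mul_AA (z := z) (AA z w1 2 i) w1 2 i
  have e3 := re_mul_AA (z := z) (AA z w1 2 i) wh 2 i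
  rw [← e1] at e2
  set ν := AA z w1 2 i
  set d := dd z w1 i with hd
  have key : 0 ≤ ∑ j, if i = j then 0 else 2 * (w1 (rr z i j) *
      normSq (l0 * (ν * conj (uu z i j ^ 2)) + ((l1 * d + h (rr z i j) : ℝ) : ℂ))) :=
    sum_nonneg fun j _ => by
      split
      · exact le_rfl
      · exact mul_nonneg zero_le_two (mul_nonneg (zpow_nonneg (norm_nonneg _) _) (normSq_nonneg _))
  have e4 : (∑ j, if i = j then 0 else 2 * (w1 (rr z i j) *
      normSq (l0 * (ν * conj (uu z i j ^ 2)) + ((l1 * d + h (rr z i j) : ℝ) : ℂ)))) =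
      ∑ j, ((2 * l0 ^ 2 * normSq ν + 2 * l1 ^ 2 * d ^ 2) * (if i = j then 0 else w1 (rr z i j)) +
        4 * l0 * l1 * d * (if i = j then 0 else w1 (rr z i j) * (ν * conj (uu z i j ^ 2)).re) +
        4 * l0 * (if i = j then 0 else wh (rr z i j) * (ν * conj (uu z i j ^ 2)).re) +
        4 * l1 * d * (if i = j then 0 else wh (rr z i j)) +
        (if i = j then 0 else 2 * (wh (rr z i j) * h (rr z i j)))) := by
    refine sum_congr rfl fun j _ => ?_
    split
    · simp
    · rename_i hij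
      have hu : normSq (uu z i j) = 1 := by
        have := uu_mul_conj hz hij
        rw [mul_conj] at this
        exact_mod_cast this
      rw [normSq_add, normSq_mul, normSq_mul, normSq_conj, map_pow, hu, normSq_ofReal,
        normSq_ofReal, conj_ofReal, re_mul_ofReal, re_ofReal_mul,
        hw _ (rr_pos hz hij)]
      ring
  rw [e4] at key
  simp only [sum_add_distrib, ← mul_sum] at key
  rw [← e2, ← e3] at key
  have e5 : (∑ j, if i = j then 0 else w1 (rr z i j)) = d := rfl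
  have e6 : (∑ j, if i = j then 0 else wh (rr z i j)) = dd z wh i := rfl
  have e7 : (∑ j, if i = j then 0 else 2 * (wh (rr z i j) * h (rr z i j))) =
      dd z (fun x => 2 * (wh x * h x)) i := rfl
  rw [e5, e6, e7] at key
  linarith

theorem S2_two (f g φ : ℝ → ℝ) (h : ∀ x, f x * g x = φ x) :
    S2 z (fun x => 2 * (f x * g x)) = 2 * S2 z φ := by
  simp only [S2, h, p2_mul]

/-- the first trace inequality -/
def H1 (z : Fin n → ℂ) : Prop := 0 ≤ n * (2 * n - 3) - S2 z w1
/-- the second trace inequality -/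
def H2 (z : Fin n → ℂ) : Prop :=
  0 ≤ 4 * n ^ 2 * (2 * n - 3) - 24 * n * S2 z w1 + (stq z w1 w1 0 + 2 * S2 z w2) +
    9 * (stq z w1 w1 2 + 2 * S2 z w2)
/-- the third trace inequality -/
def H3 (z : Fin n → ℂ) : Prop :=
  0 ≤ 8 * n ^ 3 * (2 * n - 3) - 120 * n ^ 2 * S2 z w1 + 30 * n * (stq z w1 w1 0 + 2 * S2 z w2) +
    54 * n * (stq z w1 w1 2 + 2 * S2 z w2) -
    (2 * ∑ i, dd z w1 i ^ 3 + 3 * stq z w1 w2 0 - S3 z (www 0)) -
    27 * (2 * ∑ i, dd z w1 i * normSq (AA z w1 2 i) + stq z w1 w2 0 + 2 * stq z w1 w2 2 -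
      S3 z (www 2))

theorem small_sound (hz : Function.Injective z) (hn : 3 ≤ n) (hc : ∀ i, AA z (evL lcc) 1 i = 0)
    (h1 : H1 z) (h2 : H2 z) (h3 : H3 z) (C : Ct) (hC : C.ok = true) (hN : Neg (C.terms n)) :
    False := by
  have hS := S3_nonpos hz hN
  simp only [Ct.ok, Bool.and_eq_true, nn0_iff] at hC
  obtain ⟨⟨⟨q1, q2⟩, q3⟩, q4⟩ := hC
  have q1' : (0 : ℝ) ≤ C.q1 := by exact_mod_cast q1
  have q2' : (0 : ℝ) ≤ C.q2 := by exact_mod_cast q2
  have q3' : (0 : ℝ) ≤ C.q3 - C.l1 * C.l1 := by exact_mod_cast q3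
  have q4' : (0 : ℝ) ≤ 27 * C.q3 - C.l0 * C.l0 - 2 * C.l0 * C.l1 := by exact_mod_cast q4
  have q5 : (0 : ℝ) ≤ C.q3 := by nlinarith
  have hq := IS_sqI hc C.sq C.g
  have hcub := cubic hz C.l0 C.l1 (evL C.h) (evL (shL (-3) C.h)) (fun x hx => evL_shL _ hx.ne' _)
  have hI := IS_eq hz (C.items n)
  have s1 : 0 ≤ ∑ i, dd z w1 i ^ 3 := sum_nonneg fun i _ => pow_nonneg (dd_nonneg i) _
  have s2 : 0 ≤ ∑ i, dd z w1 i * normSq (AA z w1 2 i) :=
    sum_nonneg fun i _ => mul_nonneg (dd_nonneg i) (normSq_nonneg _)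
  rw [Ct.terms, S3_cons, S3_append, S3_agg, S3_agg, Ct.pairs, Ct.trips, S3_append, S3_append,
    S3_append, S3_cons, S3_cons, S3_cst, S3_www, S3_www, S3_pairT hz, S3_pairT hz, S3_pairT hz,
    S3_itP hz, S3_itT, S2_two _ _ w1 (by simp [evL_lw, evL_lone]),
    S2_two _ _ w2 (by simp [evL_lw2, evL_lone])] at hS
  rw [Ct.items, IS_cons, IS_cons, IS_cons, IS_cons, IS_cons, IS_cons, ← Ct.items] at hI
  simp only [evL_lw, evL_lw2] at hI
  unfold H1 at h1
  unfold H2 at h2
  unfold H3 at h3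
  push_cast at hS hI
  have hn' : (3 : ℝ) ≤ n := by exact_mod_cast hn
  have hN3 : (0 : ℝ) < n * (n - 1) * (n - 2) := by
    have : (0 : ℝ) < n - 1 := by linarith
    have : (0 : ℝ) < n - 2 := by linarith
    positivity
  have a1 := mul_nonneg q1' h1
  have a2 := mul_nonneg q2' h2
  have a3 := mul_nonneg q5 h3
  have a4 := mul_nonneg q3' s1
  have a5 := mul_nonneg q4' s2
  generalize IP z (C.items n) = ip at *
  generalize IT z (C.items n) = it at *
  have key : (2 : ℝ) ≤ 2 * ((2 * n - 3) * (n * C.q1 + 2 * n * n * C.q2 + 4 * n * n * n * C.q3) + 1) +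
      (-(C.q1 + 12 * n * C.q2 + 60 * n * n * C.q3)) * (2 * S2 z w1) +
      (10 * C.q2 + 84 * n * C.q3) * (2 * S2 z w2) +
      S2 z (fun x => 2 * (evL (shL (-3) C.h) x * evL C.h x)) + (ip + it) +
      C.q3 * S3 z (www 0) + 27 * C.q3 * S3 z (www 2) := by
    rw [← hI]
    linarith
  have := mul_le_mul_of_nonneg_left key hN3.le
  nlinarith

theorem big_sound (hz : Function.Injective z) (hn : 11 ≤ n) (hc : ∀ i, AA z (evL lcc) 1 i = 0)
    (h1 : H1 z) (q : ℤ) (hq : 0 ≤ q) (sq : List (ℕ × LP)) (g : LP) (hN0 : Neg (big0 q sq g))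
    (hN1 : Neg (big1 q sq g)) : False := by
  have hS0 := S3_nonpos hz hN0
  have hS1 := S3_nonpos hz hN1
  have hs := IS_sqI hc sq g
  rw [IS_eq hz] at hs
  rw [big0, S3_cons, S3_append, S3_agg, S3_cst, S3_pairT hz, S3_itT,
    S2_two _ _ w1 (by simp [evL_lw, evL_lone])] at hS0
  rw [big1, S3_cons, S3_append, S3_agg, S3_agg, S3_append, S3_cst, S3_pairT hz, S3_itP hz, S3_itT,
    S2_two _ _ w1 (by simp [evL_lw, evL_lone])] at hS1
  unfold H1 at h1
  push_cast at hS0 hS1
  have hq' : (0 : ℝ) ≤ q := by exact_mod_cast hq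
  obtain ⟨m, rfl⟩ := Nat.exists_eq_add_of_le' hn
  push_cast at *
  generalize IP z (sqI sq g) = ip at *
  generalize IT z (sqI sq g) = it at *
  generalize S2 z w1 = t at *
  have hm : (0 : ℝ) ≤ m := Nat.cast_nonneg m
  generalize (m : ℝ) = x at *
  have a1 := mul_nonneg (show 0 ≤ 10 * x by positivity) (neg_nonneg.2 hS0)
  have a2 := mul_nonneg (show 0 ≤ 10 * (x + 9) by positivity) hs
  have a3 := mul_nonneg (show 0 ≤ 20 * (x + 9) ^ 2 * q by positivity) h1
  have a4 : 0 ≤ 2 * (x + 11) * (x + 9) * x * q := by positivity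
  have a5 : 0 < (x + 11) * (x + 10) * (x + 9) * (20 * x + 2) := by positivity
  nlinarith

end Pool.Agent.MP_4948b4_mp

end

-- part MP_4948b4_mp.Trace
section

/-!
The trace inequalities in terms of the geometry of a normalised central configuration.
-/

namespace Pool.Agent.MP_4948b4_mp

open Matrix Complex Finset ComplexConjugate

variable {n : ℕ}

def offM (a : Fin n → Fin n → ℂ) : Matrix (Fin n) (Fin n) ℂ :=
  of fun i j => if i = j then 0 else a i j
def rs (a : Fin n → Fin n → ℂ) (i : Fin n) : ℂ := ∑ j, if i = j then 0 else a i j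
def lapM (a : Fin n → Fin n → ℂ) : Matrix (Fin n) (Fin n) ℂ := diagonal (rs a) - offM a

theorem lapM_mulVec (a : Fin n → Fin n → ℂ) (x : Fin n → ℂ) (i : Fin n) :
    (lapM a *ᵥ x) i = ∑ j, if i = j then 0 else a i j * (x i - x j) := by
  rw [lapM, sub_mulVec, Pi.sub_apply, mulVec_diagonal, rs, sum_mul, mulVec, dotProduct,
    ← sum_sub_distrib]
  refine sum_congr rfl fun j _ => ?_
  simp only [offM, of_apply]
  split
  · simp
  · ring

theorem tr_d_o (d : Fin n → ℂ) (a : Fin n → Fin n → ℂ) : trace (diagonal d * offM a) = 0 := by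
  simp [trace, offM]

theorem tr_d_o_o (d : Fin n → ℂ) (a b : Fin n → Fin n → ℂ) :
    trace (diagonal d * offM a * offM b) = ∑ i, d i * rs (fun i j => a i j * b j i) i := by
  simp only [trace, diag_apply, Matrix.mul_assoc, diagonal_mul, rs]
  refine sum_congr rfl fun i _ => ?_
  rw [mul_apply]
  congr 1
  refine sum_congr rfl fun j _ => ?_
  by_cases h : i = j
  · simp [offM, h]
  · simp [offM, h, Ne.symm h]

theorem tr_o_o (a b : Fin n → Fin n → ℂ) :
    trace (offM a * offM b) = p2 (fun i j => a i j * b j i) := by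
  have := tr_d_o_o (fun _ => 1) a b
  simpa [rs, p2] using this

theorem tr_o_o_o (a b c : Fin n → Fin n → ℂ) :
    trace (offM a * offM b * offM c) = p3 (fun i j k => a j k * b k i * c i j) := by
  rw [trace_mul_cycle]
  simp only [trace, diag_apply, Matrix.mul_assoc, mul_apply, mul_sum, p3]
  refine sum_congr rfl fun i _ => sum_congr rfl fun j _ => sum_congr rfl fun k _ => ?_
  simp only [offM, of_apply]
  by_cases h1 : i = j
  · simp [h1]
  by_cases h2 : i = k
  · simp [h2]
  by_cases h3 : j = k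
  · simp [h3]
  simp [h1, h2, h3, Ne.symm h2]
  ring

theorem tr1 (a : Fin n → Fin n → ℂ) : trace (lapM a) = p2 a := by
  have := tr_d_o (fun _ => 1) a
  rw [diagonal_one, Matrix.one_mul] at this
  rw [lapM, trace_sub, this, trace_diagonal, sub_zero]; rfl

theorem tr2 (a b : Fin n → Fin n → ℂ) : trace (lapM a * lapM b) =
    ∑ i, rs a i * rs b i + p2 (fun i j => a i j * b j i) := by
  simp only [lapM, Matrix.mul_sub, Matrix.sub_mul, trace_sub, diagonal_mul_diagonal, trace_diagonal,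
    tr_d_o, tr_o_o, trace_mul_comm (offM a) (diagonal _)]
  ring

theorem tr3 (a b c : Fin n → Fin n → ℂ) : trace (lapM a * lapM b * lapM c) =
    ∑ i, rs a i * rs b i * rs c i + ∑ i, rs a i * rs (fun i j => b i j * c j i) i +
      ∑ i, rs b i * rs (fun i j => c i j * a j i) i + ∑ i, rs c i * rs (fun i j => a i j * b j i) i -
      p3 (fun i j k => a j k * b k i * c i j) := by
  have e1 : trace (diagonal (rs a) * offM b * diagonal (rs c)) = 0 := by
    rw [trace_mul_cycle, diagonal_mul_diagonal, tr_d_o]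
  have e2 : trace (offM a * diagonal (rs b) * diagonal (rs c)) = 0 := by
    rw [Matrix.mul_assoc, trace_mul_comm, diagonal_mul_diagonal, tr_d_o]
  have e3 : trace (offM a * offM b * diagonal (rs c)) =
      ∑ i, rs c i * rs (fun i j => a i j * b j i) i := by
    rw [trace_mul_cycle, tr_d_o_o]
  have e4 : trace (offM a * diagonal (rs b) * offM c) =
      ∑ i, rs b i * rs (fun i j => c i j * a j i) i := by
    rw [← trace_mul_cycle, tr_d_o_o]
  simp only [lapM, Matrix.mul_sub, Matrix.sub_mul, trace_sub, e1, e2, e3, e4, tr_d_o_o, tr_o_o_o]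
  simp only [diagonal_mul_diagonal, trace_diagonal, tr_d_o]
  ring

variable (z : Fin n → ℂ)

noncomputable def aL (i j : Fin n) : ℂ := w1 (rr z i j)
noncomputable def aN (i j : Fin n) : ℂ := w1 (rr z i j) * uu z i j ^ 2
noncomputable def aN' (i j : Fin n) : ℂ := w1 (rr z i j) * conj (uu z i j) ^ 2

theorem uu_sq (i j : Fin n) : uu z j i ^ 2 = uu z i j ^ 2 := by
  rw [uu, uu, rr_comm z j i]; ring

theorem aL_symm (i j : Fin n) : aL z j i = aL z i j := by rw [aL, aL, rr_comm]
theorem aN_symm (i j : Fin n) : aN z j i = aN z i j := by rw [aN, aN, rr_comm, uu_sq]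
theorem aN'_symm (i j : Fin n) : aN' z j i = aN' z i j := by
  rw [aN', aN', rr_comm, ← map_pow, uu_sq, map_pow]

theorem rs_aL (i : Fin n) : rs (aL z) i = dd z w1 i := by
  rw [← AA_zero]; simp [rs, AA, aL]
theorem rs_aN (i : Fin n) : rs (aN z) i = AA z w1 2 i := rfl
theorem conj_AA (f : ℝ → ℝ) (m : ℕ) (i : Fin n) : conj (AA z f m i) =
    ∑ j, if i = j then 0 else (f (rr z i j) : ℂ) * conj (uu z i j) ^ m := by
  rw [AA, map_sum]
  refine sum_congr rfl fun j _ => ?_
  split <;> simp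
theorem rs_aN' (i : Fin n) : rs (aN' z) i = conj (AA z w1 2 i) := (conj_AA z w1 2 i).symm

theorem rs_congr {a b : Fin n → Fin n → ℂ} (h : ∀ i j, i ≠ j → a i j = b i j) (i : Fin n) :
    rs a i = rs b i :=
  sum_congr rfl fun j _ => by
    split
    · rfl
    · exact h i j ‹_›

variable {z}

theorem w1_sq {x : ℝ} (hx : 0 < x) : w1 x * w1 x = w2 x := by
  rw [w1, w2, ← zpow_add₀ hx.ne']; norm_num

theorem w1_sq' (hz : Function.Injective z) {i j : Fin n} (h : i ≠ j) :
    (w1 (rr z i j) : ℂ) * w1 (rr z i j) = w2 (rr z i j) := by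
  rw [← ofReal_mul, w1_sq (rr_pos hz h)]

theorem mLL (hz : Function.Injective z) {i j : Fin n} (h : i ≠ j) :
    aL z i j * aL z j i = w2 (rr z i j) := by rw [aL_symm z i j, aL, w1_sq' hz h]
theorem mNN' (hz : Function.Injective z) {i j : Fin n} (h : i ≠ j) :
    aN z i j * aN' z j i = w2 (rr z i j) := by
  rw [aN'_symm z i j, aN, aN', mul_mul_mul_comm, w1_sq' hz h, ← mul_pow, uu_mul_conj hz h]; simp
theorem mN'N (hz : Function.Injective z) {i j : Fin n} (h : i ≠ j) :
    aN' z i j * aN z j i = w2 (rr z i j) := by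
  rw [mul_comm, mNN' hz h.symm, rr_comm]
theorem mLN (hz : Function.Injective z) {i j : Fin n} (h : i ≠ j) :
    aL z i j * aN z j i = w2 (rr z i j) * uu z i j ^ 2 := by
  rw [aN_symm z i j, aL, aN, ← mul_assoc, w1_sq' hz h]
theorem mLN' (hz : Function.Injective z) {i j : Fin n} (h : i ≠ j) :
    aL z i j * aN' z j i = w2 (rr z i j) * conj (uu z i j) ^ 2 := by
  rw [aN'_symm z i j, aL, aN', ← mul_assoc, w1_sq' hz h]

theorem rs_real (f : ℝ → ℝ) (i : Fin n) : rs (fun i j => (f (rr z i j) : ℂ)) i = dd z f i := by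
  rw [← AA_zero]; simp [rs, AA]

theorem re_conj_mul (x y : ℂ) : (conj x * y).re = (x * conj y).re := by simp

theorem trL : (trace (lapM (aL z))).re = S2 z w1 := by
  rw [tr1, re_p2]; simp [aL, S2]

theorem trLL (hz : Function.Injective z) :
    2 * (trace (lapM (aL z) * lapM (aL z))).re = stq z w1 w1 0 + 2 * S2 z w2 := by
  rw [tr2, p2_congr (fun i j h => mLL hz h), add_re, re_p2, re_sum, stq_zero, mul_add, mul_sum]
  simp [rs_aL, S2]

theorem trNN (hz : Function.Injective z) :
    2 * (trace (lapM (aN z) * lapM (aN' z))).re = stq z w1 w1 2 + 2 * S2 z w2 := by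
  rw [tr2, p2_congr (fun i j h => mNN' hz h), add_re, re_p2, re_sum, stq, mul_add, mul_sum]
  simp only [rs_aN, rs_aN', S2, ofReal_re]

theorem trLLL (hz : Function.Injective z) :
    2 * (trace (lapM (aL z) * lapM (aL z) * lapM (aL z))).re =
      2 * ∑ i, dd z w1 i ^ 3 + 3 * stq z w1 w2 0 - S3 z (www 0) := by
  have e : 2 * (p3 fun i j k => aL z j k * aL z k i * aL z i j).re = S3 z (www 0) := by
    rw [re_p3, ← p3_mul]
    refine p3_congr fun i j k _ _ _ => ?_
    rw [aL_symm z i k]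
    simp only [aL, ← ofReal_mul, ofReal_re, www, tau, w1]; ring
  rw [tr3, sub_re, mul_sub, e, stq_zero]
  simp only [rs_congr (fun i j h => mLL hz h), rs_real, rs_aL, add_re, re_sum, ← ofReal_mul,
    ofReal_re, ← mul_sum, pow_three, mul_assoc]
  ring

theorem trLNN (hz : Function.Injective z) :
    2 * (trace (lapM (aL z) * lapM (aN z) * lapM (aN' z))).re =
      2 * ∑ i, dd z w1 i * normSq (AA z w1 2 i) + stq z w1 w2 0 + 2 * stq z w1 w2 2 -
        S3 z (www 2) ∧
    2 * (trace (lapM (aL z) * lapM (aN' z) * lapM (aN z))).re =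
      2 * ∑ i, dd z w1 i * normSq (AA z w1 2 i) + stq z w1 w2 0 + 2 * stq z w1 w2 2 -
        S3 z (www 2) := by
  have e : 2 * (p3 fun i j k => aL z j k * aN z k i * aN' z i j).re = S3 z (www 2) := by
    rw [re_p3, ← p3_mul]
    refine p3_congr fun i j k h1 h2 _ => ?_
    rw [aN_symm z i k, www, ← re_uu_pow hz h1 h2, aL, aN, aN',
      show ∀ a b c x y : ℂ, a * (b * x) * (c * y) = a * b * c * (y * x) from fun _ _ _ _ _ => by ring,
      ← ofReal_mul, ← ofReal_mul, re_ofReal_mul, ← map_pow, re_conj_mul, map_pow]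
    simp only [w1]; ring
  have e' : 2 * (p3 fun i j k => aL z j k * aN' z k i * aN z i j).re = S3 z (www 2) := by
    rw [re_p3, ← p3_mul]
    refine p3_congr fun i j k h1 h2 _ => ?_
    rw [aN'_symm z i k, www, ← re_uu_pow hz h1 h2, aL, aN, aN',
      show ∀ a b c x y : ℂ, a * (b * x) * (c * y) = a * b * c * (y * x) from fun _ _ _ _ _ => by ring,
      ← ofReal_mul, ← ofReal_mul, re_ofReal_mul]
    simp only [w1]; ring
  have r1 : ∀ i, rs (fun i j => aL z i j * aN z j i) i = AA z w2 2 i :=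
    rs_congr (fun i j h => mLN hz h)
  have r2 : ∀ i, rs (fun i j => aN z i j * aL z j i) i = AA z w2 2 i :=
    rs_congr (fun i j h => by rw [mul_comm, mLN hz h.symm, rr_comm, uu_sq])
  have r3 : ∀ i, rs (fun i j => aL z i j * aN' z j i) i = conj (AA z w2 2 i) := fun i => by
    rw [conj_AA]; exact rs_congr (fun i j h => mLN' hz h) i
  have r4 : ∀ i, rs (fun i j => aN' z i j * aL z j i) i = conj (AA z w2 2 i) := fun i => by
    rw [conj_AA]
    refine rs_congr (b := fun i j => w2 (rr z i j) * conj (uu z i j) ^ 2) (fun i j h => ?_) i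
    rw [mul_comm, mLN' hz h.symm, rr_comm, ← map_pow, uu_sq, map_pow]
  have q1 : ∀ (d : ℝ) (x : ℂ), (d * x * conj x).re = d * normSq x := fun d x => by
    rw [mul_assoc, mul_conj, ← ofReal_mul, ofReal_re]
  have q2 : ∀ (d : ℝ) (x : ℂ), (d * conj x * x).re = d * normSq x := fun d x => by
    rw [mul_right_comm, q1]
  constructor
  · rw [tr3, sub_re, mul_sub, e, stq_zero, stq]
    simp only [rs_congr (fun i j h => mNN' hz h), rs_real, rs_aL, rs_aN, rs_aN', r1, r4, add_re,
      re_sum, ← ofReal_mul, ofReal_re, ← mul_sum, q1, re_conj_mul]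
    ring
  · rw [tr3, sub_re, mul_sub, e', stq_zero, stq]
    simp only [rs_congr (fun i j h => mN'N hz h), rs_real, rs_aL, rs_aN, rs_aN', r2, r3, add_re,
      re_sum, ← ofReal_mul, ofReal_re, ← mul_sum, q2, re_conj_mul]
    ring

variable (z) in
noncomputable def mP : Matrix (Fin n) (Fin n) ℂ := 1 + ((1 / (2 * n) : ℝ) : ℂ) • lapM (aL z)
variable (z) in
noncomputable def mQ : Matrix (Fin n) (Fin n) ℂ := ((3 / (2 * n) : ℝ) : ℂ) • lapM (aN z)
variable (z) in
noncomputable def mQ' : Matrix (Fin n) (Fin n) ℂ := ((3 / (2 * n) : ℝ) : ℂ) • lapM (aN' z)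

theorem H_of_traces (hz : Function.Injective z) (hn : 0 < n)
    (h : (trace (lin (mP z) (mQ z) (mQ' z) ^ 2)).re ≤ -6 ∧
      6 ≤ (trace (lin (mP z) (mQ z) (mQ' z) ^ 4)).re ∧
      (trace (lin (mP z) (mQ z) (mQ' z) ^ 6)).re ≤ -6) : H1 z ∧ H2 z ∧ H3 z := by
  obtain ⟨-, t2, t4, t6⟩ := lin_traces (mP z) (mQ z) (mQ' z)
  rw [t2, t4, t6] at h
  simp only [mP, mQ, mQ', Matrix.add_mul, Matrix.mul_add, Matrix.smul_mul, Matrix.mul_smul,
    Matrix.one_mul, Matrix.mul_one, trace_add, trace_smul, trace_one, smul_eq_mul, Fintype.card_fin,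
    add_re, sub_re, natCast_re, mul_re, re_ofNat, im_ofNat, zero_mul, sub_zero,
    ofReal_re, ofReal_im] at h
  rw [trace_mul_comm (lapM (aN' z)) (lapM (aN z))] at h
  unfold H1 H2 H3
  rw [← trLL hz, ← trNN hz, ← trLLL hz, ← (trLNN hz).1, ← trL]
  have e := (trLNN hz).1.trans (trLNN hz).2.symm
  have hn' : (0 : ℝ) < n := by exact_mod_cast hn
  obtain ⟨h1, h2, h3⟩ := h
  generalize (trace (lapM (aL z))).re = a1 at *
  generalize (trace (lapM (aL z) * lapM (aL z))).re = a2 at *
  generalize (trace (lapM (aL z) * lapM (aL z) * lapM (aL z))).re = a3 at *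
  generalize (trace (lapM (aN z) * lapM (aN' z))).re = b2 at *
  generalize (trace (lapM (aL z) * lapM (aN z) * lapM (aN' z))).re = b3 at *
  generalize (trace (lapM (aL z) * lapM (aN' z) * lapM (aN z))).re = b3' at *
  obtain rfl : b3 = b3' := by linarith
  refine ⟨?_, ?_, ?_⟩
  · refine (mul_nonneg (show (0 : ℝ) ≤ n / 2 by positivity) (sub_nonneg.2 h1)).trans_eq ?_
    field_simp; ring
  · refine (mul_nonneg (show (0 : ℝ) ≤ 2 * n ^ 2 by positivity) (sub_nonneg.2 h2)).trans_eq ?_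
    field_simp; ring
  · refine (mul_nonneg (show (0 : ℝ) ≤ 4 * n ^ 3 by positivity) (sub_nonneg.2 h3)).trans_eq ?_
    field_simp; ring

/-- normalised central configuration of `n` equal masses of total mass one -/
def CC (z : Fin n → ℂ) : Prop :=
  ∀ i, (∑ j, if i = j then 0 else aL z i j * (z i - z j)) = n * z i

theorem CC.sum_eq (hn : 0 < n) (h : CC z) : ∑ i, z i = 0 := by
  have e : (∑ i, ∑ j, if i = j then 0 else aL z i j * (z i - z j)) =
      -∑ i, ∑ j, if i = j then 0 else aL z i j * (z i - z j) := by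
    conv_lhs => rw [sum_comm]
    simp only [← sum_neg_distrib]
    refine sum_congr rfl fun i _ => sum_congr rfl fun j _ => ?_
    by_cases hij : i = j
    · simp [hij]
    · rw [if_neg hij, if_neg (Ne.symm hij), aL_symm]; ring
  simp only [h _, ← mul_sum] at e
  have hn' : (n : ℂ) ≠ 0 := by exact_mod_cast hn.ne'
  have : (2 * n : ℂ) * ∑ i, z i = 0 := by linear_combination e
  exact (mul_eq_zero.1 this).resolve_left (mul_ne_zero two_ne_zero hn')

theorem CC.AA_eq (hz : Function.Injective z) (hn : 0 < n) (h : CC z) (i : Fin n) :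
    AA z (evL lcc) 1 i = 0 := by
  have e : AA z (evL lcc) 1 i = (∑ j, if i = j then 0 else aL z i j * (z i - z j)) -
      ∑ j, (z i - z j) := by
    rw [AA, ← sum_sub_distrib]
    refine sum_congr rfl fun j _ => ?_
    split
    · rename_i hij; simp [hij]
    · rename_i hij
      have : (rr z i j : ℂ) ≠ 0 := by exact_mod_cast (rr_pos hz hij).ne'
      simp only [evL, lcc, aL, w1, uu, List.map_cons, List.map_nil, List.sum_cons, List.sum_nil]
      push_cast
      simp only [_root_.zpow_neg, zpow_ofNat]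
      field_simp
      ring
  rw [e, h i, sum_sub_distrib, h.sum_eq hn]
  simp

theorem aN_mul (hz : Function.Injective z) {i j : Fin n} (h : i ≠ j) :
    aN z i j * (conj (z i) - conj (z j)) = aL z i j * (z i - z j) := by
  have h0 : (rr z i j : ℂ) ≠ 0 := by exact_mod_cast (rr_pos hz h).ne'
  have h1 : z i - z j = uu z i j * rr z i j := by rw [uu, div_mul_cancel₀ _ h0]
  rw [← map_sub, h1, map_mul, conj_ofReal, aN, aL]
  linear_combination (w1 (rr z i j) * uu z i j * rr z i j) * uu_mul_conj hz h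

theorem no_stable (hz : Function.Injective z) (hn : 2 ≤ n) (h : CC z) {s : ℝ} (hs : s ≠ 0)
    (hst : ∀ (μ : ℂ) x, x ≠ 0 → lin (mP z) (mQ z) (mQ' z) *ᵥ x = μ • x → s * μ.re ≤ 0) :
    H1 z ∧ H2 z ∧ H3 z := by
  have hn0 : 0 < n := by omega
  have hn' : (n : ℂ) ≠ 0 := by exact_mod_cast hn0.ne'
  have s0 := h.sum_eq hn0
  have s1 : ∑ i, conj (z i) = 0 := by rw [← map_sum, s0, map_zero]
  have hI : ∑ i, conj (z i) * z i ≠ 0 := by
    intro h0
    simp only [← normSq_eq_conj_mul_self, ← ofReal_sum, ofReal_eq_zero] at h0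
    have := (sum_eq_zero_iff_of_nonneg (fun i _ => normSq_nonneg (z i))).1 h0
    have a := normSq_eq_zero.1 (this ⟨0, by omega⟩ (mem_univ _))
    have b := normSq_eq_zero.1 (this ⟨1, by omega⟩ (mem_univ _))
    have := hz (a.trans b.symm)
    simp at this
  have hI' : ∑ i, z i * conj (z i) = ∑ i, conj (z i) * z i := by simp only [mul_comm]
  have l1 : ∀ (a : Fin n → Fin n → ℂ) i, ∑ j, lapM a i j = 0 := fun a i => by
    have := lapM_mulVec a (fun _ => 1) i
    simpa [mulVec, dotProduct] using this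
  have l2 : ∀ i, ∑ j, lapM (aL z) i j * z j = n * z i := fun i =>
    (lapM_mulVec (aL z) z i).trans (h i)
  have l4 : ∀ i, ∑ j, lapM (aN z) i j * conj (z j) = n * z i := fun i => by
    refine (lapM_mulVec (aN z) (fun j => conj (z j)) i).trans (Eq.trans ?_ (h i))
    refine sum_congr rfl fun j _ => ?_
    split
    · rfl
    · exact aN_mul hz ‹_›
  have cj : ∀ (a b : Fin n → Fin n → ℂ) (x y : Fin n → ℂ), (∀ i j, b i j = conj (a i j)) →
      (∀ i, ∑ j, lapM a i j * x j = y i) → ∀ i, ∑ j, lapM b i j * conj (x j) = conj (y i) := by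
    intro a b x y hab hxy i
    refine (lapM_mulVec b (fun j => conj (x j)) i).trans ?_
    rw [← hxy i]
    refine Eq.trans ?_ (congrArg conj (lapM_mulVec a x i)).symm
    rw [map_sum]
    refine sum_congr rfl fun j _ => ?_
    split <;> simp [hab]
  have l3 := cj (aL z) (aL z) z _ (fun i j => by simp [aL]) l2
  have l5 := cj (aN z) (aN' z) _ _ (fun i j => by simp [aN, aN']) l4
  simp only [map_mul, conj_natCast, conj_conj] at l3 l5
  refine H_of_traces hz hn0 (lin_sign (Ea := of fun i => ![1, z i]) (Eb := of fun i => ![1, conj (z i)])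
    (Fa := of ![fun _ => 1 / n, fun i => conj (z i) / ∑ i, conj (z i) * z i])
    (Fb := of ![fun _ => 1 / n, fun i => z i / ∑ i, conj (z i) * z i]) ?_ ?_ ?_ ?_ ?_ ?_ hs hst)
  · ext a b
    fin_cases a <;> fin_cases b <;>
      simp [mul_apply, div_mul_eq_mul_div, ← sum_div, ← mul_sum, s0, s1, hn', hI]
  · ext a b
    fin_cases a <;> fin_cases b <;>
      simp [mul_apply, div_mul_eq_mul_div, ← sum_div, ← mul_sum, s0, s1, hn', hI, hI']
  · ext i b
    rw [mP, Matrix.add_mul, Matrix.one_mul, Matrix.smul_mul]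
    fin_cases b <;> simp [mul_apply, Ps, l1, l2]
    field_simp; ring
  · ext i b
    rw [mP, Matrix.add_mul, Matrix.one_mul, Matrix.smul_mul]
    fin_cases b <;> simp [mul_apply, Ps, l1, l3]
    field_simp; ring
  · ext i b
    rw [mQ, Matrix.smul_mul]
    fin_cases b <;> simp [mul_apply, Qs, l1, l4]
    field_simp
  · ext i b
    rw [mQ', Matrix.smul_mul]
    fin_cases b <;> simp [mul_apply, Qs, l1, l5]
    field_simp

end Pool.Agent.MP_4948b4_mp

end

-- part MP_4948b4_mp.Main
section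

/-!
From the trace inequalities to an unstable eigenvalue of the linearised flow.
-/

namespace Pool.Agent.MP_4948b4_mp

open Matrix Complex Finset ComplexConjugate

variable {n : ℕ}

theorem sum_erase_ite {M : Type} [AddCommMonoid M] (i : Fin n) (f : Fin n → M) :
    ∑ j ∈ univ.erase i, f j = ∑ j, if i = j then 0 else f j := by
  rw [← sum_erase_add (a := i) _ _ (mem_univ i), if_pos rfl, add_zero]
  exact sum_congr rfl fun j hj => (if_neg (mem_erase.1 hj).1.symm).symm

theorem omega_ne (hn : 2 ≤ n) {μ : ℝ} (hμ : 0 < μ) {ω : ℝ} {q : Fin n → ℂ}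
    (hq : Function.Injective q) (h : rotField (fun _ => μ) ω (q, 0) = 0) : ω ≠ 0 := by
  rintro rfl
  obtain ⟨i, -, hi⟩ := exists_max_image univ (fun i => normSq (q i)) ⟨⟨0, by omega⟩, mem_univ _⟩
  have h1 := congrFun (congrArg Prod.snd h) i
  simp only [rotField, ofReal_zero, ne_eq, OfNat.ofNat_ne_zero, not_false_eq_true, zero_pow,
    zero_mul, mul_zero, sub_self, zero_add, Prod.snd_zero, Pi.zero_apply] at h1
  have h2 := congrArg (fun x => (conj (q i) * x).re) h1
  simp only [mul_sum, re_sum, mul_zero, zero_re] at h2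
  have hne : (univ.erase i).Nonempty := by
    rw [← card_pos, card_erase_of_mem (mem_univ i), card_univ, Fintype.card_fin]; omega
  refine (sum_neg (fun j hj => ?_) hne).ne h2
  have hd : q j - q i ≠ 0 := sub_ne_zero.2 (hq.ne (mem_erase.1 hj).1)
  have hr : 0 < ‖q j - q i‖ := norm_pos_iff.2 hd
  have e : conj (q i) * (μ * ((q j - q i) / (‖q j - q i‖ : ℂ) ^ 3)) =
      ((μ / ‖q j - q i‖ ^ 3 : ℝ) : ℂ) * (conj (q i) * (q j - q i)) := by push_cast; ring
  rw [e, re_ofReal_mul]
  refine mul_neg_of_pos_of_neg (by positivity) ?_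
  have a1 := hi j (mem_univ j)
  have a2 := normSq_pos.2 hd
  simp only [normSq_apply, sub_re, sub_im, mul_re, conj_re, conj_im] at a1 a2 ⊢
  nlinarith

theorem dot_lapM {a : Fin n → Fin n → ℂ} (ha : ∀ i j, a j i = a i j) (x y : Fin n → ℂ) :
    ∑ i, x i * (lapM a *ᵥ y) i = ∑ i, (lapM a *ᵥ x) i * y i := by
  have hs : (lapM a)ᵀ = lapM a := by
    ext i j
    simp only [lapM, transpose_apply, Matrix.sub_apply, diagonal_apply, offM, of_apply]
    by_cases h : i = j
    · simp [h]
    · simp [h, Ne.symm h, ha]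
  have := dotProduct_mulVec x (lapM a) y
  rw [← mulVec_transpose, hs] at this
  exact this

theorem conj_lapM {a b : Fin n → Fin n → ℂ} (h : ∀ i j, b i j = conj (a i j)) (x : Fin n → ℂ)
    (i : Fin n) : (lapM b *ᵥ fun j => conj (x j)) i = conj ((lapM a *ᵥ x) i) := by
  rw [lapM_mulVec, lapM_mulVec, map_sum]
  refine sum_congr rfl fun j _ => ?_
  split <;> simp [h]

theorem lapM_one (a : Fin n → Fin n → ℂ) (i : Fin n) : (lapM a *ᵥ fun _ => 1) i = 0 := by
  simp [lapM_mulVec]

/-- the real vector attached to a complex one -/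
noncomputable def re2 (a b : Fin n → ℂ) : Fin n → ℂ := fun i => (a i + conj (b i)) / 2

theorem unstable_of (hn : 2 ≤ n)
    (geo : ∀ z : Fin n → ℂ, Function.Injective z → CC z → H1 z → H2 z → H3 z → False)
    {μ : ℝ} (hμ : 0 < μ) {ω : ℝ} {q : Fin n → ℂ} (hq : Function.Injective q)
    (h : rotField (fun _ => μ) ω (q, 0) = 0) :
    ∃ (α β : ℝ) (u w : (Fin n → ℂ) × (Fin n → ℂ)), 0 < α ∧
      fderiv ℝ (rotField (fun _ => μ) ω) (q, 0) u = α • u - β • w ∧
      fderiv ℝ (rotField (fun _ => μ) ω) (q, 0) w = β • u + α • w ∧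
      Tangent (fun _ => μ) ω q u ∧ Tangent (fun _ => μ) ω q w ∧
      ¬ (u ∈ Submodule.span ℝ {((fun i => I * q i), 0)} ∧
        w ∈ Submodule.span ℝ {((fun i => I * q i), 0)}) := by
  have hω := omega_ne hn hμ hq h
  have hn0 : (0 : ℝ) < n := by exact_mod_cast (by omega : 0 < n)
  have hnc : (n : ℂ) ≠ 0 := by exact_mod_cast hn0.ne'
  have hωc : (ω : ℂ) ≠ 0 := by exact_mod_cast hω
  have hμc : (μ : ℂ) ≠ 0 := by exact_mod_cast hμ.ne'
  obtain ⟨ρ, hρ, hρ3⟩ : ∃ ρ : ℝ, 0 < ρ ∧ ρ ^ 3 = n * μ / ω ^ 2 :=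
    ⟨(n * μ / ω ^ 2) ^ ((3 : ℕ) : ℝ)⁻¹, by positivity,
      Real.rpow_inv_natCast_pow (by positivity) (by norm_num)⟩
  have hρc : (ρ : ℂ) ≠ 0 := by exact_mod_cast hρ.ne'
  have hρ3c : (ρ : ℂ) ^ 3 = n * μ / ω ^ 2 := by exact_mod_cast hρ3
  obtain ⟨z, rfl⟩ : ∃ z : Fin n → ℂ, q = fun i => ρ * z i :=
    ⟨fun i => q i / ρ, funext fun i => by field_simp⟩
  have hz : Function.Injective z := fun i j e => hq (by simp only [e])
  have hr : ∀ i j, (‖ρ * z j - ρ * z i‖ : ℂ) = ρ * rr z i j := fun i j => by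
    rw [← mul_sub, norm_mul, norm_real, Real.norm_of_nonneg hρ.le, rr_comm, rr]; push_cast; ring
  have hw : ∀ i j, aL z i j = ((rr z i j : ℂ) ^ 3)⁻¹ := fun i j => by
    simp [aL, w1]
  have hcc : CC z := fun i => by
    have h1 := congrFun (congrArg Prod.snd h) i
    simp only [rotField, Pi.zero_apply, mul_zero, sub_zero, Prod.snd_zero, hr] at h1
    rw [← sum_erase_ite]
    have e : ∑ j ∈ univ.erase i, (μ : ℂ) * ((ρ * z j - ρ * z i) / (ρ * rr z i j) ^ 3) =
        -(ω ^ 2 * ρ / n) * ∑ j ∈ univ.erase i, aL z i j * (z i - z j) := by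
      rw [mul_sum]
      refine sum_congr rfl fun j hj => ?_
      have : (rr z i j : ℂ) ≠ 0 := by exact_mod_cast (rr_pos hz (mem_erase.1 hj).1.symm).ne'
      rw [hw, mul_pow, hρ3c]
      field_simp
      ring
    rw [e] at h1
    apply mul_left_cancel₀ (show (ω : ℂ) ^ 2 * ρ / n ≠ 0 by positivity)
    linear_combination -h1 - ω ^ 2 * ρ * z i * div_self hnc
  have hD : ∀ v : (Fin n → ℂ) × (Fin n → ℂ),
      fderiv ℝ (rotField (fun _ => μ) ω) (fun i => ρ * z i, 0) v = (v.2, fun i =>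
        ω ^ 2 * ((mP z *ᵥ v.1) i + (mQ z *ᵥ fun j => conj (v.1 j)) i) - 2 * ω * I * v.2 i) := by
    intro v
    rw [fderiv_rotField _ _ hq]
    refine Prod.ext rfl (funext fun i => ?_)
    simp only [mP, mQ, add_mulVec, smul_mulVec, one_mulVec, Pi.add_apply, Pi.smul_apply,
      lapM_mulVec, smul_eq_mul, ← sum_erase_ite, hr]
    have e : ∑ j ∈ univ.erase i, (μ : ℂ) * (-(1 / 2) * (v.1 j - v.1 i) / (ρ * rr z i j) ^ 3 -
        3 / 2 * ((ρ * z j - ρ * z i) / (ρ * rr z i j)) ^ 2 * conj (v.1 j - v.1 i) /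
          (ρ * rr z i j) ^ 3) =
        ω ^ 2 * (((1 / (2 * n) : ℝ) : ℂ) * ∑ j ∈ univ.erase i, aL z i j * (v.1 i - v.1 j) +
          ((3 / (2 * n) : ℝ) : ℂ) * ∑ j ∈ univ.erase i, aN z i j * (conj (v.1 i) - conj (v.1 j))) := by
      rw [mul_sum, mul_sum, ← sum_add_distrib, mul_sum]
      refine sum_congr rfl fun j hj => ?_
      have : (rr z i j : ℂ) ≠ 0 := by exact_mod_cast (rr_pos hz (mem_erase.1 hj).1.symm).ne'
      have e1 : aN z i j = aL z i j * ((z i - z j) / rr z i j) ^ 2 := rfl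
      rw [e1, hw, mul_pow (ρ : ℂ) _ 3, hρ3c, map_sub]
      push_cast
      field_simp
      ring
    rw [e]; ring
  obtain ⟨l, x, hx0, hx, hl⟩ : ∃ (l : ℂ) (x : _), x ≠ 0 ∧
      lin (mP z) (mQ z) (mQ' z) *ᵥ x = l • x ∧ 0 < ω * l.re := by
    by_contra hc
    push Not at hc
    obtain ⟨h1, h2, h3⟩ := no_stable hz hn hcc hω hc
    exact geo z hz hcc h1 h2 h3
  have hlre : l.re ≠ 0 := fun h0 => by simp [h0] at hl
  set a : Fin n → ℂ := fun i => x (Sum.inl (Sum.inl i)) with ha
  set b : Fin n → ℂ := fun i => x (Sum.inl (Sum.inr i)) with hb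
  have x1 : ∀ i, x (Sum.inr (Sum.inl i)) = l * a i := fun i => by
    have := congrFun hx (Sum.inl (Sum.inl i))
    simpa [lin, fromBlocks_mulVec] using this
  have x2 : ∀ i, x (Sum.inr (Sum.inr i)) = l * b i := fun i => by
    have := congrFun hx (Sum.inl (Sum.inr i))
    simpa [lin, fromBlocks_mulVec] using this
  have x3 : ∀ i, (mP z *ᵥ a) i + (mQ z *ᵥ b) i = (l ^ 2 + 2 * I * l) * a i := fun i => by
    have := congrFun hx (Sum.inr (Sum.inl i))
    simp only [lin, gy, fromBlocks_mulVec, Sum.elim_inr, Sum.elim_inl, Pi.add_apply, smul_mulVec,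
      one_mulVec, zero_mulVec, Pi.smul_apply, Function.comp, Pi.zero_apply, smul_eq_mul, x1] at this
    change (mP z *ᵥ a) i + (mQ z *ᵥ b) i + _ = _ at this
    linear_combination this
  have x4 : ∀ i, (mQ' z *ᵥ a) i + (mP z *ᵥ b) i = (l ^ 2 - 2 * I * l) * b i := fun i => by
    have := congrFun hx (Sum.inr (Sum.inr i))
    simp only [lin, gy, fromBlocks_mulVec, Sum.elim_inr, Pi.add_apply, smul_mulVec,
      one_mulVec, zero_mulVec, Pi.smul_apply, Function.comp, Pi.zero_apply, smul_eq_mul, x2] at this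
    change (mQ' z *ᵥ a) i + (mP z *ᵥ b) i + _ = _ at this
    linear_combination this
  have cP : ∀ (y : Fin n → ℂ) i, (mP z *ᵥ fun j => conj (y j)) i = conj ((mP z *ᵥ y) i) := by
    intro y i
    simp only [mP, add_mulVec, smul_mulVec, one_mulVec, Pi.add_apply, Pi.smul_apply, smul_eq_mul,
      conj_lapM (a := aL z) (b := aL z) (fun i j => by simp [aL]), map_add, map_mul, conj_ofReal]
  have cQ : ∀ (y : Fin n → ℂ) i, (mQ z *ᵥ fun j => conj (y j)) i = conj ((mQ' z *ᵥ y) i) := by
    intro y i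
    simp only [mQ, mQ', smul_mulVec, Pi.smul_apply, smul_eq_mul,
      conj_lapM (a := aN' z) (b := aN z) (fun i j => by simp [aN, aN']), map_mul, conj_ofReal]
  have key : ∀ c : ℂ, fderiv ℝ (rotField (fun _ => μ) ω) (fun i => ρ * z i, 0)
      (re2 (c • a) (c • b), re2 ((c * (ω * l)) • a) ((c * (ω * l)) • b)) =
      (re2 ((c * (ω * l)) • a) ((c * (ω * l)) • b),
        re2 ((c * (ω * l) ^ 2) • a) ((c * (ω * l) ^ 2) • b)) := by
    intro c
    rw [hD]
    refine Prod.ext rfl (funext fun i => ?_)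
    have e1 : re2 (c • a) (c • b) = (c / 2) • a + (conj c / 2) • fun j => conj (b j) := by
      funext j; simp [re2]; ring
    have e2 : (fun j => conj (re2 (c • a) (c • b) j)) =
        (conj c / 2) • (fun j => conj (a j)) + (c / 2) • b := by
      funext j; simp [re2, map_ofNat]; ring
    have y4 := congrArg conj (x4 i)
    simp only [map_add, map_mul, map_sub, map_pow, conj_I, map_ofNat] at y4
    simp only [e2]
    simp only [e1, mulVec_add, mulVec_smul, Pi.add_apply, Pi.smul_apply, smul_eq_mul, cP, cQ]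
    simp only [re2, Pi.smul_apply, smul_eq_mul, map_mul, map_pow, conj_ofReal]
    linear_combination (ω ^ 2 * c / 2) * x3 i + (ω ^ 2 * conj c / 2) * y4
  have lin1 : ∀ c : ℂ, re2 ((c * (ω * l)) • a) ((c * (ω * l)) • b) =
      (ω * l.re) • re2 (c • a) (c • b) - (ω * l.im) • re2 ((c * -I) • a) ((c * -I) • b) := by
    intro c
    funext i
    have e := (re_add_im l).symm
    simp only [re2, Pi.smul_apply, Pi.sub_apply, smul_eq_mul, real_smul]
    generalize l.re = s at *
    generalize l.im = t at *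
    subst e
    simp only [map_mul, map_add, map_neg, conj_ofReal, conj_I]
    push_cast; ring
  have sP : ∀ x y : Fin n → ℂ, ∑ i, x i * (mP z *ᵥ y) i = ∑ i, (mP z *ᵥ x) i * y i := by
    intro x y
    simp only [mP, add_mulVec, smul_mulVec, one_mulVec, Pi.add_apply, Pi.smul_apply, smul_eq_mul,
      mul_add, add_mul, sum_add_distrib, mul_left_comm (x _), mul_assoc, ← mul_sum,
      dot_lapM (aL_symm z)]
  have sQ : ∀ x y : Fin n → ℂ, ∑ i, x i * (mQ z *ᵥ y) i = ∑ i, (mQ z *ᵥ x) i * y i := by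
    intro x y
    simp only [mQ, smul_mulVec, Pi.smul_apply, smul_eq_mul, mul_left_comm (x _), mul_assoc,
      ← mul_sum, dot_lapM (aN_symm z)]
  have sQ' : ∀ x y : Fin n → ℂ, ∑ i, x i * (mQ' z *ᵥ y) i = ∑ i, (mQ' z *ᵥ x) i * y i := by
    intro x y
    simp only [mQ', smul_mulVec, Pi.smul_apply, smul_eq_mul, mul_left_comm (x _), mul_assoc,
      ← mul_sum, dot_lapM (aN'_symm z)]
  have p1 : ∀ i, (mP z *ᵥ fun _ => 1) i = 1 := fun i => by simp [mP, add_mulVec, smul_mulVec, lapM_one]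
  have q1 : ∀ i, (mQ z *ᵥ fun _ => 1) i = 0 := fun i => by simp [mQ, smul_mulVec, lapM_one]
  have q1' : ∀ i, (mQ' z *ᵥ fun _ => 1) i = 0 := fun i => by simp [mQ', smul_mulVec, lapM_one]
  have pz : ∀ i, (mP z *ᵥ z) i = 3 / 2 * z i := fun i => by
    simp only [mP, add_mulVec, smul_mulVec, one_mulVec, Pi.add_apply, Pi.smul_apply, smul_eq_mul,
      lapM_mulVec, hcc i]
    push_cast; field_simp; ring
  have qz : ∀ i, (mQ z *ᵥ fun j => conj (z j)) i = 3 / 2 * z i := fun i => by
    have : (∑ j, if i = j then 0 else aN z i j * (conj (z i) - conj (z j))) = n * z i := by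
      rw [← hcc i]
      refine sum_congr rfl fun j _ => ?_
      split
      · rfl
      · exact aN_mul hz ‹_›
    simp only [mQ, smul_mulVec, Pi.smul_apply, smul_eq_mul, lapM_mulVec, this]
    push_cast; field_simp
  have pz' : ∀ i, (mP z *ᵥ fun j => conj (z j)) i = 3 / 2 * conj (z i) := fun i => by
    rw [cP, pz]; simp [map_ofNat]
  have qz' : ∀ i, (mQ' z *ᵥ z) i = 3 / 2 * conj (z i) := fun i => by
    have := congrArg conj ((cQ z i).symm.trans (qz i))
    simpa [map_ofNat] using this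
  have sa : ∑ i, a i = 0 := by
    have e1 := sP (fun _ => 1) a
    have e2 := sQ (fun _ => 1) b
    have e3 := sum_congr (s₁ := univ) rfl (fun i _ => x3 i)
    simp only [one_mul, p1, q1, zero_mul, sum_const_zero] at e1 e2
    rw [sum_add_distrib, e1, e2, ← mul_sum] at e3
    have : (l + I) ^ 2 * ∑ i, a i = 0 := by linear_combination -e3 + (∑ i, a i) * I_sq
    refine (mul_eq_zero.1 this).resolve_left (pow_ne_zero _ fun h0 => hlre ?_)
    simpa using congrArg re h0
  have sb : ∑ i, b i = 0 := by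
    have e1 := sP (fun _ => 1) b
    have e2 := sQ' (fun _ => 1) a
    have e3 := sum_congr (s₁ := univ) rfl (fun i _ => x4 i)
    simp only [one_mul, p1, q1', zero_mul, sum_const_zero] at e1 e2
    rw [sum_add_distrib, e1, e2, ← mul_sum] at e3
    have : (l - I) ^ 2 * ∑ i, b i = 0 := by linear_combination -e3 + (∑ i, b i) * I_sq
    refine (mul_eq_zero.1 this).resolve_left (pow_ne_zero _ fun h0 => hlre ?_)
    simpa using congrArg re h0
  have sre : ∀ c : ℂ, ∑ i, re2 (c • a) (c • b) i = 0 := fun c => by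
    simp only [re2, Pi.smul_apply, smul_eq_mul, ← sum_div, sum_add_distrib, ← map_sum, ← mul_sum,
      sa, sb]
    simp
  have sJ : 2 * I * (∑ i, conj (z i) * a i + ∑ i, z i * b i) +
      l * (∑ i, conj (z i) * a i - ∑ i, z i * b i) = 0 := by
    have e1 := sP (fun j => conj (z j)) a
    have e2 := sQ (fun j => conj (z j)) b
    have e3 := sum_congr (s₁ := univ) rfl (fun i _ => congrArg (conj (z i) * ·) (x3 i))
    have e4 := sP z b
    have e5 := sQ' z a
    have e6 := sum_congr (s₁ := univ) rfl (fun i _ => congrArg (z i * ·) (x4 i))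
    simp only [pz, qz, pz', qz', mul_assoc, ← mul_sum] at e1 e2 e4 e5
    simp only [mul_add (conj (z _)), mul_add (z _), sum_add_distrib, e1, e2, e4, e5,
      mul_left_comm (conj (z _)), mul_left_comm (z _), ← mul_sum] at e3 e6
    have l0 : l ≠ 0 := fun h0 => hlre (by simp [h0])
    apply mul_left_cancel₀ l0
    linear_combination e6 - e3
  have tan : ∀ c : ℂ, Tangent (fun _ => μ) ω (fun i => ρ * z i)
      (re2 (c • a) (c • b), re2 ((c * (ω * l)) • a) ((c * (ω * l)) • b)) := by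
    intro c
    refine ⟨by simp only [← mul_sum, sre, mul_zero], by
      simp only [← mul_sum, sum_add_distrib, sre, mul_zero, add_zero], ?_⟩
    rw [fderiv_angMom, ← mul_sum]
    have e := congrArg (fun t => (ρ * ω / 2 * c * t).im) sJ
    simp only [mul_zero, zero_im, ← sum_add_distrib, ← sum_sub_distrib, mul_sum, im_sum] at e
    rw [← mul_zero μ, ← e]
    congr 1
    refine sum_congr rfl fun i _ => ?_
    simp [re2]
    ring
  refine ⟨ω * l.re, ω * l.im, (re2 ((1 : ℂ) • a) ((1 : ℂ) • b),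
      re2 ((1 * (ω * l)) • a) ((1 * (ω * l)) • b)),
    (re2 ((1 * -I) • a) ((1 * -I) • b), re2 ((1 * -I * (ω * l)) • a) ((1 * -I * (ω * l)) • b)),
    hl, ?_, ?_, tan _, tan _, ?_⟩
  · rw [key]
    refine Prod.ext (lin1 1) ?_
    have := lin1 (1 * (ω * l))
    rw [mul_assoc, ← sq, mul_right_comm _ _ (-I)] at this
    exact this
  · rw [key]
    have neg : ∀ c : ℂ, re2 ((c * -I * -I) • a) ((c * -I * -I) • b) = -re2 (c • a) (c • b) := by
      intro c
      have : c * -I * -I = -c := by linear_combination c * I_mul_I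
      funext i
      rw [this]
      simp [re2]; ring
    refine Prod.ext ?_ ?_
    · have := lin1 (1 * -I)
      rw [neg, smul_neg, sub_neg_eq_add, add_comm] at this
      exact this
    · have := lin1 (1 * (ω * l) * -I)
      rw [neg, smul_neg, sub_neg_eq_add, add_comm, mul_right_comm _ _ (-I), mul_assoc _ (ω * l : ℂ),
        ← sq] at this
      exact this
  · rintro ⟨h1, h2⟩
    obtain ⟨s, hs⟩ := Submodule.mem_span_singleton.1 h1
    obtain ⟨t, ht⟩ := Submodule.mem_span_singleton.1 h2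
    have l0 : (ω : ℂ) * l ≠ 0 := mul_ne_zero hωc fun h0 => hlre (by simp [h0])
    have hab : ∀ i, a i = 0 ∧ b i = 0 := fun i => by
      have u1 := congrFun (congrArg Prod.snd hs) i
      have u2 := congrFun (congrArg Prod.snd ht) i
      simp only [Prod.smul_snd, smul_zero, Pi.zero_apply, re2, Pi.smul_apply, smul_eq_mul, one_mul,
        mul_assoc (-I), map_mul _ (-I), map_neg, conj_I, neg_neg] at u1 u2
      have v1 : ω * l * a i = 0 := by
        linear_combination -u1 - I * u2 + (ω * l * a i - conj (ω * l * b i)) / 2 * I_mul_I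
      have v2 : conj (ω * l * b i) = 0 := by linear_combination -2 * u1 - v1
      exact ⟨(mul_eq_zero.1 v1).resolve_left l0,
        (mul_eq_zero.1 ((map_eq_zero _).1 v2)).resolve_left l0⟩
    refine hx0 (funext fun k => ?_)
    rcases k with (i | i) | (i | i)
    · exact (hab i).1
    · exact (hab i).2
    · rw [x1, (hab i).1]; simp
    · rw [x2, (hab i).2]; simp

end Pool.Agent.MP_4948b4_mp

end

-- part MP_4948b4_mp.Data
section

/-! Certificates found by semidefinite programming. -/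

namespace Pool.Agent.MP_4948b4_mp

def ct8 : Ct :=
  ⟨239328850, 831246, 13225, -492, -115, [(0, 523), (-3, 730)],
    [(-5, -190548908), (-4, 1100218122), (-3, -2411068875), (-2, 2381230810), (-1, -1731759562), (0, 574333925), (1, 344607394)],
    [
    (0, [(-3, 10473), (-2, -42072), (-1, 52893), (0, -20495)]),
    (0, [(-3, -74), (-2, 152), (0, -70)]),
    (1, [(-3, 8163), (-2, -42570), (-1, 79382), (0, -42474), (1, -522)]),
    (1, [(-3, -5042), (-2, 28427), (0, -10656), (1, -12590)]),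
    (1, [(-3, -2463), (0, -5219), (1, 7748)]),
    (1, [(-3, -130), (0, 181)]),
    (2, [(-3, 15480), (-2, -63644), (-1, 79985), (0, -29331)]),
    (2, [(-3, -6526), (-2, 13658), (0, -4478)]),
    (2, [(-3, -7), (0, 19)]),
    (3, [(-3, 15698), (-2, -59544), (-1, 64849), (0, -19603)]),
    (3, [(-3, -3122), (-2, 6100), (0, 1716)]),
    (3, [(-3, -17), (0, 40)]),
    (4, [(-3, 10806), (-2, -37966), (-1, 38918), (0, -10995)]),
    (4, [(-3, 10), (-2, -1647), (0, 4749)]),
    (4, [(-3, -151), (-2, 277)])]⟩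

def ct9 : Ct :=
  ⟨302530134, 926908, 14884, -521, -122, [(0, 1398), (-3, 657)],
    [(-4, -213587515), (-3, 1490322545), (-2, -3592898496), (-1, 2560477044), (0, -307316257), (1, 184097379)],
    [
    (0, [(-3, 3428), (-2, -18472), (-1, 29552), (0, -13790)]),
    (0, [(-3, -69), (-2, 142), (0, -65)]),
    (1, [(-3, 6889), (-2, -42638), (-1, 84846), (0, -46505)]),
    (1, [(-3, -10400), (-2, 45164), (0, -35921)]),
    (1, [(-3, -62), (0, 88)]),
    (2, [(-3, 12192), (-2, -58726), (-1, 84847), (0, -33683)]),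
    (2, [(-3, -6933), (-2, 15137), (0, -4933)]),
    (3, [(-3, 15245), (-2, -57474), (-1, 60098), (0, -14782)]),
    (3, [(-3, -3121), (-2, 7274), (0, -60)]),
    (3, [(-3, -14), (0, 88)])]⟩

def ct10 : Ct :=
  ⟨374497091, 1008422, 13337, -496, -115, [(0, 2040), (-3, 530)],
    [(-4, -221588426), (-3, 1304776744), (-2, -2636898120), (-1, 1881396114), (0, -549504591), (1, 311453025)],
    [
    (0, [(-3, 6946), (-2, -33751), (-1, 50456), (0, -22542)]),
    (0, [(-3, -44), (-2, 93), (0, -44)]),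
    (1, [(-3, 6405), (-2, -41354), (-1, 89441), (0, -51619)]),
    (1, [(-3, -9725), (-2, 35733), (0, -26270)]),
    (2, [(-3, 13011), (-2, -62864), (-1, 89440), (0, -34398)]),
    (2, [(-3, -7934), (-2, 18218), (0, -6060)]),
    (2, [(-3, -8), (0, 24)]),
    (3, [(-3, 15490), (-2, -59386), (-1, 61814), (0, -16191)]),
    (3, [(-3, -2119), (-2, 4618), (0, 2594)]),
    (3, [(-3, -17), (0, 130)])]⟩

def bq : ℤ := 1222215
def bsq : List (ℕ × LP) :=
  [
    (1, [(-1, 5821), (0, -2305), (1, -3119)]),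
    (1, [(0, 92), (1, -82)]),
    (2, [(-1, 2482), (0, -1916)]),
    (3, [(-1, 1316), (0, -131)]),
    (4, [(-1, -939), (0, 1445)]),
    (4, [(-1, 759)]),
    (5, [(-1, 621), (0, -213)]),
    (5, [(0, 70)]),
    (6, [(-1, -487), (0, 1025)])]
def bg : LP := [(0, -20689832), (1, 22528238)]

end Pool.Agent.MP_4948b4_mp

end

-- part MP_4948b4_mp.Run8
section

/-! Kernel runs of the subdivision checker. -/

namespace Pool.Agent.MP_4948b4_mp

theorem r8_Y : run (chY 22 11 17 235) (.y (.z (.z .l .l) (.y .l (.z .l .l))) (.x .l (.y (.y .l .l) .l)))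
    true 33600 2400 120 9 9 (ct8.terms 8) = true := by
  decide +kernel

theorem r8_Z1 : run (chZ1 22 20 17 230) (.x .l (.y .l .l))
    true 33600 2400 120 9 9 (ct8.terms 8) = true := by
  decide +kernel

theorem r8_Z2 : run (chZ2 11 20 17 177) .l false 60000 2400 120 9 9 (ct8.terms 8) = true := by
  decide +kernel

theorem neg_8 : Neg (ct8.terms 8) := neg_of_run r8_Y r8_Z1 r8_Z2

end Pool.Agent.MP_4948b4_mp

end

-- part MP_4948b4_mp.Run9
section

/-! Kernel runs of the subdivision checker. -/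

namespace Pool.Agent.MP_4948b4_mp

theorem r9_Y : run (chY 21 11 15 235) (.y (.z (.x .l .l) (.z (.y (.z .l .l) (.z .l .l)) .l)) (.x .l (.y (.y .l .l) .l)))
    true 30240 2160 120 9 9 (ct9.terms 9) = true := by
  decide +kernel

theorem r9_Z1 : run (chZ1 21 20 15 198) (.x .l .l)
    true 30240 2160 120 9 9 (ct9.terms 9) = true := by
  decide +kernel

theorem r9_Z2 : run (chZ2 11 20 15 167) .l false 51840 2160 120 9 9 (ct9.terms 9) = true := by
  decide +kernel

theorem neg_9 : Neg (ct9.terms 9) := neg_of_run r9_Y r9_Z1 r9_Z2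

end Pool.Agent.MP_4948b4_mp

end
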